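import Mathlib
import Pool.Agent.Lib.AbcE.Core

/-!
# The transcendental core at the infinite place

The same auxiliary construction as in `core`, but the smallness of the integers `bigI` comes from
the real absolute value instead of divisibility.
-/

namespace Pool.Agent.AbcE

open Polynomial Finset

theorem natDegree_aux_le {R : Type*} [CommRing R] (r D d : ℕ) (c : ℕ → ℕ → R) :
    (aux r D d c).natDegree ≤ D + d * r := by
  unfold aux
  refine natDegree_sum_le_of_forall_le _ _ ?_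
  intro j hj
  refine natDegree_sum_le_of_forall_le _ _ ?_
  intro l hl
  rw [Finset.mem_range] at hj hl
  refine (natDegree_C_mul_X_pow_le _ _).trans ?_
  have : l * r ≤ d * r := Nat.mul_le_mul_right r (by omega)
  omega

theorem taylor_coeff_sum (G : ℝ[X]) (T k : ℕ) (hG : G.natDegree ≤ T) (z : ℝ) :
    (taylor z G).coeff k = ∑ m ∈ range (T + 1), (m.choose k : ℝ) * G.coeff m * z ^ (m - k) := by
  rw [taylor_coeff, hasseDeriv_apply]
  rw [Polynomial.sum_over_range' _ _ (T + 1) (by omega)]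
  · rw [eval_finsetSum]
    refine Finset.sum_congr rfl ?_
    intro m _
    rw [eval_monomial]
  · intro n
    simp

theorem vanish_real (r D d N K : ℕ) (c : ℕ → ℕ → ℤ)
    (hc : ∀ k < 2 * N, ∑ j ∈ range (D + 1), ∑ l ∈ range (d + 1),
        c j l * ((j + l * r).choose k : ℤ) = 0)
    (hK : ∀ j l, |c j l| ≤ (K : ℤ))
    (y : ℝ) (hy0 : 0 ≤ y) (hy : |y - 1| ≤ 1) (k : ℕ) (hk : k < N) :
    |∑ j ∈ range (D + 1), ∑ l ∈ range (d + 1),
        (c j l : ℝ) * ((j + l * r).choose k : ℝ) * y ^ (j + l * r)| ≤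
      2 ^ N * (((D + d * r + 1) * ((D + 1) * (d + 1) * K) * 4 ^ (D + d * r) : ℕ) : ℝ) *
        |y - 1| ^ N := by
  set T := D + d * r with hT
  set U := (D + 1) * (d + 1) with hU
  set F : ℝ[X] := aux r D d (fun j l => ((c j l : ℤ) : ℝ)) with hF
  have h1 := taylor_coeff_aux r D d (fun j l => ((c j l : ℤ) : ℝ)) y k
  rw [← h1, ← hF]
  set G : ℝ[X] := taylor 1 F with hG
  have hGdeg : G.natDegree ≤ T := by
    rw [hG, natDegree_taylor]
    exact natDegree_aux_le r D d _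
  have hty : taylor y F = taylor (y - 1) G := by
    rw [hG, taylor_taylor, sub_add_cancel]
  have hGc : ∀ m, G.coeff m = ((∑ j ∈ range (D + 1), ∑ l ∈ range (d + 1),
        c j l * ((j + l * r).choose m : ℤ) : ℤ) : ℝ) := by
    intro m
    have h2 := taylor_coeff_aux r D d (fun j l => ((c j l : ℤ) : ℝ)) 1 m
    rw [one_pow, one_mul] at h2
    rw [hG, hF, h2]
    push_cast
    simp only [one_pow, mul_one]
  have hG0 : ∀ m < 2 * N, G.coeff m = 0 := by
    intro m hm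
    rw [hGc, hc m hm]
    simp
  have hGb : ∀ m, |G.coeff m| ≤ ((U * K * 2 ^ T : ℕ) : ℝ) := by
    intro m
    rw [hGc]
    have h3 : |∑ j ∈ range (D + 1), ∑ l ∈ range (d + 1),
        c j l * ((j + l * r).choose m : ℤ)| ≤ ((U * K * 2 ^ T : ℕ) : ℤ) := by
      refine (Finset.abs_sum_le_sum_abs _ _).trans ?_
      have hterm : ∀ j ∈ range (D + 1), |∑ l ∈ range (d + 1),
          c j l * ((j + l * r).choose m : ℤ)| ≤ (((d + 1) * (K * 2 ^ T) : ℕ) : ℤ) := by
        intro j hj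
        rw [Finset.mem_range] at hj
        refine (Finset.abs_sum_le_sum_abs _ _).trans ?_
        have hin : ∀ l ∈ range (d + 1), |c j l * ((j + l * r).choose m : ℤ)| ≤
            ((K * 2 ^ T : ℕ) : ℤ) := by
          intro l hl
          rw [Finset.mem_range] at hl
          rw [abs_mul]
          have h4 : |(((j + l * r).choose m : ℕ) : ℤ)| ≤ ((2 ^ T : ℕ) : ℤ) := by
            rw [abs_of_nonneg (by positivity)]
            have h5 : (j + l * r).choose m ≤ 2 ^ T := by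
              refine (Nat.choose_le_two_pow _ _).trans (Nat.pow_le_pow_right (by norm_num) ?_)
              have h6 : l * r ≤ d * r := Nat.mul_le_mul_right r (by omega)
              omega
            exact_mod_cast h5
          have h0 := hK j l
          push_cast at h4 ⊢
          gcongr
        refine (Finset.sum_le_card_nsmul _ _ _ hin).trans ?_
        rw [Finset.card_range, nsmul_eq_mul]
        push_cast
        exact le_refl _
      refine (Finset.sum_le_card_nsmul _ _ _ hterm).trans ?_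
      rw [Finset.card_range, nsmul_eq_mul]
      apply le_of_eq
      rw [hU]
      push_cast
      ring
    have h7 : ((|∑ j ∈ range (D + 1), ∑ l ∈ range (d + 1),
        c j l * ((j + l * r).choose m : ℤ)| : ℤ) : ℝ) ≤ ((((U * K * 2 ^ T : ℕ) : ℤ)) : ℝ) := by
      exact_mod_cast h3
    rw [Int.cast_abs] at h7
    rw [Int.cast_natCast] at h7
    exact h7
  rw [abs_mul, hty, taylor_coeff_sum G T k hGdeg]
  have hz0 : 0 ≤ |y - 1| := abs_nonneg _
  have hyk : |y ^ k| ≤ 2 ^ N := by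
    rw [abs_pow, abs_of_nonneg hy0]
    have hy2 : y ≤ 2 := by
      have := abs_le.1 hy
      linarith [this.2]
    calc y ^ k ≤ 2 ^ k := pow_le_pow_left₀ hy0 hy2 k
      _ ≤ 2 ^ N := pow_le_pow_right₀ (by norm_num) hk.le
  have hsum : |∑ m ∈ range (T + 1), (m.choose k : ℝ) * G.coeff m * (y - 1) ^ (m - k)| ≤
      (((T + 1) * (U * K) * 4 ^ T : ℕ) : ℝ) * |y - 1| ^ N := by
    refine (Finset.abs_sum_le_sum_abs _ _).trans ?_
    have hterm : ∀ m ∈ range (T + 1), |(m.choose k : ℝ) * G.coeff m * (y - 1) ^ (m - k)| ≤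
        ((U * K * 4 ^ T : ℕ) : ℝ) * |y - 1| ^ N := by
      intro m hm
      rw [Finset.mem_range] at hm
      rcases lt_or_ge m (2 * N) with hlt | hge
      · rw [hG0 m hlt]
        simp only [mul_zero, zero_mul, abs_zero]
        positivity
      · rw [abs_mul, abs_mul, abs_pow]
        have h8 : |((m.choose k : ℕ) : ℝ)| ≤ ((2 ^ T : ℕ) : ℝ) := by
          rw [abs_of_nonneg (by positivity)]
          have h9 : m.choose k ≤ 2 ^ T :=
            (Nat.choose_le_two_pow _ _).trans (Nat.pow_le_pow_right (by norm_num) (by omega))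
          exact_mod_cast h9
        have h10 : |y - 1| ^ (m - k) ≤ |y - 1| ^ N :=
          pow_le_pow_of_le_one hz0 hy (by omega)
        calc |((m.choose k : ℕ) : ℝ)| * |G.coeff m| * |y - 1| ^ (m - k)
            ≤ ((2 ^ T : ℕ) : ℝ) * ((U * K * 2 ^ T : ℕ) : ℝ) * |y - 1| ^ N := by
              have := hGb m
              gcongr
          _ = ((U * K * 4 ^ T : ℕ) : ℝ) * |y - 1| ^ N := by
              rw [show (4 : ℕ) = 2 * 2 from rfl, mul_pow 2 2]
              push_cast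
              ring
    refine (Finset.sum_le_card_nsmul _ _ _ hterm).trans ?_
    rw [Finset.card_range, nsmul_eq_mul]
    apply le_of_eq
    push_cast
    ring
  calc |y ^ k| * |∑ m ∈ range (T + 1), (m.choose k : ℝ) * G.coeff m * (y - 1) ^ (m - k)|
      ≤ 2 ^ N * ((((T + 1) * (U * K) * 4 ^ T : ℕ) : ℝ) * |y - 1| ^ N) := by
        exact mul_le_mul hyk hsum (abs_nonneg _) (by positivity)
    _ = _ := by ring

/-- `(1 + e)^s - 1 ≤ 2 s e` for `2 s e ≤ 1`. -/
theorem pow_sub_one_le (x e : ℝ) (s S : ℕ) (hs : s ≤ S) (hx : 0 ≤ x) (he : |x - 1| ≤ e)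
    (hse : 2 * (S : ℝ) * e ≤ 1) : |x ^ s - 1| ≤ 2 * S * e := by
  have he0 : 0 ≤ e := (abs_nonneg _).trans he
  have h := abs_le.1 he
  have hsS : (s : ℝ) ≤ S := by exact_mod_cast hs
  have hse' : (s : ℝ) * e ≤ S * e := mul_le_mul_of_nonneg_right hsS he0
  have hs0 : (0 : ℝ) ≤ s := Nat.cast_nonneg s
  rw [abs_le]
  constructor
  · -- lower bound: Bernoulli
    have h1 : 1 + (s : ℝ) * (x - 1) ≤ x ^ s := by
      have := one_add_mul_le_pow (a := x - 1) (by linarith) s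
      rwa [show 1 + (x - 1) = x by ring] at this
    have h2 : -(s * e) ≤ (s : ℝ) * (x - 1) := by
      have := mul_le_mul_of_nonneg_left h.1 hs0
      linarith
    have h3 : 0 ≤ (S : ℝ) * e := mul_nonneg (Nat.cast_nonneg _) he0
    linarith
  · -- upper bound
    have h1 : x ≤ 1 + e := by linarith [h.2]
    have h2 : x ^ s ≤ Real.exp (s * e) := by
      calc x ^ s ≤ (1 + e) ^ s := pow_le_pow_left₀ hx h1 s
        _ ≤ (Real.exp e) ^ s := by
            apply pow_le_pow_left₀ (by linarith)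
            have := Real.add_one_le_exp e
            linarith
        _ = Real.exp (s * e) := by rw [← Real.exp_nat_mul]
    have h3 : (s : ℝ) * e ≤ 1 / 2 := by linarith
    have h4 : Real.exp (s * e) ≤ 1 + 2 * (s * e) := by
      have h5 : 0 ≤ (s : ℝ) * e := mul_nonneg hs0 he0
      have h6 := Real.one_sub_le_exp_neg ((s : ℝ) * e)
      have h7 : 0 < 1 - (s : ℝ) * e := by linarith
      have h8 : Real.exp ((s : ℝ) * e) * (1 - s * e) ≤ 1 := by
        calc Real.exp ((s : ℝ) * e) * (1 - s * e)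
            ≤ Real.exp ((s : ℝ) * e) * Real.exp (-(s * e)) :=
              mul_le_mul_of_nonneg_left h6 (Real.exp_pos _).le
          _ = 1 := by rw [← Real.exp_add]; simp
      have h9 : 1 ≤ (1 + 2 * ((s : ℝ) * e)) * (1 - s * e) := by nlinarith
      exact le_of_mul_le_mul_right (h8.trans h9) h7
    linarith

/-- The identity behind the size estimate. -/
theorem bigI_real (r D d : ℕ) (c : ℕ → ℕ → ℤ) (B1 B2 A1 A2 : ℕ) (hB1 : 0 < B1)
    (s k : ℕ) (ζ : ℝ)
    (hζ : (A1 : ℝ) = ζ * (A2 * ((B2 : ℝ) / B1) ^ r)) :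
    ((bigI r D d c B1 B2 A1 A2 s k : ℤ) : ℝ) = (B1 : ℝ) ^ (s * D) * (A2 : ℝ) ^ (s * d) *
      ∑ j ∈ range (D + 1), ∑ l ∈ range (d + 1), (c j l : ℝ) * ((j + l * r).choose k : ℝ) *
        (((B2 : ℝ) / B1) ^ s) ^ (j + l * r) * (ζ ^ s) ^ l := by
  have hB1r : (B1 : ℝ) ≠ 0 := by exact_mod_cast hB1.ne'
  set β : ℝ := (B2 : ℝ) / B1 with hβ
  have hB2e : (B2 : ℝ) = B1 * β := by
    rw [hβ]
    field_simp
  unfold bigI
  push_cast
  rw [Finset.mul_sum]
  refine Finset.sum_congr rfl ?_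
  intro j hj
  rw [Finset.mul_sum]
  refine Finset.sum_congr rfl ?_
  intro l hl
  rw [Finset.mem_range] at hj hl
  have e1 : s * D = s * j + s * (D - j) := by
    rw [← Nat.mul_add]; congr 1; omega
  have e2 : s * d = s * l + s * (d - l) := by
    rw [← Nat.mul_add]; congr 1; omega
  rw [e1, e2, hB2e, hζ, pow_add, pow_add, mul_pow, mul_pow, mul_pow]
  rw [show (β ^ s) ^ (j + l * r) = β ^ (s * j) * (β ^ r) ^ (s * l) from by
    rw [← pow_mul, ← pow_mul, ← pow_add]; congr 1; ring]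
  rw [show (ζ ^ s) ^ l = ζ ^ (s * l) from by rw [← pow_mul]]
  ring

theorem bigI_small (r D d N S K : ℕ) (c : ℕ → ℕ → ℤ)
    (hc : ∀ k < 2 * N, ∑ j ∈ range (D + 1), ∑ l ∈ range (d + 1),
        c j l * ((j + l * r).choose k : ℤ) = 0)
    (hK : ∀ j l, |c j l| ≤ (K : ℤ)) (B1 B2 A1 A2 : ℕ) (E0 E1 : ℝ)
    (hB1 : 0 < B1) (hB2 : 0 < B2) (hA1 : 0 < A1) (hA2 : 0 < A2)
    (hE0 : |(B2 : ℝ) - B1| ≤ E0 * B1) (hSE0 : 2 * (S : ℝ) * E0 ≤ 1)
    (hE1 : |(A1 : ℝ) * B1 ^ r - A2 * B2 ^ r| ≤ E1 * (A2 * B2 ^ r))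
    (hSE1 : 2 * ((S * d : ℕ) : ℝ) * E1 ≤ 1)
    (s k : ℕ) (hs : s ≤ S) (hk : k < N) :
    |((bigI r D d c B1 B2 A1 A2 s k : ℤ) : ℝ)| ≤
      (((D + 1) * (d + 1) * K * (D + d * r + 1) * 4 ^ (D + d * r) * (max B1 B2) ^ (S * D) *
        (max A1 A2) ^ (S * d) : ℕ) : ℝ) * ((4 * S * E0) ^ N + 2 * ((S * d : ℕ) : ℝ) * E1) := by
  set T := D + d * r with hT
  set U := (D + 1) * (d + 1) with hU
  have hB1r : (0 : ℝ) < B1 := by exact_mod_cast hB1
  have hB2r : (0 : ℝ) < B2 := by exact_mod_cast hB2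
  have hA1r : (0 : ℝ) < A1 := by exact_mod_cast hA1
  have hA2r : (0 : ℝ) < A2 := by exact_mod_cast hA2
  set β : ℝ := (B2 : ℝ) / B1 with hβ
  have hβ0 : 0 < β := by positivity
  set ζ : ℝ := (A1 : ℝ) / (A2 * β ^ r) with hζdef
  have hζ0 : 0 < ζ := by positivity
  have hζ : (A1 : ℝ) = ζ * (A2 * β ^ r) := by
    rw [hζdef]
    field_simp
  rw [bigI_real r D d c B1 B2 A1 A2 hB1 s k ζ hζ, ← hβ]
  have hβ1 : |β - 1| ≤ E0 := by
    have h1 : β - 1 = ((B2 : ℝ) - B1) / B1 := by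
      rw [hβ]
      field_simp
    rw [h1, abs_div, abs_of_pos hB1r, div_le_iff₀ hB1r]
    exact hE0
  have hζ1 : |ζ - 1| ≤ E1 := by
    have h1 : ζ - 1 = ((A1 : ℝ) * B1 ^ r - A2 * B2 ^ r) / (A2 * B2 ^ r) := by
      rw [hζdef, hβ, div_pow]
      field_simp
    rw [h1, abs_div, abs_of_pos (by positivity : (0 : ℝ) < A2 * B2 ^ r), div_le_iff₀ (by positivity)]
    exact hE1
  have hE00 : 0 ≤ E0 := (abs_nonneg _).trans hβ1
  have hE10 : 0 ≤ E1 := (abs_nonneg _).trans hζ1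
  set y : ℝ := β ^ s with hy
  have hy0 : 0 < y := pow_pos hβ0 s
  have hy1 : |y - 1| ≤ 2 * S * E0 := pow_sub_one_le β E0 s S hs hβ0.le hβ1 hSE0
  have hy1' : |y - 1| ≤ 1 := hy1.trans hSE0
  have hy2 : y ≤ 2 := by
    have := (abs_le.1 hy1').2
    linarith
  have hv := vanish_real r D d N K c hc hK y hy0.le hy1' k hk
  rw [← hT, ← hU] at hv
  -- the error term
  have herr : ∀ l ≤ d, |(ζ ^ s) ^ l - 1| ≤ 2 * ((S * d : ℕ) : ℝ) * E1 := by
    intro l hl
    rw [← pow_mul]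
    exact pow_sub_one_le ζ E1 (s * l) (S * d) (Nat.mul_le_mul hs hl) hζ0.le hζ1 hSE1
  have hsplit : ∑ j ∈ range (D + 1), ∑ l ∈ range (d + 1), (c j l : ℝ) *
        ((j + l * r).choose k : ℝ) * y ^ (j + l * r) * (ζ ^ s) ^ l =
      (∑ j ∈ range (D + 1), ∑ l ∈ range (d + 1), (c j l : ℝ) *
        ((j + l * r).choose k : ℝ) * y ^ (j + l * r)) +
      ∑ j ∈ range (D + 1), ∑ l ∈ range (d + 1), (c j l : ℝ) *
        ((j + l * r).choose k : ℝ) * y ^ (j + l * r) * ((ζ ^ s) ^ l - 1) := by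
    rw [← Finset.sum_add_distrib]
    refine Finset.sum_congr rfl ?_
    intro j _
    rw [← Finset.sum_add_distrib]
    refine Finset.sum_congr rfl ?_
    intro l _
    ring
  have hsecond : |∑ j ∈ range (D + 1), ∑ l ∈ range (d + 1), (c j l : ℝ) *
        ((j + l * r).choose k : ℝ) * y ^ (j + l * r) * ((ζ ^ s) ^ l - 1)| ≤
      ((U * K * 4 ^ T : ℕ) : ℝ) * (2 * ((S * d : ℕ) : ℝ) * E1) := by
    refine (Finset.abs_sum_le_sum_abs _ _).trans ?_
    have hterm : ∀ j ∈ range (D + 1), |∑ l ∈ range (d + 1), (c j l : ℝ) *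
        ((j + l * r).choose k : ℝ) * y ^ (j + l * r) * ((ζ ^ s) ^ l - 1)| ≤
        (((d + 1) * (K * 4 ^ T) : ℕ) : ℝ) * (2 * ((S * d : ℕ) : ℝ) * E1) := by
      intro j hj
      rw [Finset.mem_range] at hj
      refine (Finset.abs_sum_le_sum_abs _ _).trans ?_
      have hin : ∀ l ∈ range (d + 1), |(c j l : ℝ) *
          ((j + l * r).choose k : ℝ) * y ^ (j + l * r) * ((ζ ^ s) ^ l - 1)| ≤
          ((K * 4 ^ T : ℕ) : ℝ) * (2 * ((S * d : ℕ) : ℝ) * E1) := by
        intro l hl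
        rw [Finset.mem_range] at hl
        have hle : j + l * r ≤ T := by
          have h6 : l * r ≤ d * r := Nat.mul_le_mul_right r (by omega)
          omega
        rw [abs_mul, abs_mul, abs_mul]
        have h1 : |(c j l : ℝ)| ≤ (K : ℝ) := by
          rw [← Int.cast_abs]
          exact_mod_cast hK j l
        have h2 : |(((j + l * r).choose k : ℕ) : ℝ)| ≤ (2 : ℝ) ^ T := by
          rw [abs_of_nonneg (by positivity)]
          have h5 : (j + l * r).choose k ≤ 2 ^ T :=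
            (Nat.choose_le_two_pow _ _).trans (Nat.pow_le_pow_right (by norm_num) hle)
          exact_mod_cast h5
        have h3 : |y ^ (j + l * r)| ≤ (2 : ℝ) ^ T := by
          rw [abs_of_nonneg (by positivity)]
          calc y ^ (j + l * r) ≤ 2 ^ (j + l * r) := pow_le_pow_left₀ hy0.le hy2 _
            _ ≤ 2 ^ T := pow_le_pow_right₀ (by norm_num) hle
        have h4 := herr l (by omega)
        calc |(c j l : ℝ)| * |(((j + l * r).choose k : ℕ) : ℝ)| * |y ^ (j + l * r)| *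
              |(ζ ^ s) ^ l - 1|
            ≤ K * (2 : ℝ) ^ T * (2 : ℝ) ^ T * (2 * ((S * d : ℕ) : ℝ) * E1) := by
              gcongr
          _ = ((K * 4 ^ T : ℕ) : ℝ) * (2 * ((S * d : ℕ) : ℝ) * E1) := by
              rw [show (4 : ℕ) = 2 * 2 from rfl, mul_pow 2 2]
              push_cast
              ring
      refine (Finset.sum_le_card_nsmul _ _ _ hin).trans ?_
      rw [Finset.card_range, nsmul_eq_mul]
      apply le_of_eq
      push_cast
      ring
    refine (Finset.sum_le_card_nsmul _ _ _ hterm).trans ?_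
    rw [Finset.card_range, nsmul_eq_mul]
    apply le_of_eq
    rw [hU]
    push_cast
    ring
  have htot : |∑ j ∈ range (D + 1), ∑ l ∈ range (d + 1), (c j l : ℝ) *
        ((j + l * r).choose k : ℝ) * y ^ (j + l * r) * (ζ ^ s) ^ l| ≤
      ((U * K * (T + 1) * 4 ^ T : ℕ) : ℝ) *
        ((4 * S * E0) ^ N + 2 * ((S * d : ℕ) : ℝ) * E1) := by
    rw [hsplit]
    refine (abs_add_le _ _).trans ?_
    have h1 : 2 ^ N * (((T + 1) * (U * K) * 4 ^ T : ℕ) : ℝ) * |y - 1| ^ N ≤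
        ((U * K * (T + 1) * 4 ^ T : ℕ) : ℝ) * (4 * S * E0) ^ N := by
      have h2 : |y - 1| ^ N ≤ (2 * S * E0) ^ N := pow_le_pow_left₀ (abs_nonneg _) hy1 N
      calc 2 ^ N * (((T + 1) * (U * K) * 4 ^ T : ℕ) : ℝ) * |y - 1| ^ N
          ≤ 2 ^ N * (((T + 1) * (U * K) * 4 ^ T : ℕ) : ℝ) * (2 * S * E0) ^ N :=
            mul_le_mul_of_nonneg_left h2 (by positivity)
        _ = ((U * K * (T + 1) * 4 ^ T : ℕ) : ℝ) * (4 * S * E0) ^ N := by
            rw [show (4 : ℝ) * S * E0 = 2 * (2 * S * E0) by ring, mul_pow 2 (2 * (S : ℝ) * E0)]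
            push_cast
            ring
    have h3 : ((U * K * 4 ^ T : ℕ) : ℝ) * (2 * ((S * d : ℕ) : ℝ) * E1) ≤
        ((U * K * (T + 1) * 4 ^ T : ℕ) : ℝ) * (2 * ((S * d : ℕ) : ℝ) * E1) := by
      apply mul_le_mul_of_nonneg_right _ (by positivity)
      have : U * K * 4 ^ T ≤ U * K * (T + 1) * 4 ^ T := by
        apply Nat.mul_le_mul_right
        exact Nat.le_mul_of_pos_right _ (Nat.succ_pos _)
      exact_mod_cast this
    calc _ ≤ 2 ^ N * (((T + 1) * (U * K) * 4 ^ T : ℕ) : ℝ) * |y - 1| ^ N +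
          ((U * K * 4 ^ T : ℕ) : ℝ) * (2 * ((S * d : ℕ) : ℝ) * E1) := add_le_add hv hsecond
      _ ≤ ((U * K * (T + 1) * 4 ^ T : ℕ) : ℝ) * (4 * S * E0) ^ N +
          ((U * K * (T + 1) * 4 ^ T : ℕ) : ℝ) * (2 * ((S * d : ℕ) : ℝ) * E1) := add_le_add h1 h3
      _ = _ := by ring
  have hpre : |(B1 : ℝ) ^ (s * D) * (A2 : ℝ) ^ (s * d)| ≤
      (((max B1 B2) ^ (S * D) * (max A1 A2) ^ (S * d) : ℕ) : ℝ) := by
    rw [abs_of_nonneg (by positivity)]
    have h1 : B1 ^ (s * D) * A2 ^ (s * d) ≤ (max B1 B2) ^ (S * D) * (max A1 A2) ^ (S * d) := by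
      apply Nat.mul_le_mul
      · calc B1 ^ (s * D) ≤ (max B1 B2) ^ (s * D) := Nat.pow_le_pow_left (le_max_left _ _) _
          _ ≤ (max B1 B2) ^ (S * D) :=
            Nat.pow_le_pow_right (lt_of_lt_of_le hB1 (le_max_left _ _)) (Nat.mul_le_mul_right D hs)
      · calc A2 ^ (s * d) ≤ (max A1 A2) ^ (s * d) := Nat.pow_le_pow_left (le_max_right _ _) _
          _ ≤ (max A1 A2) ^ (S * d) :=
            Nat.pow_le_pow_right (lt_of_lt_of_le hA1 (le_max_left _ _)) (Nat.mul_le_mul_right d hs)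
    exact_mod_cast h1
  rw [abs_mul]
  calc |(B1 : ℝ) ^ (s * D) * (A2 : ℝ) ^ (s * d)| * |∑ j ∈ range (D + 1), ∑ l ∈ range (d + 1),
        (c j l : ℝ) * ((j + l * r).choose k : ℝ) * y ^ (j + l * r) * (ζ ^ s) ^ l|
      ≤ (((max B1 B2) ^ (S * D) * (max A1 A2) ^ (S * d) : ℕ) : ℝ) *
        (((U * K * (T + 1) * 4 ^ T : ℕ) : ℝ) *
          ((4 * S * E0) ^ N + 2 * ((S * d : ℕ) : ℝ) * E1)) := by
        apply mul_le_mul hpre htot (abs_nonneg _) (by positivity)
    _ = _ := by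
        push_cast
        ring

/-- **The transcendental core at the infinite place.** -/
theorem coreInf (r D d N S B1 B2 A1 A2 : ℕ) (E0 E1 : ℝ)
    (hB1 : 0 < B1) (hB2 : 0 < B2) (hA1 : 0 < A1) (hA2 : 0 < A2)
    (hr : D < r) (hSieg : 2 * (2 * N) ≤ (D + 1) * (d + 1)) (hne : B1 ≠ B2)
    (hE0 : |(B2 : ℝ) - B1| ≤ E0 * B1) (hSE0 : 2 * (S : ℝ) * E0 ≤ 1)
    (hE1 : |(A1 : ℝ) * B1 ^ r - A2 * B2 ^ r| ≤ E1 * (A2 * B2 ^ r))
    (hSE1 : 2 * ((S * d : ℕ) : ℝ) * E1 ≤ 1)
    (hsize : ((((D + 1) * (d + 1)) ^ 2 * (D + d * r + 1) * 8 ^ (D + d * r) *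
      (max B1 B2) ^ (S * D) * (max A1 A2) ^ (S * d) : ℕ) : ℝ) *
        ((4 * S * E0) ^ N + 2 * ((S * d : ℕ) : ℝ) * E1) < 1)
    (hzero : (d + 1) * D < S * (N - d)) : False := by
  have hN : 0 < N := by
    by_contra h
    have : N - d = 0 := by omega
    rw [this, mul_zero] at hzero
    omega
  obtain ⟨c, hc0, hcK, hc⟩ := siegel r D d N hN hSieg
  have hI0 : ∀ s ≤ S, ∀ k < N, bigI r D d c B1 B2 A1 A2 s k = 0 := by
    intro s hs k hk
    have h1 := bigI_small r D d N S _ c hc hcK B1 B2 A1 A2 E0 E1 hB1 hB2 hA1 hA2 hE0 hSE0 hE1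
      hSE1 s k hs hk
    have h2 : ((D + 1) * (d + 1) * ((D + 1) * (d + 1) * 2 ^ (D + d * r)) * (D + d * r + 1) *
        4 ^ (D + d * r) * (max B1 B2) ^ (S * D) * (max A1 A2) ^ (S * d) : ℕ)
        = ((D + 1) * (d + 1)) ^ 2 * (D + d * r + 1) * 8 ^ (D + d * r) *
      (max B1 B2) ^ (S * D) * (max A1 A2) ^ (S * d) := by
      rw [show (8 : ℕ) = 2 * 4 from rfl, mul_pow 2 4]
      ring
    rw [h2] at h1
    have h3 := lt_of_le_of_lt h1 hsize
    rw [← Int.cast_abs] at h3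
    have h4 : |bigI r D d c B1 B2 A1 A2 s k| < 1 := by exact_mod_cast h3
    exact Int.abs_lt_one_iff.1 h4
  set β : ℚ := (B2 : ℚ) / B1 with hβ
  set α : ℚ := (A1 : ℚ) / A2 with hα
  have hB1q : (B1 : ℚ) ≠ 0 := by exact_mod_cast hB1.ne'
  have hB2q : (B2 : ℚ) ≠ 0 := by exact_mod_cast hB2.ne'
  have hA1q : (A1 : ℚ) ≠ 0 := by exact_mod_cast hA1.ne'
  have hA2q : (A2 : ℚ) ≠ 0 := by exact_mod_cast hA2.ne'
  have hβ0 : 0 < β := by
    rw [hβ]
    positivity
  have hβ1 : β ≠ 1 := by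
    rw [hβ]
    intro h
    rw [div_eq_one_iff_eq hB1q] at h
    exact hne (by exact_mod_cast h.symm)
  have hα0 : 0 < α := by
    rw [hα]
    positivity
  have hz := zeroEst r D d N S hr (fun j l => ((c j l : ℤ) : ℚ)) (by
      obtain ⟨j, hj, l, hl, hjl⟩ := hc0
      exact ⟨j, hj, l, hl, by exact_mod_cast hjl⟩)
    (fun s : Fin S => β ^ ((s : ℕ) + 1)) (fun s : Fin S => α ^ ((s : ℕ) + 1))
    (by
      intro s t hst
      have h1 : β ^ ((s : ℕ) + 1) = β ^ ((t : ℕ) + 1) := hst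
      have h2 := pow_right_injective₀ hβ0 hβ1 h1
      exact Fin.ext (by omega))
    (fun s => (pow_pos hβ0 _).ne') (fun s => (pow_pos hα0 _).ne')
    (by
      intro s k hk
      have h1 := hI0 ((s : ℕ) + 1) (by have := s.2; omega) k hk
      set σ := (s : ℕ) + 1 with hσ
      have h2 : ((bigI r D d c B1 B2 A1 A2 σ k : ℤ) : ℚ) = 0 := by rw [h1]; simp
      have h3 : ((bigI r D d c B1 B2 A1 A2 σ k : ℤ) : ℚ)
          = (B1 : ℚ) ^ (σ * D) * (A2 : ℚ) ^ (σ * d) *
            ∑ j ∈ range (D + 1), ∑ l ∈ range (d + 1),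
              ((c j l : ℤ) : ℚ) * ((j + l * r).choose k : ℚ) * (β ^ σ) ^ j * (α ^ σ) ^ l := by
        unfold bigI
        push_cast
        rw [Finset.mul_sum]
        refine Finset.sum_congr rfl ?_
        intro j hj
        rw [Finset.mul_sum]
        refine Finset.sum_congr rfl ?_
        intro l hl
        rw [Finset.mem_range] at hj hl
        have e1 : σ * D = σ * j + σ * (D - j) := by
          rw [← Nat.mul_add]; congr 1; omega
        have e2 : σ * d = σ * l + σ * (d - l) := by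
          rw [← Nat.mul_add]; congr 1; omega
        rw [e1, e2, pow_add, pow_add]
        have e3 : (B2 : ℚ) ^ (σ * j) = (B1 : ℚ) ^ (σ * j) * (β ^ σ) ^ j := by
          rw [← pow_mul, ← mul_pow, hβ, mul_div_cancel₀ _ hB1q]
        have e4 : (A1 : ℚ) ^ (σ * l) = (A2 : ℚ) ^ (σ * l) * (α ^ σ) ^ l := by
          rw [← pow_mul, ← mul_pow, hα, mul_div_cancel₀ _ hA2q]
        rw [e3, e4]
        ring
      rw [h3] at h2
      have h4 : (B1 : ℚ) ^ (σ * D) * (A2 : ℚ) ^ (σ * d) ≠ 0 :=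
        mul_ne_zero (pow_ne_zero _ hB1q) (pow_ne_zero _ hA2q)
      exact (mul_eq_zero.1 h2).resolve_left h4)
  omega

end Pool.Agent.AbcE
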