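import Mathlib

/-!
# Pigeonhole step: approximate division of an exponent vector
-/

namespace Pool.Agent.AbcE

open Finset

variable {ι : Type*} [Fintype ι]

/-- The numerator of `∏ p i ^ f i`. -/
def posP (p : ι → ℕ) (f : ι → ℤ) : ℕ := ∏ i, p i ^ (f i).toNat

/-- The denominator of `∏ p i ^ f i`. -/
def negP (p : ι → ℕ) (f : ι → ℤ) : ℕ := ∏ i, p i ^ (-f i).toNat

theorem posP_pos {p : ι → ℕ} (hp : ∀ i, 0 < p i) (f : ι → ℤ) : 0 < posP p f :=
  Finset.prod_pos fun i _ => pow_pos (hp i) _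

theorem negP_pos {p : ι → ℕ} (hp : ∀ i, 0 < p i) (f : ι → ℤ) : 0 < negP p f :=
  Finset.prod_pos fun i _ => pow_pos (hp i) _

theorem posP_coprime {p : ι → ℕ} {M : ℕ} (h : ∀ i, (p i).Coprime M) (f : ι → ℤ) :
    (posP p f).Coprime M :=
  Nat.Coprime.prod_left fun i _ => (h i).pow_left _

theorem negP_coprime {p : ι → ℕ} {M : ℕ} (h : ∀ i, (p i).Coprime M) (f : ι → ℤ) :
    (negP p f).Coprime M :=
  Nat.Coprime.prod_left fun i _ => (h i).pow_left _

theorem posP_div_negP {p : ι → ℕ} (hp : ∀ i, 0 < p i) (f : ι → ℤ) :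
    (posP p f : ℚ) / negP p f = ∏ i, (p i : ℚ) ^ (f i) := by
  unfold posP negP
  push_cast
  rw [← Finset.prod_div_distrib]
  refine Finset.prod_congr rfl ?_
  intro i _
  have h0 : (p i : ℚ) ≠ 0 := by exact_mod_cast (hp i).ne'
  rcases le_total 0 (f i) with h | h
  · have h1 : (-f i).toNat = 0 := by omega
    rw [h1, pow_zero, div_one]
    conv_rhs => rw [show f i = ((f i).toNat : ℤ) from (Int.toNat_of_nonneg h).symm]
    rw [zpow_natCast]
  · have h1 : (f i).toNat = 0 := by omega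
    rw [h1, pow_zero, one_div]
    conv_rhs => rw [show f i = -((-f i).toNat : ℤ) from by omega]
    rw [zpow_neg, zpow_natCast]

theorem cross {p : ι → ℕ} (hp : ∀ i, 0 < p i) (e a f : ι → ℤ) (r : ℕ)
    (h : ∀ i, e i = a i + r * f i) :
    posP p a * posP p f ^ r * negP p e = negP p a * negP p f ^ r * posP p e := by
  have h1 : (posP p a : ℚ) / negP p a * ((posP p f : ℚ) / negP p f) ^ r
      = (posP p e : ℚ) / negP p e := by
    rw [posP_div_negP hp, posP_div_negP hp, posP_div_negP hp, ← Finset.prod_pow,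
      ← Finset.prod_mul_distrib]
    refine Finset.prod_congr rfl ?_
    intro i _
    have h0 : (p i : ℚ) ≠ 0 := by exact_mod_cast (hp i).ne'
    rw [h i, zpow_add₀ h0, mul_comm (r : ℤ) (f i), zpow_mul, zpow_natCast]
  have n1 : (negP p a : ℚ) ≠ 0 := by exact_mod_cast (negP_pos hp a).ne'
  have n2 : (negP p f : ℚ) ≠ 0 := by exact_mod_cast (negP_pos hp f).ne'
  have n3 : (negP p e : ℚ) ≠ 0 := by exact_mod_cast (negP_pos hp e).ne'
  rw [div_pow, div_mul_div_comm, div_eq_div_iff (mul_ne_zero n1 (pow_ne_zero _ n2)) n3] at h1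
  have h2 : ((posP p a * posP p f ^ r * negP p e : ℕ) : ℚ)
      = ((negP p a * negP p f ^ r * posP p e : ℕ) : ℚ) := by
    push_cast
    rw [h1]
    ring
  exact_mod_cast h2

theorem log_posP_add {p : ι → ℕ} (hp : ∀ i, 0 < p i) (f : ι → ℤ) :
    Real.log (posP p f) + Real.log (negP p f) = ∑ i, (|f i| : ℝ) * Real.log (p i) := by
  unfold posP negP
  push_cast
  rw [Real.log_prod (fun i _ => pow_ne_zero _ (by exact_mod_cast (hp i).ne')),
    Real.log_prod (fun i _ => pow_ne_zero _ (by exact_mod_cast (hp i).ne')),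
    ← Finset.sum_add_distrib]
  refine Finset.sum_congr rfl ?_
  intro i _
  rw [Real.log_pow, Real.log_pow, ← add_mul]
  congr 1
  rcases le_total 0 (f i) with h | h
  · have h1 : (-f i).toNat = 0 := by omega
    have h2 : (((f i).toNat : ℕ) : ℝ) = ((f i : ℤ) : ℝ) := by
      exact_mod_cast Int.toNat_of_nonneg h
    rw [h1, abs_of_nonneg (by exact_mod_cast h), h2, Nat.cast_zero, add_zero]
  · have h1 : (f i).toNat = 0 := by omega
    have h2 : (((-f i).toNat : ℕ) : ℝ) = ((-f i : ℤ) : ℝ) := by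
      exact_mod_cast Int.toNat_of_nonneg (show 0 ≤ -f i by omega)
    rw [h1, abs_of_nonpos (by exact_mod_cast h), h2, Nat.cast_zero, zero_add, Int.cast_neg]

theorem log_max_le {p : ι → ℕ} (hp : ∀ i, 0 < p i) (f : ι → ℤ) :
    Real.log ((max (posP p f) (negP p f) : ℕ) : ℝ) ≤ ∑ i, (|f i| : ℝ) * Real.log (p i) := by
  rw [← log_posP_add hp f]
  have h1 : 0 ≤ Real.log (posP p f) := Real.log_natCast_nonneg _
  have h2 : 0 ≤ Real.log (negP p f) := Real.log_natCast_nonneg _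
  rcases max_choice (posP p f) (negP p f) with h | h
  · rw [h]; linarith
  · rw [h]; linarith

theorem posP_ne_negP {p : ι → ℕ} (hp : ∀ i, (p i).Prime) (hinj : Function.Injective p)
    (f : ι → ℤ) (hf : ∃ i, f i ≠ 0) : posP p f ≠ negP p f := by
  intro h
  obtain ⟨i, hi⟩ := hf
  rcases lt_or_gt_of_ne hi with h1 | h1
  · -- `f i < 0`: `p i` divides `negP`
    have h2 : p i ∣ negP p f := by
      refine (dvd_pow_self (p i) (n := (-f i).toNat) (by omega)).trans ?_
      exact Finset.dvd_prod_of_mem (fun i => p i ^ (-f i).toNat) (Finset.mem_univ i)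
    rw [← h] at h2
    unfold posP at h2
    obtain ⟨j, _, hj⟩ := (Prime.dvd_finsetProd_iff (hp i).prime _).1 h2
    have h3 : p i ∣ p j := (hp i).dvd_of_dvd_pow hj
    have h4 : i = j := hinj ((Nat.prime_dvd_prime_iff_eq (hp i) (hp j)).1 h3)
    subst h4
    have h5 : (f i).toNat = 0 := by omega
    rw [h5, pow_zero] at hj
    exact (hp i).one_lt.ne' (Nat.dvd_one.1 hj)
  · have h2 : p i ∣ posP p f := by
      refine (dvd_pow_self (p i) (n := (f i).toNat) (by omega)).trans ?_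
      exact Finset.dvd_prod_of_mem (fun i => p i ^ (f i).toNat) (Finset.mem_univ i)
    rw [h] at h2
    unfold negP at h2
    obtain ⟨j, _, hj⟩ := (Prime.dvd_finsetProd_iff (hp i).prime _).1 h2
    have h3 : p i ∣ p j := (hp i).dvd_of_dvd_pow hj
    have h4 : i = j := hinj ((Nat.prime_dvd_prime_iff_eq (hp i) (hp j)).1 h3)
    subst h4
    have h5 : (-f i).toNat = 0 := by omega
    rw [h5, pow_zero] at hj
    exact (hp i).one_lt.ne' (Nat.dvd_one.1 hj)

/-- **Pigeonhole step.** -/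
theorem pigeon (p : ι → ℕ) (M0 : ℕ) (hM0 : 0 < M0) (hcop : ∀ i, (p i).Coprime M0)
    (e : ι → ℤ) (E : ℕ) (hE : 0 < E) (Q : ι → ℕ) (hQ : ∀ i, 0 < Q i) :
    ∃ γ : ℕ, 0 < γ ∧ γ ≤ M0 * ∏ i, Q i ∧ ∃ f : ι → ℤ,
      (∀ i, |(γ : ℤ) * e i - E * f i| * Q i < E) ∧
      (M0 : ℤ) ∣ (posP p f : ℤ) - negP p f := by
  classical
  have : NeZero M0 := ⟨hM0.ne'⟩
  set G : ℕ := M0 * ∏ i, Q i with hG
  -- units
  let u : ι → (ZMod M0)ˣ := fun i => ZMod.unitOfCoprime (p i) (hcop i)
  have hEz : (0 : ℤ) < E := by exact_mod_cast hE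
  have hbox : ∀ (g : ℕ) (i : ι), ((Q i : ℤ) * (((g : ℤ) * e i) % E) / E).toNat < Q i := by
    intro g i
    have h1 : 0 ≤ ((g : ℤ) * e i) % E := Int.emod_nonneg _ hEz.ne'
    have h2 : ((g : ℤ) * e i) % E < E := Int.emod_lt_of_pos _ hEz
    have hQz : (0 : ℤ) < Q i := by exact_mod_cast hQ i
    have h3 : (Q i : ℤ) * (((g : ℤ) * e i) % E) / E < Q i := by
      apply Int.ediv_lt_of_lt_mul hEz
      exact mul_lt_mul_of_pos_left h2 hQz
    have h4 : 0 ≤ (Q i : ℤ) * (((g : ℤ) * e i) % E) / E :=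
      Int.ediv_nonneg (by positivity) hEz.le
    omega
  let F : Fin (G + 1) → (ZMod M0)ˣ × ((i : ι) → Fin (Q i)) := fun g =>
    (∏ i, u i ^ (((g : ℕ) : ℤ) * e i / E),
      fun i => ⟨((Q i : ℤ) * ((((g : ℕ) : ℤ) * e i) % E) / E).toNat, hbox g i⟩)
  have hcard : Fintype.card ((ZMod M0)ˣ × ((i : ι) → Fin (Q i))) < Fintype.card (Fin (G + 1)) := by
    rw [Fintype.card_prod, Fintype.card_pi, Fintype.card_fin]
    simp only [Fintype.card_fin]
    have h1 : Fintype.card (ZMod M0)ˣ ≤ M0 := by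
      rw [ZMod.card_units_eq_totient]
      exact Nat.totient_le M0
    have h2 : Fintype.card (ZMod M0)ˣ * ∏ i, Q i ≤ G := Nat.mul_le_mul_right _ h1
    omega
  obtain ⟨g1, g2, hne, hF⟩ := Fintype.exists_ne_map_eq_of_card_lt F hcard
  -- order
  have key : ∀ g g' : Fin (G + 1), g < g' → F g = F g' → ∃ γ : ℕ, 0 < γ ∧ γ ≤ G ∧
      ∃ f : ι → ℤ, (∀ i, |(γ : ℤ) * e i - E * f i| * Q i < E) ∧
      (M0 : ℤ) ∣ (posP p f : ℤ) - negP p f := by
    intro g g' hlt hFF
    have hF1 := congrArg Prod.fst hFF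
    have hF2 := congrArg Prod.snd hFF
    have hlt' : (g : ℕ) < (g' : ℕ) := hlt
    refine ⟨(g' : ℕ) - (g : ℕ), by omega, by have := g'.2; omega,
      fun i => ((g' : ℕ) : ℤ) * e i / E - ((g : ℕ) : ℤ) * e i / E, ?_, ?_⟩
    · intro i
      have h1 : ((Q i : ℤ) * ((((g : ℕ) : ℤ) * e i) % E) / E).toNat
          = ((Q i : ℤ) * ((((g' : ℕ) : ℤ) * e i) % E) / E).toNat := by
        have := congrFun hF2 i
        exact congrArg Fin.val this
      have hn1 : 0 ≤ (((g : ℕ) : ℤ) * e i) % E := Int.emod_nonneg _ hEz.ne'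
      have hn2 : 0 ≤ (((g' : ℕ) : ℤ) * e i) % E := Int.emod_nonneg _ hEz.ne'
      have hd1 : 0 ≤ (Q i : ℤ) * ((((g : ℕ) : ℤ) * e i) % E) / E :=
        Int.ediv_nonneg (by positivity) hEz.le
      have hd2 : 0 ≤ (Q i : ℤ) * ((((g' : ℕ) : ℤ) * e i) % E) / E :=
        Int.ediv_nonneg (by positivity) hEz.le
      have h2 : (Q i : ℤ) * ((((g : ℕ) : ℤ) * e i) % E) / E
          = (Q i : ℤ) * ((((g' : ℕ) : ℤ) * e i) % E) / E := by omega
      -- Euclidean division identities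
      have e1 := Int.emod_add_mul_ediv (((g : ℕ) : ℤ) * e i) E
      have e2 := Int.emod_add_mul_ediv (((g' : ℕ) : ℤ) * e i) E
      set m1 := (((g : ℕ) : ℤ) * e i) % E
      set m2 := (((g' : ℕ) : ℤ) * e i) % E
      set k1 := ((g : ℕ) : ℤ) * e i / E
      set k2 := ((g' : ℕ) : ℤ) * e i / E
      have e3 := Int.emod_add_mul_ediv ((Q i : ℤ) * m1) E
      have e4 := Int.emod_add_mul_ediv ((Q i : ℤ) * m2) E
      have e5 : 0 ≤ ((Q i : ℤ) * m1) % E := Int.emod_nonneg _ hEz.ne'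
      have e6 : ((Q i : ℤ) * m1) % E < E := Int.emod_lt_of_pos _ hEz
      have e7 : 0 ≤ ((Q i : ℤ) * m2) % E := Int.emod_nonneg _ hEz.ne'
      have e8 : ((Q i : ℤ) * m2) % E < E := Int.emod_lt_of_pos _ hEz
      have h3 : (((g' : ℕ) - (g : ℕ) : ℕ) : ℤ) * e i - E * (k2 - k1) = m2 - m1 := by
        rw [Nat.cast_sub hlt'.le]
        linear_combination e1 - e2
      rw [h3]
      have hQz : (0 : ℤ) ≤ Q i := by positivity
      rw [show (Q i : ℤ) = |(Q i : ℤ)| from (abs_of_nonneg hQz).symm, ← abs_mul, abs_lt]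
      rw [h2] at e3
      constructor
      · have : (m2 - m1) * (Q i : ℤ) = ((Q i : ℤ) * m2) % E - ((Q i : ℤ) * m1) % E := by
          linear_combination e3 - e4
        rw [this]; omega
      · have : (m2 - m1) * (Q i : ℤ) = ((Q i : ℤ) * m2) % E - ((Q i : ℤ) * m1) % E := by
          linear_combination e3 - e4
        rw [this]; omega
    · -- congruence
      set f : ι → ℤ := fun i => ((g' : ℕ) : ℤ) * e i / E - ((g : ℕ) : ℤ) * e i / E with hf
      have h1 : ∏ i, u i ^ (f i) = 1 := by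
        rw [hf]
        simp only [zpow_sub]
        rw [Finset.prod_mul_distrib, Finset.prod_inv_distrib]
        have h2 : ∏ i, u i ^ (((g' : ℕ) : ℤ) * e i / E) = ∏ i, u i ^ (((g : ℕ) : ℤ) * e i / E) :=
          hF1.symm
        rw [h2, mul_inv_cancel]
      have h3 : ∏ i, u i ^ (f i).toNat = ∏ i, u i ^ (-f i).toNat := by
        have h4 : ∏ i, u i ^ (f i) = (∏ i, u i ^ (f i).toNat) * (∏ i, u i ^ (-f i).toNat)⁻¹ := by
          rw [← Finset.prod_inv_distrib, ← Finset.prod_mul_distrib]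
          refine Finset.prod_congr rfl ?_
          intro i _
          rw [← zpow_natCast, ← zpow_natCast, ← zpow_neg, ← zpow_add]
          congr 1
          omega
        rw [h4, mul_inv_eq_one] at h1
        exact h1
      rw [← ZMod.intCast_zmod_eq_zero_iff_dvd]
      have h5 := congrArg (fun v : (ZMod M0)ˣ => (v : ZMod M0)) h3
      simp only [Units.coe_prod, Units.val_pow_eq_pow_val] at h5
      unfold posP negP
      push_cast
      rw [sub_eq_zero]
      exact h5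
  rcases lt_or_gt_of_ne hne with h | h
  · exact key g1 g2 h hF
  · exact key g2 g1 h hF.symm

end Pool.Agent.AbcE
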