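import Mathlib
import Pool.Agent.Lib.AbcE.Core
import Pool.Agent.Lib.AbcE.Pigeon

/-!
# Theorem E: an effective height bound for `S`-units congruent to `1` modulo `M`
-/

namespace Pool.Agent.AbcE

open Finset

theorem exists_M0 (M N : ℕ) (hM : 0 < M) (hN : 0 < N) : ∃ M0 : ℕ, 0 < M0 ∧ M ∣ M0 ^ N ∧
    M0 ^ N ≤ M * (∏ q ∈ M.primeFactors, q) ^ N ∧ (∀ q : ℕ, q.Coprime M → q.Coprime M0) := by
  set a : ℕ → ℕ := fun q => (M.factorization q + (N - 1)) / N with ha
  have ha1 : ∀ q, M.factorization q ≤ a q * N := by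
    intro q
    have h1 := Nat.div_add_mod (M.factorization q + (N - 1)) N
    have h2 := Nat.mod_lt (M.factorization q + (N - 1)) hN
    have h3 : a q * N = N * ((M.factorization q + (N - 1)) / N) := by rw [ha, mul_comm]
    omega
  have ha2 : ∀ q, a q * N ≤ M.factorization q + N := by
    intro q
    have h1 := Nat.div_mul_le_self (M.factorization q + (N - 1)) N
    have h3 : a q * N = (M.factorization q + (N - 1)) / N * N := by rw [ha]
    omega
  have hMf : ∏ q ∈ M.primeFactors, q ^ M.factorization q = M :=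
    Nat.prod_factorization_pow_eq_self hM.ne'
  refine ⟨∏ q ∈ M.primeFactors, q ^ a q, ?_, ?_, ?_, ?_⟩
  · exact Finset.prod_pos fun q hq => pow_pos (Nat.prime_of_mem_primeFactors hq).pos _
  · conv_lhs => rw [← hMf]
    rw [← Finset.prod_pow]
    refine Finset.prod_dvd_prod_of_dvd _ _ ?_
    intro q _
    rw [← pow_mul]
    exact pow_dvd_pow _ (ha1 q)
  · conv_rhs => rw [← hMf]
    have hpf : (∏ q ∈ M.primeFactors, q ^ M.factorization q).primeFactors = M.primeFactors := by
      rw [hMf]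
    rw [hpf, ← Finset.prod_pow, ← Finset.prod_pow, ← Finset.prod_mul_distrib]
    refine Finset.prod_le_prod' ?_
    intro q hq
    rw [← pow_mul, ← pow_add]
    exact Nat.pow_le_pow_right (Nat.prime_of_mem_primeFactors hq).pos (ha2 q)
  · intro q hq
    refine Nat.Coprime.prod_right ?_
    intro q' hq'
    refine Nat.Coprime.pow_right _ ?_
    exact Nat.Coprime.coprime_dvd_right (Nat.dvd_of_mem_primeFactors hq') hq

theorem natAbs_sub_lt_max (a b : ℕ) (ha : 0 < a) (hb : 0 < b) (hne : a ≠ b) (m : ℕ)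
    (hd : (m : ℤ) ∣ (a : ℤ) - b) : m ≤ max a b := by
  have h1 : (a : ℤ) - b ≠ 0 := by
    intro h
    exact hne (by omega)
  have h2 := Int.natAbs_dvd_natAbs.2 hd
  have h3 := Nat.le_of_dvd (Int.natAbs_pos.2 h1) h2
  rw [Int.natAbs_natCast] at h3
  have h4 : ((a : ℤ) - b).natAbs ≤ max a b := by
    rcases le_total a b with h | h
    · have : ((a : ℤ) - b).natAbs = b - a := by omega
      rw [this, max_eq_right h]; omega
    · have : ((a : ℤ) - b).natAbs = a - b := by omega
      rw [this, max_eq_left h]; omega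
  omega

variable {ι : Type*} [Fintype ι]

/-- **Theorem E** (effective height bound; Gelfond method in one variable). -/
theorem theoremE (p : ι → ℕ) (hp : ∀ i, (p i).Prime) (hinj : Function.Injective p)
    (e : ι → ℤ) (M : ℕ) (hM : 0 < M) (hcop : ∀ i, (p i).Coprime M)
    (hdvd : (M : ℤ) ∣ (posP p e : ℤ) - negP p e)
    (h4 : ∑ i, (|e i| : ℝ) * Real.log (p i) ≤ 4 * Real.log M) :
    ∑ i, (|e i| : ℝ) * Real.log (p i) ≤
      Real.exp 9000 * ((∏ q ∈ M.primeFactors, q : ℕ) : ℝ) ^ 2 *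
        (∏ i, (30 * (Fintype.card ι : ℝ) * Real.log (p i) + 1)) ^ 2 *
        (∑ i, Real.log (p i) + 1) ^ 2 := by
  classical
  by_contra hcon
  have hcon := not_le.1 hcon
  set h : ℝ := ∑ i, (|e i| : ℝ) * Real.log (p i) with hh
  set R : ℝ := ((∏ q ∈ M.primeFactors, q : ℕ) : ℝ) with hR
  set L : ℝ := ∑ i, Real.log (p i) with hL
  set n : ℝ := (Fintype.card ι : ℝ) with hn
  set Pr : ℝ := ∏ i, (30 * n * Real.log (p i) + 1) with hPr
  have hpos : ∀ i, 0 < p i := fun i => (hp i).pos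
  have hlp : ∀ i, 0 < Real.log (p i) := fun i =>
    Real.log_pos (by exact_mod_cast (hp i).one_lt)
  have hlp2 : ∀ i, (0.6 : ℝ) ≤ Real.log (p i) := by
    intro i
    have h1 : Real.log 2 ≤ Real.log (p i) :=
      Real.log_le_log (by norm_num) (by exact_mod_cast (hp i).two_le)
    have := Real.log_two_gt_d9
    linarith
  have hn0 : 0 ≤ n := Nat.cast_nonneg _
  have hR1 : 1 ≤ R := by
    rw [hR]
    exact_mod_cast Nat.succ_le_of_lt
      (Finset.prod_pos fun q hq => (Nat.prime_of_mem_primeFactors hq).pos)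
  have hL0 : 0 ≤ L := Finset.sum_nonneg fun i _ => (hlp i).le
  have hPr1 : 1 ≤ Pr := by
    rw [hPr]
    calc (1 : ℝ) = ∏ _i : ι, (1 : ℝ) := by simp
      _ ≤ ∏ i, (30 * n * Real.log (p i) + 1) := by
        refine Finset.prod_le_prod (fun i _ => zero_le_one) (fun i _ => ?_)
        have h1 := mul_nonneg (mul_nonneg (by norm_num : (0 : ℝ) ≤ 30) hn0) (hlp i).le
        linarith
  have hbig : Real.exp 9000 ≤ Real.exp 9000 * R ^ 2 * Pr ^ 2 * (L + 1) ^ 2 := by
    have e1 : (1 : ℝ) ≤ R ^ 2 := one_le_pow₀ hR1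
    have e2 : (1 : ℝ) ≤ Pr ^ 2 := one_le_pow₀ hPr1
    have e3 : (1 : ℝ) ≤ (L + 1) ^ 2 := one_le_pow₀ (by linarith)
    have e4 : 0 < Real.exp 9000 := Real.exp_pos _
    calc Real.exp 9000 = Real.exp 9000 * 1 * 1 * 1 := by ring
      _ ≤ _ := by gcongr
  have hexp9000 : (100000000 : ℝ) ≤ Real.exp 9000 := by
    have h1 : (9000 : ℝ) + 1 ≤ Real.exp 9000 := Real.add_one_le_exp _
    have h2 : Real.exp 9000 = Real.exp 4500 * Real.exp 4500 := by
      rw [← Real.exp_add]; norm_num
    have h3 : (4500 : ℝ) + 1 ≤ Real.exp 4500 := Real.add_one_le_exp _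
    have h4 : Real.exp 4500 = Real.exp 2250 * Real.exp 2250 := by
      rw [← Real.exp_add]; norm_num
    have h5 : (2250 : ℝ) + 1 ≤ Real.exp 2250 := Real.add_one_le_exp _
    have h6 : (2251 : ℝ) * 2251 ≤ Real.exp 4500 := by
      rw [h4]; nlinarith only [h5]
    rw [h2]; nlinarith only [h6]
  have hhbig : (100000000 : ℝ) < h := by linarith
  -- nonempty, `e ≠ 0`
  have he0 : ∃ i, e i ≠ 0 := by
    by_contra hc
    have hc' : ∀ i, e i = 0 := fun i => by_contra fun h => hc ⟨i, h⟩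
    have : h = 0 := by
      rw [hh]
      refine Finset.sum_eq_zero ?_
      intro i _
      rw [hc' i]
      simp
    linarith
  obtain ⟨i1, hi1⟩ := he0
  have hn1 : 1 ≤ n := by
    rw [hn]
    exact_mod_cast Nat.succ_le_of_lt (Fintype.card_pos_iff.2 ⟨i1⟩)
  have hL6 : (0.6 : ℝ) ≤ L := by
    calc (0.6 : ℝ) ≤ Real.log (p i1) := hlp2 i1
      _ ≤ L := Finset.single_le_sum (fun i _ => (hlp i).le) (Finset.mem_univ i1)
  -- the maximum `E`
  set E : ℕ := Finset.univ.sup (fun i => (e i).natAbs) with hE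
  have hEle : ∀ i, (e i).natAbs ≤ E := fun i =>
    Finset.le_sup (f := fun i => (e i).natAbs) (Finset.mem_univ i)
  obtain ⟨i0, _, hi0⟩ := Finset.exists_mem_eq_sup Finset.univ ⟨i1, Finset.mem_univ _⟩
    (fun i => (e i).natAbs)
  rw [← hE] at hi0
  have hEpos : 0 < E := by
    have h1 := hEle i1
    have h2 : 0 < (e i1).natAbs := Int.natAbs_pos.2 hi1
    omega
  have hEabs : ∀ i, |(e i : ℝ)| ≤ (E : ℝ) := by
    intro i
    have h1 : |e i| ≤ (E : ℤ) := by
      rw [Int.abs_eq_natAbs]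
      exact_mod_cast hEle i
    exact_mod_cast h1
  have hhE : h ≤ E * L := by
    rw [hh, hL, Finset.mul_sum]
    refine Finset.sum_le_sum ?_
    intro i _
    exact mul_le_mul_of_nonneg_right (hEabs i) (hlp i).le
  have hERpos : (0 : ℝ) < E := by exact_mod_cast hEpos
  -- `N`
  set N : ℕ := ⌊h / 4000⌋₊ with hN
  have hNle : (N : ℝ) ≤ h / 4000 := Nat.floor_le (by positivity)
  have hNlt : h / 4000 < (N : ℝ) + 1 := Nat.lt_floor_add_one _
  have hN4 : (4000 : ℝ) ≤ N := by
    have h1 : 4000 ≤ N := by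
      rw [hN]
      apply Nat.le_floor
      rw [le_div_iff₀ (by norm_num)]
      norm_num
      linarith
    exact_mod_cast h1
  have hNpos : 0 < N := by
    have : (0 : ℝ) < N := by linarith
    exact_mod_cast this
  have hhN : h ≤ 4001 * N := by linarith
  -- size of `M`
  have hneZ := posP_ne_negP hp hinj e ⟨i1, hi1⟩
  have hMmax : M ≤ max (posP p e) (negP p e) :=
    natAbs_sub_lt_max _ _ (posP_pos hpos e) (negP_pos hpos e) hneZ M hdvd
  have hMR : (0 : ℝ) < M := by exact_mod_cast hM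
  have hlogM : Real.log M ≤ h := by
    refine (Real.log_le_log hMR ?_).trans (log_max_le hpos e)
    exact_mod_cast hMmax
  -- `M0`
  obtain ⟨M0, hM0, hMM0, hM0le, hM0cop⟩ := exists_M0 M N hM hNpos
  have hM0R : (0 : ℝ) < M0 := by exact_mod_cast hM0
  have hlogM0 : (N : ℝ) * Real.log M0 ≤ h + N * Real.log R := by
    have h1 : ((M0 : ℝ)) ^ N ≤ M * R ^ N := by
      rw [hR]
      exact_mod_cast hM0le
    have h2 := Real.log_le_log (by positivity) h1
    rw [Real.log_mul hMR.ne' (by positivity), Real.log_pow, Real.log_pow] at h2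
    linarith
  have hM0e : (M0 : ℝ) ≤ Real.exp 4001 * R := by
    have h1 : Real.log M0 ≤ 4001 + Real.log R := by
      have h2 : (N : ℝ) * Real.log M0 ≤ N * (4001 + Real.log R) := by linarith
      exact le_of_mul_le_mul_left h2 (by linarith)
    have h3 : (M0 : ℝ) = Real.exp (Real.log M0) := (Real.exp_log hM0R).symm
    rw [h3]
    calc Real.exp (Real.log M0) ≤ Real.exp (4001 + Real.log R) := Real.exp_le_exp.2 h1
      _ = Real.exp 4001 * R := by rw [Real.exp_add, Real.exp_log (by linarith)]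
  -- `Q`
  set Q : ι → ℕ := fun i => ⌈30 * n * Real.log (p i)⌉₊ with hQ
  have hQge : ∀ i, 30 * n * Real.log (p i) ≤ Q i := fun i => Nat.le_ceil _
  have hQpos : ∀ i, 0 < Q i := by
    intro i
    have h1 : 0 < 30 * n * Real.log (p i) := by
      have := hlp i
      positivity
    exact Nat.ceil_pos.2 h1
  have hQle : ∀ i, (Q i : ℝ) ≤ 30 * n * Real.log (p i) + 1 := by
    intro i
    have h1 : 0 ≤ 30 * n * Real.log (p i) := by
      have := hlp i
      positivity
    exact (Nat.ceil_lt_add_one h1).le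
  obtain ⟨γ, hγ0, hγle, f, hf, hfM⟩ := pigeon p M0 hM0 (fun i => hM0cop _ (hcop i)) e E hEpos Q hQpos
  set G : ℕ := M0 * ∏ i, Q i with hG
  have hGpos : 0 < G := Nat.mul_pos hM0 (Finset.prod_pos fun i _ => hQpos i)
  have hG1 : (1 : ℝ) ≤ G := by exact_mod_cast hGpos
  have hGle : (G : ℝ) ≤ Real.exp 4001 * R * Pr := by
    rw [hG]
    push_cast
    have h1 : (∏ i, (Q i : ℝ)) ≤ Pr :=
      Finset.prod_le_prod (fun i _ => Nat.cast_nonneg _) (fun i _ => hQle i)
    have h2 : (0 : ℝ) ≤ ∏ i, (Q i : ℝ) := Finset.prod_nonneg fun i _ => Nat.cast_nonneg _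
    exact mul_le_mul hM0e h1 h2 (by positivity)
  have hhG : 2000 * (G : ℝ) ^ 2 * (L + 1) ^ 2 < h := by
    refine lt_of_le_of_lt ?_ hcon
    have h1 : (G : ℝ) ^ 2 ≤ (Real.exp 4001 * R * Pr) ^ 2 := by gcongr
    have h2 : Real.exp 9000 = Real.exp 998 * (Real.exp 4001) ^ 2 := by
      rw [pow_two, ← Real.exp_add, ← Real.exp_add]; norm_num
    have h3 : (2000 : ℝ) ≤ Real.exp 998 := by
      have e1 : Real.exp 998 = Real.exp 499 * Real.exp 499 := by
        rw [← Real.exp_add]; norm_num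
      have e2 : (499 : ℝ) + 1 ≤ Real.exp 499 := Real.add_one_le_exp _
      rw [e1]; nlinarith only [e2]
    calc 2000 * (G : ℝ) ^ 2 * (L + 1) ^ 2
        ≤ Real.exp 998 * (Real.exp 4001 * R * Pr) ^ 2 * (L + 1) ^ 2 := by gcongr
      _ = Real.exp 9000 * R ^ 2 * Pr ^ 2 * (L + 1) ^ 2 := by rw [h2]; ring
  -- `r`
  set r : ℕ := E / γ with hr
  have hr1 : γ * r ≤ E := Nat.mul_div_le E γ
  have hr2 : E < γ * (r + 1) := by
    have := Nat.lt_mul_div_succ E hγ0
    exact this
  have hr1R : (γ : ℝ) * r ≤ E := by exact_mod_cast hr1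
  have hr2R : (E : ℝ) < γ * (r + 1) := by exact_mod_cast hr2
  have hγR : (0 : ℝ) < γ := by exact_mod_cast hγ0
  have hγG : (γ : ℝ) ≤ G := by exact_mod_cast hγle
  have hrbig : 2000 * (G : ℝ) * (L + 1) < r + 1 := by
    -- `2000 G^2 (L+1)^2 < E L ≤ E (L+1)`
    have h1 : 2000 * (G : ℝ) ^ 2 * (L + 1) ^ 2 < E * (L + 1) := by nlinarith only [hhG, hhE, hERpos]
    have h2 : 2000 * (G : ℝ) ^ 2 * (L + 1) < E := by
      have h3 : (2000 * (G : ℝ) ^ 2 * (L + 1)) * (L + 1) < E * (L + 1) := by nlinarith only [h1]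
      exact lt_of_mul_lt_mul_right h3 (by linarith)
    have h4 : (E : ℝ) < G * (r + 1) := by
      refine lt_of_lt_of_le hr2R ?_
      have : (0 : ℝ) ≤ (r : ℝ) + 1 := by positivity
      exact mul_le_mul_of_nonneg_right hγG this
    have h5 : (G : ℝ) * (2000 * G * (L + 1)) < G * (r + 1) := by nlinarith only [h2, h4]
    exact lt_of_mul_lt_mul_left h5 (by linarith)
  have hr2000 : (2000 : ℝ) ≤ r := by
    have e1 : (1 : ℝ) * 1.6 ≤ G * (L + 1) := mul_le_mul hG1 (by linarith only [hL6]) (by norm_num)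
      (by linarith only [hG1])
    linarith only [e1, hrbig]
  have hrGL : 30 * ((G : ℝ) * L) ≤ r := by
    have e1 : (1 : ℝ) * 0.6 ≤ G * L := mul_le_mul hG1 hL6 (by norm_num) (by linarith only [hG1])
    linarith only [e1, hrbig, hG1]
  have hrpos : (0 : ℝ) < r := by linarith
  -- heights
  have hfi : ∀ i, |(f i : ℝ)| ≤ |(e i : ℝ)| / r + 1 / Q i := by
    intro i
    have hQi : (0 : ℝ) < Q i := by exact_mod_cast hQpos i
    have h1 : |(γ : ℝ) * e i - E * f i| * Q i < E := by exact_mod_cast hf i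
    have h2 : |(γ : ℝ) * e i - E * f i| ≤ E / Q i := by
      rw [le_div_iff₀ hQi]; exact h1.le
    have h3 : (E : ℝ) * |(f i : ℝ)| ≤ γ * |(e i : ℝ)| + E / Q i := by
      have e1 : (E : ℝ) * |(f i : ℝ)| = |(γ : ℝ) * e i - (γ * e i - E * f i)| := by
        rw [sub_sub_cancel, abs_mul, abs_of_pos hERpos]
      have e2 : |(γ : ℝ) * e i - (γ * e i - E * f i)| ≤ |(γ : ℝ) * e i| + |(γ : ℝ) * e i - E * f i| :=
        abs_sub _ _
      have e3 : |(γ : ℝ) * e i| = γ * |(e i : ℝ)| := by rw [abs_mul, abs_of_pos hγR]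
      linarith
    have h4 : (γ : ℝ) * |(e i : ℝ)| ≤ E * (|(e i : ℝ)| / r) := by
      rw [mul_div_assoc', le_div_iff₀ hrpos]
      have := abs_nonneg (e i : ℝ)
      nlinarith only [this, hr1R]
    have h5 : (E : ℝ) * |(f i : ℝ)| ≤ E * (|(e i : ℝ)| / r + 1 / Q i) := by
      have : (E : ℝ) * (1 / Q i) = E / Q i := by ring
      rw [mul_add, this]
      linarith
    exact le_of_mul_le_mul_left h5 hERpos
  have hsumQ : ∑ i, (1 / (Q i : ℝ)) * Real.log (p i) ≤ 1 / 30 := by
    have h1 : ∀ i, (1 / (Q i : ℝ)) * Real.log (p i) ≤ 1 / (30 * n) := by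
      intro i
      have hQi : (0 : ℝ) < Q i := by exact_mod_cast hQpos i
      have h2 := hQge i
      rw [div_mul_eq_mul_div, one_mul, div_le_div_iff₀ hQi (by positivity)]
      linarith
    calc ∑ i, (1 / (Q i : ℝ)) * Real.log (p i) ≤ ∑ _i : ι, 1 / (30 * n) :=
          Finset.sum_le_sum fun i _ => h1 i
      _ = n * (1 / (30 * n)) := by rw [Finset.sum_const, Finset.card_univ, nsmul_eq_mul]
      _ = 1 / 30 := by field_simp
  have hβ : ∑ i, (|f i| : ℝ) * Real.log (p i) ≤ h / r + 1 / 30 := by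
    calc ∑ i, (|f i| : ℝ) * Real.log (p i)
        ≤ ∑ i, (|(e i : ℝ)| / r + 1 / Q i) * Real.log (p i) := by
          refine Finset.sum_le_sum fun i _ => ?_
          exact mul_le_mul_of_nonneg_right (hfi i) (hlp i).le
      _ = h / r + ∑ i, (1 / (Q i : ℝ)) * Real.log (p i) := by
          rw [hh, Finset.sum_div, ← Finset.sum_add_distrib]
          refine Finset.sum_congr rfl fun i _ => ?_
          ring
      _ ≤ _ := by linarith
  set a : ι → ℤ := fun i => e i - r * f i with ha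
  have hai : ∀ i, |(a i : ℝ)| ≤ G + r * (1 / Q i) := by
    intro i
    have hQi : (0 : ℝ) < Q i := by exact_mod_cast hQpos i
    have h1 : |(γ : ℝ) * e i - E * f i| * Q i < E := by exact_mod_cast hf i
    have h2 : |(γ : ℝ) * e i - E * f i| ≤ E / Q i := by
      rw [le_div_iff₀ hQi]; exact h1.le
    have h3 : (E : ℝ) * a i = e i * (E - r * γ) + r * (γ * e i - E * f i) := by
      rw [ha]
      push_cast
      ring
    have h4 : (E : ℝ) * |(a i : ℝ)| ≤ |(e i : ℝ)| * γ + r * (E / Q i) := by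
      have e1 : (E : ℝ) * |(a i : ℝ)| = |(E : ℝ) * a i| := by rw [abs_mul, abs_of_pos hERpos]
      rw [e1, h3]
      refine (abs_add_le _ _).trans ?_
      rw [abs_mul, abs_mul, abs_of_pos hrpos]
      have e2 : |(E : ℝ) - r * γ| ≤ γ := by
        rw [abs_of_nonneg (by linarith only [hr1R])]
        linarith only [hr2R]
      have e3 := abs_nonneg (e i : ℝ)
      gcongr
    have h5 : (E : ℝ) * |(a i : ℝ)| ≤ E * (G + r * (1 / Q i)) := by
      have e1 : |(e i : ℝ)| * γ ≤ E * G :=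
        mul_le_mul (hEabs i) hγG hγR.le hERpos.le
      have e2 : (r : ℝ) * (E / Q i) = E * (r * (1 / Q i)) := by ring
      rw [mul_add]
      linarith
    exact le_of_mul_le_mul_left h5 hERpos
  have hα : ∑ i, (|a i| : ℝ) * Real.log (p i) ≤ G * L + r * (1 / 30) := by
    calc ∑ i, (|a i| : ℝ) * Real.log (p i)
        ≤ ∑ i, (G + r * (1 / Q i)) * Real.log (p i) := by
          refine Finset.sum_le_sum fun i _ => ?_
          exact mul_le_mul_of_nonneg_right (hai i) (hlp i).le
      _ = G * L + r * ∑ i, (1 / (Q i : ℝ)) * Real.log (p i) := by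
          rw [hL, Finset.mul_sum, Finset.mul_sum, ← Finset.sum_add_distrib]
          refine Finset.sum_congr rfl fun i _ => ?_
          ring
      _ ≤ _ := by gcongr
  -- `f ≠ 0`
  have hf0 : f i0 ≠ 0 := by
    intro h0
    have h1 := hf i0
    rw [h0, mul_zero, sub_zero, abs_mul] at h1
    have h2 : |e i0| = (E : ℤ) := by rw [Int.abs_eq_natAbs, ← hi0]
    rw [h2] at h1
    have h3 : (1 : ℤ) ≤ |(γ : ℤ)| := by
      rw [abs_of_nonneg (by positivity)]
      exact_mod_cast hγ0
    have h4 : (1 : ℤ) ≤ (Q i0 : ℤ) := by exact_mod_cast hQpos i0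
    have h5 : (0 : ℤ) < (E : ℤ) := by exact_mod_cast hEpos
    have h6 : (1 : ℤ) * 1 ≤ |(γ : ℤ)| * (Q i0 : ℤ) :=
      mul_le_mul h3 h4 (by norm_num) (by positivity)
    nlinarith only [h1, h5, h6]
  have hneB := posP_ne_negP hp hinj f ⟨i0, hf0⟩
  set B1 := posP p f with hB1
  set B2 := negP p f with hB2
  set A1 := posP p a with hA1
  set A2 := negP p a with hA2
  have hM0B : M0 ≤ max B1 B2 :=
    natAbs_sub_lt_max _ _ (posP_pos hpos f) (negP_pos hpos f) hneB M0 hfM
  have hlogB : Real.log ((max B1 B2 : ℕ) : ℝ) ≤ h / r + 1 / 30 := (log_max_le hpos f).trans hβ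
  have hlogA : Real.log ((max A1 A2 : ℕ) : ℝ) ≤ G * L + r * (1 / 30) := (log_max_le hpos a).trans hα
  have hlogM0' : Real.log M0 ≤ h / r + 1 / 30 := by
    refine (Real.log_le_log hM0R ?_).trans hlogB
    exact_mod_cast hM0B
  have hlogMN : Real.log M ≤ N * Real.log M0 := by
    have h1 : M ≤ M0 ^ N := Nat.le_of_dvd (pow_pos hM0 _) hMM0
    have h2 : (M : ℝ) ≤ (M0 : ℝ) ^ N := by exact_mod_cast h1
    have h3 := Real.log_le_log hMR h2
    rwa [Real.log_pow] at h3
  have hr5N : (r : ℝ) ≤ 5 * N := by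
    have h1 : h / 4 ≤ N * (h / r + 1 / 30) := by
      have : (N : ℝ) * Real.log M0 ≤ N * (h / r + 1 / 30) :=
        mul_le_mul_of_nonneg_left hlogM0' (by linarith)
      linarith
    have h2 : h * (1 / 5) ≤ N * (h / r) := by linarith only [h1, hNle, hhbig]
    have h3 : h * (1 / 5) * r ≤ N * h := by
      have h4 : N * (h / r) * r = N * h := by field_simp
      calc h * (1 / 5) * r ≤ N * (h / r) * r := mul_le_mul_of_nonneg_right h2 hrpos.le
        _ = N * h := h4
    have h5 : h * r ≤ h * (5 * N) := by linarith only [h3]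
    exact le_of_mul_le_mul_left h5 (by linarith)
  -- `D`, `d`
  set D : ℕ := r / 60 with hD
  set d : ℕ := 4 * N / (D + 1) with hd
  have hD1 : 60 * D ≤ r := by omega
  have hD2 : r < 60 * (D + 1) := by omega
  have hrN : r ≤ 5 * N := by exact_mod_cast hr5N
  have hr2000' : 2000 ≤ r := by exact_mod_cast hr2000
  have hd1 : d * (D + 1) ≤ 4 * N := Nat.div_mul_le_self _ _
  have hd2 : 4 * N < (D + 1) * (d + 1) := Nat.lt_mul_div_succ _ (by omega)
  have h33 : 33 * d ≤ 4 * N := by
    have : 33 ≤ D + 1 := by omega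
    calc 33 * d ≤ (D + 1) * d := Nat.mul_le_mul_right _ this
      _ = d * (D + 1) := by ring
      _ ≤ 4 * N := hd1
  have hx : (D + 1) * (d + 1) ≤ 4 * N + (D + 1) := by
    have : (D + 1) * (d + 1) = d * (D + 1) + (D + 1) := by ring
    omega
  refine core r D d N 6 M M0 B1 B2 A1 A2 (posP_pos hpos f) (negP_pos hpos f) (posP_pos hpos a)
    (negP_pos hpos a) (by omega) (by omega) hMM0 hfM hneB ?_ (posP_coprime hcop f).symm
    (negP_coprime hcop a).symm ?_ ?_
  · -- congruence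
    have hcr := cross hpos e a f r (fun i => by rw [ha]; ring)
    have h1 : (A1 : ℤ) * B1 ^ r * negP p e = A2 * B2 ^ r * posP p e := by exact_mod_cast hcr
    have h2 : ((A1 : ℤ) * B1 ^ r - A2 * B2 ^ r) * negP p e
        = A2 * B2 ^ r * ((posP p e : ℤ) - negP p e) := by linear_combination h1
    have h3 : (M : ℤ) ∣ ((A1 : ℤ) * B1 ^ r - A2 * B2 ^ r) * negP p e := by
      rw [h2]
      exact hdvd.mul_left _
    have h4 : IsCoprime (M : ℤ) (negP p e : ℤ) :=
      Nat.isCoprime_iff_coprime.2 (negP_coprime hcop e).symm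
    exact h4.dvd_of_dvd_mul_right h3
  · -- size
    have hB1R : 0 < B1 := posP_pos hpos f
    have hA1R : 0 < A1 := posP_pos hpos a
    have hmB : 0 < max B1 B2 := lt_max_of_lt_left hB1R
    have hmA : 0 < max A1 A2 := lt_max_of_lt_left hA1R
    have hmBR : (0 : ℝ) < ((max B1 B2 : ℕ) : ℝ) := by exact_mod_cast hmB
    have hmAR : (0 : ℝ) < ((max A1 A2 : ℕ) : ℝ) := by exact_mod_cast hmA
    have hxpos : (0 : ℝ) < (((D + 1) * (d + 1) : ℕ) : ℝ) := by
      exact_mod_cast (by positivity : 0 < (D + 1) * (d + 1))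
    have hgoal : ((((D + 1) * (d + 1) : ℕ) : ℝ)) ^ 2 * (4 : ℝ) ^ (D + d * r) *
        ((max B1 B2 : ℕ) : ℝ) ^ (6 * D) * ((max A1 A2 : ℕ) : ℝ) ^ (6 * d) < (M : ℝ) := by
      rw [← Real.log_lt_log_iff (by positivity) hMR]
      rw [Real.log_mul (by positivity) (by positivity), Real.log_mul (by positivity) (by positivity),
        Real.log_mul (by positivity) (by positivity), Real.log_pow, Real.log_pow, Real.log_pow,
        Real.log_pow]
      push_cast
      have hD1R : 60 * (D : ℝ) ≤ r := by exact_mod_cast hD1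
      have hD2R : (r : ℝ) ≤ 60 * (D + 1) := by exact_mod_cast hD2.le
      have hd1R : (d : ℝ) * (D + 1) ≤ 4 * N := by exact_mod_cast hd1
      have hxR : ((D : ℝ) + 1) * (d + 1) ≤ 4 * N + (D + 1) := by exact_mod_cast hx
      have hD0 : (0 : ℝ) ≤ D := Nat.cast_nonneg _
      have hd0 : (0 : ℝ) ≤ d := Nat.cast_nonneg _
      have hdr : (d : ℝ) * r ≤ 240 * N := by
        calc (d : ℝ) * r ≤ d * (60 * (D + 1)) := mul_le_mul_of_nonneg_left hD2R hd0
          _ = 60 * (d * (D + 1)) := by ring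
          _ ≤ 60 * (4 * N) := by linarith
          _ = 240 * N := by ring
      have t1 : 2 * Real.log (((D : ℝ) + 1) * (d + 1)) ≤ 10 * N := by
        have h1 : (0 : ℝ) < ((D : ℝ) + 1) * (d + 1) := by positivity
        have h2 := Real.log_le_sub_one_of_pos h1
        linarith
      have t2 : ((D : ℝ) + d * r) * Real.log 4 ≤ 337 * N := by
        have h1 : Real.log 4 ≤ 1.4 := by
          have h2 : Real.log 4 = 2 * Real.log 2 := by
            rw [show (4 : ℝ) = 2 ^ 2 from by norm_num, Real.log_pow]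
            norm_num
          have := Real.log_two_lt_d9
          rw [h2]; linarith
        have h3 : (0 : ℝ) ≤ (D : ℝ) + d * r := by positivity
        calc ((D : ℝ) + d * r) * Real.log 4 ≤ ((D : ℝ) + d * r) * 1.4 :=
              mul_le_mul_of_nonneg_left h1 h3
          _ ≤ (N / 12 + 240 * N) * 1.4 := by
              have : (D : ℝ) ≤ N / 12 := by linarith
              linarith
          _ ≤ 337 * N := by linarith
      have t3 : 6 * (D : ℝ) * Real.log (max (B1 : ℝ) (B2 : ℝ)) ≤ h / 10 + N := by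
        have hcast : (max (B1 : ℝ) (B2 : ℝ)) = ((max B1 B2 : ℕ) : ℝ) := by push_cast; rfl
        rw [hcast]
        have h1 : 6 * (D : ℝ) * Real.log ((max B1 B2 : ℕ) : ℝ) ≤ 6 * D * (h / r + 1 / 30) :=
          mul_le_mul_of_nonneg_left hlogB (by positivity)
        have h2 : (D : ℝ) * (h / r) ≤ h / 60 := by
          rw [mul_div_assoc', div_le_div_iff₀ hrpos (by norm_num)]
          nlinarith only [hD1R, hhbig]
        linarith only [h1, h2, hD1R, hr5N]
      have t4 : 6 * (d : ℝ) * Real.log (max (A1 : ℝ) (A2 : ℝ)) ≤ 96 * N := by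
        have hcast : (max (A1 : ℝ) (A2 : ℝ)) = ((max A1 A2 : ℕ) : ℝ) := by push_cast; rfl
        rw [hcast]
        have h1 : Real.log ((max A1 A2 : ℕ) : ℝ) ≤ r * (1 / 15) := by linarith
        calc 6 * (d : ℝ) * Real.log ((max A1 A2 : ℕ) : ℝ) ≤ 6 * d * (r * (1 / 15)) :=
              mul_le_mul_of_nonneg_left h1 (by positivity)
          _ = 6 / 15 * (d * r) := by ring
          _ ≤ 6 / 15 * (240 * N) := by linarith
          _ = 96 * N := by ring
      have t5 : h / 4 ≤ Real.log M := by linarith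
      linarith
    exact_mod_cast hgoal
  · -- zero estimate inequality
    have h1 : (d + 1) * D + (d + 1) = (D + 1) * (d + 1) := by ring
    omega

end Pool.Agent.AbcE
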