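import Mathlib
import Pool.Agent.Lib.AbcD.Final

/-!
# Pairs of abc-triples whose radicals have a large common divisor: the matrix

`cf m n i` is the cofactor of `∏_j gg m n i j` in `m i`.
-/

set_option autoImplicit false

open Finset

namespace Pool.Agent.Lib.AbcE

open Pool.Agent.Lib.AbcG Pool.Agent.Lib.AbcD

/-- The cofactor. -/
def cf (m n : Fin 3 → ℕ) (i : Fin 3) : ℕ := m i / (gg m n i 0 * gg m n i 1 * gg m n i 2)

theorem gg_row_dvd {m n : Fin 3 → ℕ} (hn : PC n) (i : Fin 3) :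
    gg m n i 0 * gg m n i 1 * gg m n i 2 ∣ rad (m i) := by
  have c1 : ∀ {j k : Fin 3}, j ≠ k → (gg m n i j).Coprime (gg m n i k) := fun h =>
    ((rad_coprime hn h).coprime_dvd_left (Nat.gcd_dvd_right _ _)).coprime_dvd_right
      (Nat.gcd_dvd_right _ _)
  have d : ∀ j, gg m n i j ∣ rad (m i) := fun j => Nat.gcd_dvd_left _ _
  exact Nat.Coprime.mul_dvd_of_dvd_of_dvd
    (Nat.Coprime.mul_left (c1 (by decide)) (c1 (by decide)))
    (Nat.Coprime.mul_dvd_of_dvd_of_dvd (c1 (by decide)) (d 0) (d 1)) (d 2)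

theorem row2 {m n : Fin 3 → ℕ} (hn : PC n) (i : Fin 3) :
    m i = cf m n i * (gg m n i 0 * gg m n i 1 * gg m n i 2) := by
  unfold cf
  exact (Nat.div_mul_cancel ((gg_row_dvd hn i).trans (rad_dvd _))).symm

theorem col2 {m n : Fin 3 → ℕ} (hm : PC m) (j : Fin 3) :
    n j = cf n m j * (gg m n 0 j * gg m n 1 j * gg m n 2 j) := by
  have := row2 (m := n) hm j
  rw [gg_symm n m j 0, gg_symm n m j 1, gg_symm n m j 2] at this
  exact this

theorem cf_pos {m n : Fin 3 → ℕ} (hm : PC m) (hn : PC n) (i : Fin 3) : 0 < cf m n i := by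
  have h := row2 (m := m) hn i
  have h1 := hm.1 i
  rw [Nat.pos_iff_ne_zero]
  intro h2
  rw [h2, zero_mul] at h
  omega

/-- The product of all the common divisors. -/
def GG (m n : Fin 3 → ℕ) : ℕ :=
  (gg m n 0 0 * gg m n 0 1 * gg m n 0 2) * (gg m n 1 0 * gg m n 1 1 * gg m n 1 2) *
      (gg m n 2 0 * gg m n 2 1 * gg m n 2 2)

theorem GG_eq {m n : Fin 3 → ℕ} (hm : PC m) (hn : PC n) : GG m n = Nat.gcd (rr m) (rr n) := by
  have c1 : (rad (n 0) * rad (n 1)).Coprime (rad (n 2)) :=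
    Nat.Coprime.mul_left (rad_coprime hn (by decide)) (rad_coprime hn (by decide))
  have c2 : (rad (n 0)).Coprime (rad (n 1)) := rad_coprime hn (by decide)
  have d1 : (rad (m 0) * rad (m 1)).Coprime (rad (m 2)) :=
    Nat.Coprime.mul_left (rad_coprime hm (by decide)) (rad_coprime hm (by decide))
  have d2 : (rad (m 0)).Coprime (rad (m 1)) := rad_coprime hm (by decide)
  have h : ∀ x, Nat.gcd x (rad (n 0) * rad (n 1) * rad (n 2)) =
      Nat.gcd x (rad (n 0)) * Nat.gcd x (rad (n 1)) * Nat.gcd x (rad (n 2)) := by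
    intro x
    rw [Nat.Coprime.gcd_mul _ c1, Nat.Coprime.gcd_mul _ c2]
  unfold rr
  rw [Nat.gcd_comm, Nat.Coprime.gcd_mul _ d1, Nat.Coprime.gcd_mul _ d2, Nat.gcd_comm _ (rad (m 0)),
    Nat.gcd_comm _ (rad (m 1)), Nat.gcd_comm _ (rad (m 2)), h, h, h]
  rfl

theorem prod_cf {m n : Fin 3 → ℕ} (hn : PC n) :
    cf m n 0 * cf m n 1 * cf m n 2 * GG m n = m 0 * m 1 * m 2 := by
  conv_rhs => rw [row2 (m := m) hn 0, row2 (m := m) hn 1, row2 (m := m) hn 2]
  unfold GG
  ring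

/-- The code of a pair. -/
def code2 (p : (Fin 3 → ℕ) × (Fin 3 → ℕ)) : (Fin 3 → ℕ) × (Fin 3 → ℕ) × (Fin 6 → ℕ) :=
  (cf p.1 p.2, cf p.2 p.1, off p.1 p.2)

theorem code_inj2 {s s' : Fin 3 → ℤ} (hs : ∀ i, (s i).natAbs = 1) (hs' : ∀ i, (s' i).natAbs = 1)
    {m n m' n' : Fin 3 → ℕ} (hm : PC m) (hn : PC n) (hm' : PC m') (hn' : PC n')
    (e1 : AbcD.Rel s m) (e2 : AbcD.Rel s' n) (e3 : AbcD.Rel s m')
    (e4 : AbcD.Rel s' n') (hne : m ≠ n) (hcode : code2 (m, n) = code2 (m', n')) : m = m' ∧ n = n' := by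
  unfold code2 at hcode
  simp only [Prod.mk.injEq] at hcode
  obtain ⟨c1, c2, c3⟩ := hcode
  have o01 : gg m n 0 1 = gg m' n' 0 1 := congrFun c3 0
  have o02 : gg m n 0 2 = gg m' n' 0 2 := congrFun c3 1
  have o10 : gg m n 1 0 = gg m' n' 1 0 := congrFun c3 2
  have o12 : gg m n 1 2 = gg m' n' 1 2 := congrFun c3 3
  have o20 : gg m n 2 0 = gg m' n' 2 0 := congrFun c3 4
  have o21 : gg m n 2 1 = gg m' n' 2 1 := congrFun c3 5
  obtain ⟨A, hA⟩ : ∃ A : Fin 3 → ℕ, A = ![cf m n 0 * (gg m n 0 1 * gg m n 0 2),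
    cf m n 1 * (gg m n 1 0 * gg m n 1 2), cf m n 2 * (gg m n 2 0 * gg m n 2 1)] := ⟨_, rfl⟩
  obtain ⟨B, hB⟩ : ∃ B : Fin 3 → ℕ, B = ![cf n m 0 * (gg m n 1 0 * gg m n 2 0),
    cf n m 1 * (gg m n 0 1 * gg m n 2 1), cf n m 2 * (gg m n 0 2 * gg m n 1 2)] := ⟨_, rfl⟩
  have A0 : A 0 = cf m n 0 * (gg m n 0 1 * gg m n 0 2) := by rw [hA]; rfl
  have A1 : A 1 = cf m n 1 * (gg m n 1 0 * gg m n 1 2) := by rw [hA]; rfl
  have A2 : A 2 = cf m n 2 * (gg m n 2 0 * gg m n 2 1) := by rw [hA]; rfl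
  have B0 : B 0 = cf n m 0 * (gg m n 1 0 * gg m n 2 0) := by rw [hB]; rfl
  have B1 : B 1 = cf n m 1 * (gg m n 0 1 * gg m n 2 1) := by rw [hB]; rfl
  have B2 : B 2 = cf n m 2 * (gg m n 0 2 * gg m n 1 2) := by rw [hB]; rfl
  have mA : ∀ i, m i = A i * gg m n i i := by
    intro i
    fin_cases i
    · show m 0 = A 0 * gg m n 0 0
      rw [A0]
      conv_lhs => rw [row2 hn (m := m) 0]
      ring
    · show m 1 = A 1 * gg m n 1 1
      rw [A1]
      conv_lhs => rw [row2 hn (m := m) 1]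
      ring
    · show m 2 = A 2 * gg m n 2 2
      rw [A2]
      conv_lhs => rw [row2 hn (m := m) 2]
      ring
  have nB : ∀ i, n i = B i * gg m n i i := by
    intro i
    fin_cases i
    · show n 0 = B 0 * gg m n 0 0
      rw [B0]
      conv_lhs => rw [col2 hm (n := n) 0]
      ring
    · show n 1 = B 1 * gg m n 1 1
      rw [B1]
      conv_lhs => rw [col2 hm (n := n) 1]
      ring
    · show n 2 = B 2 * gg m n 2 2
      rw [B2]
      conv_lhs => rw [col2 hm (n := n) 2]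
      ring
  have mA' : ∀ i, m' i = A i * gg m' n' i i := by
    intro i
    fin_cases i
    · show m' 0 = A 0 * gg m' n' 0 0
      rw [A0, c1, o01, o02]
      conv_lhs => rw [row2 hn' (m := m') 0]
      ring
    · show m' 1 = A 1 * gg m' n' 1 1
      rw [A1, c1, o10, o12]
      conv_lhs => rw [row2 hn' (m := m') 1]
      ring
    · show m' 2 = A 2 * gg m' n' 2 2
      rw [A2, c1, o20, o21]
      conv_lhs => rw [row2 hn' (m := m') 2]
      ring
  have nB' : ∀ i, n' i = B i * gg m' n' i i := by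
    intro i
    fin_cases i
    · show n' 0 = B 0 * gg m' n' 0 0
      rw [B0, c2, o10, o20]
      conv_lhs => rw [col2 hm' (n := n') 0]
      ring
    · show n' 1 = B 1 * gg m' n' 1 1
      rw [B1, c2, o01, o21]
      conv_lhs => rw [col2 hm' (n := n') 1]
      ring
    · show n' 2 = B 2 * gg m' n' 2 2
      rw [B2, c2, o02, o12]
      conv_lhs => rw [col2 hm' (n := n') 2]
      ring
  unfold AbcD.Rel at e1 e2 e3 e4
  have key := uniq_diag (A := A) (B := B) (x := fun i => gg m n i i) (y := fun i => gg m' n' i i)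
    (s := s) (s' := s') hs hs' (fun i => gg_pos m n i i)
    (by simp only [← mA]; exact e1) (by simp only [← mA']; exact e3)
    (by simp only [← nB]; exact e2) (by simp only [← nB']; exact e4)
    (by intro i j hij; simp only [← mA]; exact hm.2 i j hij)
    (by intro i j hij; simp only [← nB]; exact hn.2 i j hij)
    (by intro i j hij; simp only [← mA']; exact hm'.2 i j hij)
    (by
      by_contra hcon
      push Not at hcon
      apply hne
      funext i
      rw [mA i, nB i]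
      exact hcon i)
  constructor
  · funext i
    rw [mA i, mA' i]
    congr 1
    exact congrFun key i
  · funext i
    rw [nB i, nB' i]
    congr 1
    exact congrFun key i

end Pool.Agent.Lib.AbcE
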