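import Mathlib
import Pool.Agent.Lib.AbcE.Mat

/-!
# Pairs of abc-triples whose radicals have a large common divisor: the two cases
-/

set_option autoImplicit false

open Finset

namespace Pool.Agent.Lib.AbcE

open Pool.Agent.Lib.AbcG Pool.Agent.Lib.AbcD

/-- A pair of different solutions with small cofactors. -/
def Pair2 (s s' : Fin 3 → ℤ) (W : ℕ) (p : (Fin 3 → ℕ) × (Fin 3 → ℕ)) : Prop :=
  PC p.1 ∧ PC p.2 ∧ AbcD.Rel s p.1 ∧ AbcD.Rel s' p.2 ∧ p.1 ≠ p.2 ∧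
    (∀ i, cf p.1 p.2 i ≤ W) ∧ ∀ i, cf p.2 p.1 i ≤ W

theorem cf_mem_ubox {W : ℕ} {m n : Fin 3 → ℕ} (hm : PC m) (hn : PC n) (h : ∀ i, cf m n i ≤ W) :
    cf m n ∈ ubox W := by
  unfold ubox
  rw [Fintype.mem_piFinset]
  intro i
  rw [mem_Icc]
  exact ⟨cf_pos hm hn i, h i⟩

theorem caseA2 {s s' : Fin 3 → ℤ} (hs : ∀ i, (s i).natAbs = 1) (hs' : ∀ i, (s' i).natAbs = 1)
    (W Z T : ℕ) (S : Finset ((Fin 3 → ℕ) × (Fin 3 → ℕ)))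
    (hS : ∀ p ∈ S, Pair2 s s' W p ∧ ∏ i, off p.1 p.2 i ≤ Z)
    (hT : ∀ n, 1 ≤ n → n ≤ Z → n.divisors.card ≤ T) : S.card ≤ W ^ 3 * (W ^ 3 * (T ^ 6 * Z)) := by
  classical
  have hinj : Set.InjOn code2 (S : Set ((Fin 3 → ℕ) × (Fin 3 → ℕ))) := by
    rintro ⟨m, n⟩ hp ⟨m', n'⟩ hq h
    obtain ⟨⟨a1, a2, a4, a5, a6, a7, a8⟩, a9⟩ := hS _ (Finset.mem_coe.1 hp)
    obtain ⟨⟨b1, b2, b4, b5, b6, b7, b8⟩, b9⟩ := hS _ (Finset.mem_coe.1 hq)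
    obtain ⟨e1, e2⟩ := code_inj2 hs hs' a1 a2 b1 b2 a4 a5 b4 b5 a6 h
    exact Prod.ext e1 e2
  rw [← card_image_of_injOn hinj]
  have hsub : S.image code2 ⊆ ubox W ×ˢ (ubox W ×ˢ S.image (fun p => off p.1 p.2)) := by
    intro c hc
    obtain ⟨p, hp, rfl⟩ := mem_image.1 hc
    obtain ⟨⟨a1, a2, a4, a5, a6, a7, a8⟩, a9⟩ := hS _ hp
    rw [mem_product, mem_product]
    exact ⟨cf_mem_ubox a1 a2 a7, cf_mem_ubox a2 a1 a8, mem_image_of_mem _ hp⟩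
  refine (card_le_card hsub).trans ?_
  rw [card_product, card_product, ubox_card]
  refine Nat.mul_le_mul_left _ (Nat.mul_le_mul_left _ ?_)
  apply tup_card Z T
  · intro f hf
    obtain ⟨p, hp, rfl⟩ := mem_image.1 hf
    exact ⟨off_pos _ _, (hS p hp).2⟩
  · exact hT

theorem rel_eq2 {m n : Fin 3 → ℕ} (hn : PC n) (h : AbcD.Rel sg m) :
    ((cf m n 0 * gg m n 0 1 * gg m n 0 2 : ℕ) : ℤ) * (gg m n 0 0 : ℕ) +
      ((cf m n 1 * gg m n 1 0 * gg m n 1 2 : ℕ) : ℤ) * (gg m n 1 1 : ℕ) =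
      ((cf m n 2 * gg m n 2 0 * gg m n 2 1 : ℕ) : ℤ) * (gg m n 2 2 : ℕ) := by
  unfold AbcD.Rel sg at h
  have e0 := row2 (m := m) hn 0
  have e1 := row2 (m := m) hn 1
  have e2 := row2 (m := m) hn 2
  have h' : (m 0 : ℤ) + m 1 = m 2 := by
    simp at h
    linarith
  have f0 : (m 0 : ℤ) = (cf m n 0 * (gg m n 0 0 * gg m n 0 1 * gg m n 0 2) : ℕ) := by
    exact_mod_cast e0
  have f1 : (m 1 : ℤ) = (cf m n 1 * (gg m n 1 0 * gg m n 1 1 * gg m n 1 2) : ℕ) := by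
    exact_mod_cast e1
  have f2 : (m 2 : ℤ) = (cf m n 2 * (gg m n 2 0 * gg m n 2 1 * gg m n 2 2) : ℕ) := by
    exact_mod_cast e2
  rw [f0, f1, f2] at h'
  push_cast at h' ⊢
  linear_combination h'

theorem rel_eq2' {m n : Fin 3 → ℕ} (hm : PC m) (h : AbcD.Rel sg n) :
    ((cf n m 0 * gg m n 1 0 * gg m n 2 0 : ℕ) : ℤ) * (gg m n 0 0 : ℕ) +
      ((cf n m 1 * gg m n 0 1 * gg m n 2 1 : ℕ) : ℤ) * (gg m n 1 1 : ℕ) =
      ((cf n m 2 * gg m n 0 2 * gg m n 1 2 : ℕ) : ℤ) * (gg m n 2 2 : ℕ) := by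
  have := rel_eq2 hm h
  simp only [gg_symm n m] at this
  exact this

/-- The common divisor `D`. -/
theorem exists_D2' {m n : Fin 3 → ℕ} (hm : PC m) (hn : PC n)
    (h1 : AbcD.Rel sg m) (h2 : AbcD.Rel sg n) : ∃ D : ℤ,
      D * (gg m n 1 1 : ℕ) = ((cf m n 0 * cf n m 2 * gg m n 0 1 * gg m n 0 2 ^ 2 : ℕ) : ℤ) *
        (gg m n 1 2 : ℕ) - ((cf n m 0 * cf m n 2 * gg m n 1 0 * gg m n 2 0 ^ 2 : ℕ) : ℤ) *
        (gg m n 2 1 : ℕ) ∧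
      D * (gg m n 2 2 : ℕ) = ((cf m n 0 * cf n m 1 * gg m n 0 1 ^ 2 * gg m n 0 2 : ℕ) : ℤ) *
        (gg m n 2 1 : ℕ) - ((cf n m 0 * cf m n 1 * gg m n 1 0 ^ 2 * gg m n 2 0 : ℕ) : ℤ) *
        (gg m n 1 2 : ℕ) := by
  have hy : ((gg m n 1 1 : ℕ) : ℤ) ≠ 0 := by exact_mod_cast (gg_pos m n 1 1).ne'
  have hyz : IsCoprime ((gg m n 1 1 : ℕ) : ℤ) ((gg m n 2 2 : ℕ) : ℤ) :=
    Nat.isCoprime_iff_coprime.2 (gg_coprime hm hn (Or.inl (by decide)))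
  obtain ⟨D, hD1, hD2⟩ := exists_D hy hyz (rel_eq2 hn h1) (rel_eq2' hm h2)
  refine ⟨D, ?_, ?_⟩
  · rw [hD1]
    push_cast
    ring
  · rw [hD2]
    push_cast
    ring

/-- `D` divides `Del`. -/
theorem D_dvd2 {m n : Fin 3 → ℕ} (hm : PC m) (hn : PC n) {D : ℤ}
    (h1 : D * (gg m n 1 1 : ℕ) = ((cf m n 0 * cf n m 2 * gg m n 0 1 * gg m n 0 2 ^ 2 : ℕ) : ℤ) *
        (gg m n 1 2 : ℕ) - ((cf n m 0 * cf m n 2 * gg m n 1 0 * gg m n 2 0 ^ 2 : ℕ) : ℤ) *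
        (gg m n 2 1 : ℕ))
    (h2 : D * (gg m n 2 2 : ℕ) = ((cf m n 0 * cf n m 1 * gg m n 0 1 ^ 2 * gg m n 0 2 : ℕ) : ℤ) *
        (gg m n 2 1 : ℕ) - ((cf n m 0 * cf m n 1 * gg m n 1 0 ^ 2 * gg m n 2 0 : ℕ) : ℤ) *
        (gg m n 1 2 : ℕ)) : D ∣ Del (cf m n) (cf n m) (five m n) := by
  have e : Del (cf m n) (cf n m) (five m n) =
      ((cf m n 0 * cf n m 2 * gg m n 0 1 * gg m n 0 2 ^ 2 : ℕ) : ℤ) *
        ((cf m n 0 * cf n m 1 * gg m n 0 1 ^ 2 * gg m n 0 2 : ℕ) : ℤ) -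
      ((cf n m 0 * cf m n 2 * gg m n 1 0 * gg m n 2 0 ^ 2 : ℕ) : ℤ) *
        ((cf n m 0 * cf m n 1 * gg m n 1 0 ^ 2 * gg m n 2 0 : ℕ) : ℤ) := by
    unfold Del five
    simp only [Matrix.cons_val_zero, Matrix.cons_val_one, Matrix.cons_val]
    push_cast
    ring
  obtain ⟨α, hα⟩ : ∃ α : ℤ, α = ((cf m n 0 * cf n m 2 * gg m n 0 1 * gg m n 0 2 ^ 2 : ℕ) : ℤ) :=
    ⟨_, rfl⟩
  obtain ⟨β, hβ⟩ : ∃ β : ℤ, β = ((cf n m 0 * cf m n 2 * gg m n 1 0 * gg m n 2 0 ^ 2 : ℕ) : ℤ) :=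
    ⟨_, rfl⟩
  obtain ⟨γ, hγ⟩ : ∃ γ : ℤ, γ = ((cf m n 0 * cf n m 1 * gg m n 0 1 ^ 2 * gg m n 0 2 : ℕ) : ℤ) :=
    ⟨_, rfl⟩
  obtain ⟨ε, hε⟩ : ∃ ε : ℤ, ε = ((cf n m 0 * cf m n 1 * gg m n 1 0 ^ 2 * gg m n 2 0 : ℕ) : ℤ) :=
    ⟨_, rfl⟩
  rw [← hα, ← hβ] at h1
  rw [← hγ, ← hε] at h2
  rw [e, ← hα, ← hβ, ← hγ, ← hε]
  have hc : IsCoprime ((gg m n 1 2 : ℕ) : ℤ) ((gg m n 2 1 : ℕ) : ℤ) :=
    Nat.isCoprime_iff_coprime.2 (gg_coprime hm hn (Or.inl (by decide)))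
  have d1 : D ∣ (α * γ - β * ε) * (gg m n 1 2 : ℕ) :=
    ⟨γ * (gg m n 1 1 : ℕ) + β * (gg m n 2 2 : ℕ), by linear_combination -γ * h1 - β * h2⟩
  have d2 : D ∣ (α * γ - β * ε) * (gg m n 2 1 : ℕ) :=
    ⟨α * (gg m n 2 2 : ℕ) + ε * (gg m n 1 1 : ℕ), by linear_combination -α * h2 - ε * h1⟩
  obtain ⟨a, b, hab⟩ := hc
  have e2 : α * γ - β * ε = a * ((α * γ - β * ε) * (gg m n 1 2 : ℕ)) +
      b * ((α * γ - β * ε) * (gg m n 2 1 : ℕ)) := by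
    linear_combination -(α * γ - β * ε) * hab
  rw [e2]
  exact dvd_add (d1.mul_left _) (d2.mul_left _)

theorem Del_ne2 {m n : Fin 3 → ℕ} (hm : PC m) (hn : PC n) {W H : ℕ}
    (hu : ∀ i, cf m n i ≤ W) (hv : ∀ i, cf n m i ≤ W) (hH6 : W ^ 4 < H ^ 6)
    (hg : ∀ i j, H ≤ gg m n i j) : Del (cf m n) (cf n m) (five m n) ≠ 0 := by
  intro h
  have e : (cf m n 0 ^ 2 * cf n m 1 * cf n m 2) * (gg m n 0 1 * gg m n 0 2) ^ 3 =
      (cf n m 0 ^ 2 * cf m n 1 * cf m n 2) * (gg m n 1 0 * gg m n 2 0) ^ 3 := by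
    unfold Del five at h
    simp only [Matrix.cons_val_zero, Matrix.cons_val_one, Matrix.cons_val] at h
    have h' : (((cf m n 0 ^ 2 * cf n m 1 * cf n m 2) * (gg m n 0 1 * gg m n 0 2) ^ 3 : ℕ) : ℤ) =
      (((cf n m 0 ^ 2 * cf m n 1 * cf m n 2) * (gg m n 1 0 * gg m n 2 0) ^ 3 : ℕ) : ℤ) := by
      push_cast
      linear_combination h
    exact_mod_cast h'
  have hc : Nat.Coprime ((gg m n 0 1 * gg m n 0 2) ^ 3) ((gg m n 1 0 * gg m n 2 0) ^ 3) := by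
    apply Nat.Coprime.pow
    apply Nat.Coprime.mul_left
    · exact Nat.Coprime.mul_right (gg_coprime hm hn (Or.inl (by decide)))
        (gg_coprime hm hn (Or.inl (by decide)))
    · exact Nat.Coprime.mul_right (gg_coprime hm hn (Or.inl (by decide)))
        (gg_coprime hm hn (Or.inl (by decide)))
  have h1 : (gg m n 0 1 * gg m n 0 2) ^ 3 ∣ cf n m 0 ^ 2 * cf m n 1 * cf m n 2 := by
    apply hc.dvd_of_dvd_mul_right
    rw [← e]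
    exact Dvd.intro_left _ rfl
  have h2 : 0 < cf n m 0 ^ 2 * cf m n 1 * cf m n 2 := by
    have a1 := cf_pos hn hm 0
    have a2 := cf_pos hm hn 1
    have a3 := cf_pos hm hn 2
    positivity
  have h3 : (gg m n 0 1 * gg m n 0 2) ^ 3 ≤ cf n m 0 ^ 2 * cf m n 1 * cf m n 2 := Nat.le_of_dvd h2 h1
  have h4 : cf n m 0 ^ 2 * cf m n 1 * cf m n 2 ≤ W ^ 4 := by
    calc cf n m 0 ^ 2 * cf m n 1 * cf m n 2 ≤ W ^ 2 * W * W :=
          Nat.mul_le_mul (Nat.mul_le_mul (Nat.pow_le_pow_left (hv 0) 2) (hu 1)) (hu 2)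
      _ = W ^ 4 := by ring
  have h5 : H ^ 6 ≤ (gg m n 0 1 * gg m n 0 2) ^ 3 := by
    calc H ^ 6 = (H * H) ^ 3 := by ring
      _ ≤ (gg m n 0 1 * gg m n 0 2) ^ 3 :=
          Nat.pow_le_pow_left (Nat.mul_le_mul (hg 0 1) (hg 0 2)) 3
  omega

/-- Common divisors of `β` and `D` are small. -/
theorem common_le2 {m n : Fin 3 → ℕ} (hm : PC m) (hn : PC n) {W : ℕ}
    (hu : ∀ i, cf m n i ≤ W) (hv : ∀ i, cf n m i ≤ W) {D : ℤ}
    (h1 : D * (gg m n 1 1 : ℕ) = ((cf m n 0 * cf n m 2 * gg m n 0 1 * gg m n 0 2 ^ 2 : ℕ) : ℤ) *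
        (gg m n 1 2 : ℕ) - ((cf n m 0 * cf m n 2 * gg m n 1 0 * gg m n 2 0 ^ 2 : ℕ) : ℤ) *
        (gg m n 2 1 : ℕ)) {k : ℤ}
    (hk1 : k ∣ ((cf n m 0 * cf m n 2 * gg m n 1 0 * gg m n 2 0 ^ 2 : ℕ) : ℤ)) (hk2 : k ∣ D) :
    k ≤ (W ^ 4 : ℕ) := by
  have d1 : k ∣ ((cf m n 0 * cf n m 2 * gg m n 0 1 * gg m n 0 2 ^ 2 : ℕ) : ℤ) * (gg m n 1 2 : ℕ) := by
    have : ((cf m n 0 * cf n m 2 * gg m n 0 1 * gg m n 0 2 ^ 2 : ℕ) : ℤ) * (gg m n 1 2 : ℕ) =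
        D * (gg m n 1 1 : ℕ) + ((cf n m 0 * cf m n 2 * gg m n 1 0 * gg m n 2 0 ^ 2 : ℕ) : ℤ) *
        (gg m n 2 1 : ℕ) := by linear_combination -h1
    rw [this]
    exact dvd_add (hk2.mul_right _) (hk1.mul_right _)
  have e1 : k.natAbs ∣ (cf n m 0 * cf m n 2) * (gg m n 1 0 * gg m n 2 0 ^ 2) := by
    have := Int.natAbs_dvd_natAbs.2 hk1
    rw [Int.natAbs_natCast] at this
    rwa [← mul_assoc]
  have e2 : k.natAbs ∣ (cf m n 0 * cf n m 2) * (gg m n 0 1 * gg m n 0 2 ^ 2 * gg m n 1 2) := by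
    have := Int.natAbs_dvd_natAbs.2 d1
    rw [Int.natAbs_mul, Int.natAbs_natCast, Int.natAbs_natCast] at this
    have e : (cf m n 0 * cf n m 2) * (gg m n 0 1 * gg m n 0 2 ^ 2 * gg m n 1 2) =
      cf m n 0 * cf n m 2 * gg m n 0 1 * gg m n 0 2 ^ 2 * gg m n 1 2 := by ring
    rwa [e]
  have hc : Nat.Coprime (gg m n 1 0 * gg m n 2 0 ^ 2)
      (gg m n 0 1 * gg m n 0 2 ^ 2 * gg m n 1 2) := by
    have a1 : ∀ {i j k l : Fin 3}, i ≠ k ∨ j ≠ l → (gg m n i j).Coprime (gg m n k l) :=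
      fun h => gg_coprime hm hn h
    apply Nat.Coprime.mul_left
    · apply Nat.Coprime.mul_right
      · apply Nat.Coprime.mul_right
        · exact a1 (by decide)
        · exact Nat.Coprime.pow_right 2 (a1 (by decide))
      · exact a1 (by decide)
    · apply Nat.Coprime.pow_left
      apply Nat.Coprime.mul_right
      · apply Nat.Coprime.mul_right
        · exact a1 (by decide)
        · exact Nat.Coprime.pow_right 2 (a1 (by decide))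
      · exact a1 (by decide)
  have h3 : k.natAbs ∣ (cf n m 0 * cf m n 2) * (cf m n 0 * cf n m 2) := dvd_of_coprime e1 e2 hc
  have p1 := cf_pos hn hm 0
  have p2 := cf_pos hm hn 2
  have p3 := cf_pos hm hn 0
  have p4 := cf_pos hn hm 2
  have h4 : k.natAbs ≤ (cf n m 0 * cf m n 2) * (cf m n 0 * cf n m 2) :=
    Nat.le_of_dvd (by positivity) h3
  have h5 : (cf n m 0 * cf m n 2) * (cf m n 0 * cf n m 2) ≤ W ^ 4 := by
    calc (cf n m 0 * cf m n 2) * (cf m n 0 * cf n m 2) ≤ (W * W) * (W * W) :=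
          Nat.mul_le_mul (Nat.mul_le_mul (hv 0) (hu 2)) (Nat.mul_le_mul (hu 0) (hv 2))
      _ = W ^ 4 := by ring
  have h6 : k ≤ (k.natAbs : ℤ) := Int.le_natAbs
  exact h6.trans (by exact_mod_cast h4.trans h5)

/-- The data determine the pair. -/
theorem caseB_inj2 {m n m' n' : Fin 3 → ℕ} {W G H : ℕ} (hGH : G * W ^ 4 < H ^ 3)
    (h : Pair2 sg sg W (m, n)) (h' : Pair2 sg sg W (m', n'))
    (hg : ∀ i j, H ≤ gg m n i j ∧ gg m n i j ≤ G)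
    (hg' : ∀ i j, H ≤ gg m' n' i j ∧ gg m' n' i j ≤ G) {D : ℤ} (hD : D ≠ 0)
    (h1 : D * (gg m n 1 1 : ℕ) = ((cf m n 0 * cf n m 2 * gg m n 0 1 * gg m n 0 2 ^ 2 : ℕ) : ℤ) *
        (gg m n 1 2 : ℕ) - ((cf n m 0 * cf m n 2 * gg m n 1 0 * gg m n 2 0 ^ 2 : ℕ) : ℤ) *
        (gg m n 2 1 : ℕ))
    (h1' : D * (gg m' n' 1 1 : ℕ) =
      ((cf m' n' 0 * cf n' m' 2 * gg m' n' 0 1 * gg m' n' 0 2 ^ 2 : ℕ) : ℤ) *
        (gg m' n' 1 2 : ℕ) - ((cf n' m' 0 * cf m' n' 2 * gg m' n' 1 0 * gg m' n' 2 0 ^ 2 : ℕ) : ℤ) *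
        (gg m' n' 2 1 : ℕ))
    (e1 : cf m n = cf m' n') (e2 : cf n m = cf n' m') (e3 : five m n = five m' n') : m = m' ∧ n = n' := by
  obtain ⟨a1, a2, a4, a5, a6, a7, a8⟩ := h
  obtain ⟨b1, b2, b4, b5, b6, b7, b8⟩ := h'
  simp only at a1 a2 a4 a5 a6 a7 a8 b1 b2 b4 b5 b6 b7 b8
  have f0 : gg m n 0 1 = gg m' n' 0 1 := congrFun e3 0
  have f1 : gg m n 0 2 = gg m' n' 0 2 := congrFun e3 1
  have f2 : gg m n 1 0 = gg m' n' 1 0 := congrFun e3 2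
  have f3 : gg m n 2 0 = gg m' n' 2 0 := congrFun e3 3
  have f4 : gg m n 1 2 = gg m' n' 1 2 := congrFun e3 4
  have hβ : (0 : ℤ) < ((cf n m 0 * cf m n 2 * gg m n 1 0 * gg m n 2 0 ^ 2 : ℕ) : ℤ) := by
    have p1 := cf_pos a2 a1 0
    have p2 := cf_pos a1 a2 2
    have p3 := gg_pos m n 1 0
    have p4 := gg_pos m n 2 0
    exact_mod_cast (by positivity)
  have hGβ : (G : ℤ) * (W ^ 4 : ℕ) < ((cf n m 0 * cf m n 2 * gg m n 1 0 * gg m n 2 0 ^ 2 : ℕ) : ℤ) := by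
    have h5 : H ^ 3 ≤ cf n m 0 * cf m n 2 * gg m n 1 0 * gg m n 2 0 ^ 2 := by
      calc H ^ 3 = 1 * 1 * H * H ^ 2 := by ring
        _ ≤ cf n m 0 * cf m n 2 * gg m n 1 0 * gg m n 2 0 ^ 2 :=
          Nat.mul_le_mul (Nat.mul_le_mul (Nat.mul_le_mul (cf_pos a2 a1 0) (cf_pos a1 a2 2))
            (hg 1 0).1) (Nat.pow_le_pow_left (hg 2 0).1 2)
    exact_mod_cast hGH.trans_le h5
  have h2' : D * (gg m' n' 1 1 : ℕ) = ((cf m n 0 * cf n m 2 * gg m n 0 1 * gg m n 0 2 ^ 2 : ℕ) : ℤ) *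
        (gg m n 1 2 : ℕ) - ((cf n m 0 * cf m n 2 * gg m n 1 0 * gg m n 2 0 ^ 2 : ℕ) : ℤ) *
        (gg m' n' 2 1 : ℕ) := by
    rw [h1', e1, e2, f0, f1, f2, f3, f4]
  have key := uniq_g (g := (gg m n 2 1 : ℕ)) (g' := (gg m' n' 2 1 : ℕ)) (G := G) (h := W ^ 4)
    hD hβ h1 h2'
    ⟨by exact_mod_cast gg_pos m n 1 1, by exact_mod_cast (hg 1 1).2⟩
    ⟨by exact_mod_cast gg_pos m' n' 1 1, by exact_mod_cast (hg' 1 1).2⟩
    (fun k hk1 hk2 => common_le2 a1 a2 a7 a8 h1 hk1 hk2) hGβ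
  have f5 : gg m n 2 1 = gg m' n' 2 1 := by exact_mod_cast key
  have hs : ∀ i, (sg i).natAbs = 1 := by decide
  apply code_inj2 hs hs a1 a2 b1 b2 a4 a5 b4 b5 a6
  unfold code2 off
  simp only [Prod.mk.injEq]
  exact ⟨e1, e2, by rw [f0, f1, f2, f3, f4, f5]⟩

theorem caseB2 (W G H T : ℕ) (hH6 : W ^ 4 < H ^ 6) (hGH : G * W ^ 4 < H ^ 3)
    (hT : ∀ n, 1 ≤ n → n ≤ W ^ 4 * G ^ 6 → n.divisors.card ≤ T)
    (S : Finset ((Fin 3 → ℕ) × (Fin 3 → ℕ)))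
    (hS : ∀ p ∈ S, Pair2 sg sg W p ∧ ∀ i j, H ≤ gg p.1 p.2 i j ∧ gg p.1 p.2 i j ≤ G) :
    S.card ≤ 2 * T * (W ^ 3 * (W ^ 3 * G ^ 5)) := by
  classical
  obtain ⟨φ, hφ⟩ : ∃ φ : (Fin 3 → ℕ) × (Fin 3 → ℕ) → (Fin 3 → ℕ) × (Fin 3 → ℕ) × (Fin 5 → ℕ),
      φ = fun p => (cf p.1 p.2, cf p.2 p.1, five p.1 p.2) := ⟨_, rfl⟩
  have h1 : S.card ≤ 2 * T * (S.image φ).card := by
    apply Finset.card_le_mul_card_image
    intro c hc
    obtain ⟨p0, hp0, hc0⟩ := mem_image.1 hc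
    -- choose `D` for each pair
    have hD : ∀ p : (Fin 3 → ℕ) × (Fin 3 → ℕ), ∃ D : ℤ, p ∈ S →
        D * (gg p.1 p.2 1 1 : ℕ) = ((cf p.1 p.2 0 * cf p.2 p.1 2 * gg p.1 p.2 0 1 *
          gg p.1 p.2 0 2 ^ 2 : ℕ) : ℤ) * (gg p.1 p.2 1 2 : ℕ) - ((cf p.2 p.1 0 * cf p.1 p.2 2 *
          gg p.1 p.2 1 0 * gg p.1 p.2 2 0 ^ 2 : ℕ) : ℤ) * (gg p.1 p.2 2 1 : ℕ) ∧
        D ∣ Del (cf p.1 p.2) (cf p.2 p.1) (five p.1 p.2) := by
      intro p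
      by_cases hp : p ∈ S
      · obtain ⟨⟨a1, a2, a4, a5, a6, a7, a8⟩, a9⟩ := hS p hp
        obtain ⟨D, hD1, hD2⟩ := exists_D2' a1 a2 a4 a5
        exact ⟨D, fun _ => ⟨hD1, D_dvd2 a1 a2 hD1 hD2⟩⟩
      · exact ⟨0, fun h => absurd h hp⟩
    choose D hD using hD
    have hne : ∀ p ∈ S, Del (cf p.1 p.2) (cf p.2 p.1) (five p.1 p.2) ≠ 0 := by
      intro p hp
      obtain ⟨⟨a1, a2, a4, a5, a6, a7, a8⟩, a9⟩ := hS p hp
      exact Del_ne2 a1 a2 a7 a8 hH6 (fun i j => (a9 i j).1)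
    have hfib : ∀ p ∈ S.filter (fun p => φ p = c), p ∈ S ∧ cf p.1 p.2 = cf p0.1 p0.2 ∧
        cf p.2 p.1 = cf p0.2 p0.1 ∧ five p.1 p.2 = five p0.1 p0.2 := by
      intro p hp
      rw [mem_filter, ← hc0, hφ] at hp
      simp only [Prod.mk.injEq] at hp
      exact hp
    obtain ⟨E, hE⟩ : ∃ E : ℤ, E = Del (cf p0.1 p0.2) (cf p0.2 p0.1) (five p0.1 p0.2) := ⟨_, rfl⟩
    have hE0 : E ≠ 0 := by rw [hE]; exact hne p0 hp0
    have hmap : ∀ p ∈ S.filter (fun p => φ p = c), D p ∈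
        (E.natAbs.divisors.image (fun d : ℕ => (d : ℤ))) ∪
          (E.natAbs.divisors.image (fun d : ℕ => -(d : ℤ))) := by
      intro p hp
      obtain ⟨g1, g2, g3, g4⟩ := hfib p hp
      have h3 := (hD p g1).2
      rw [g2, g3, g4, ← hE] at h3
      have h4 : (D p).natAbs ∈ E.natAbs.divisors := by
        rw [Nat.mem_divisors]
        exact ⟨Int.natAbs_dvd_natAbs.2 h3, by simpa using hE0⟩
      rw [mem_union, mem_image, mem_image]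
      rcases le_total 0 (D p) with h5 | h5
      · exact Or.inl ⟨_, h4, Int.natAbs_of_nonneg h5⟩
      · refine Or.inr ⟨_, h4, ?_⟩
        rw [Int.ofNat_natAbs_of_nonpos h5]
        ring
    have hinj : Set.InjOn D (S.filter (fun p => φ p = c) : Finset _) := by
      intro p hp q hq hpq
      rw [Finset.mem_coe] at hp hq
      obtain ⟨g1, g2, g3, g4⟩ := hfib p hp
      obtain ⟨k1, k2, k3, k4⟩ := hfib q hq
      have h3 := (hD p g1).1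
      have h3' := (hD q k1).1
      rw [← hpq] at h3'
      have h0 : D p ≠ 0 := by
        intro h0
        have := (hD p g1).2
        rw [h0, zero_dvd_iff] at this
        exact hne p g1 this
      obtain ⟨e1, e2⟩ := caseB_inj2 hGH (hS p g1).1 (hS q k1).1 (hS p g1).2 (hS q k1).2 h0 h3 h3'
        (g2.trans k2.symm) (g3.trans k3.symm) (g4.trans k4.symm)
      exact Prod.ext e1 e2
    have h5 : E.natAbs.divisors.card ≤ T := by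
      apply hT
      · exact Nat.pos_of_ne_zero (by simpa using hE0)
      · rw [hE]
        obtain ⟨⟨a1, a2, a4, a5, a6, a7, a8⟩, a9⟩ := hS p0 hp0
        apply Del_le a7 a8
        intro i
        unfold five
        fin_cases i <;> exact (a9 _ _).2
    calc (S.filter (fun p => φ p = c)).card ≤ _ := card_le_card_of_injOn D hmap hinj
      _ ≤ E.natAbs.divisors.card + E.natAbs.divisors.card := by
          refine (card_union_le _ _).trans ?_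
          exact Nat.add_le_add card_image_le card_image_le
      _ ≤ 2 * T := by omega
  refine h1.trans (Nat.mul_le_mul_left _ ?_)
  have hsub : S.image φ ⊆ ubox W ×ˢ (ubox W ×ˢ Fintype.piFinset (fun _ : Fin 5 => Icc 1 G)) := by
    intro c hc
    obtain ⟨p, hp, rfl⟩ := mem_image.1 hc
    obtain ⟨⟨a1, a2, a4, a5, a6, a7, a8⟩, a9⟩ := hS _ hp
    rw [hφ, mem_product, mem_product]
    refine ⟨cf_mem_ubox a1 a2 a7, cf_mem_ubox a2 a1 a8, ?_⟩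
    rw [Fintype.mem_piFinset]
    intro i
    rw [mem_Icc]
    show 1 ≤ five p.1 p.2 i ∧ five p.1 p.2 i ≤ G
    unfold five
    fin_cases i <;> exact ⟨gg_pos _ _ _ _, (a9 _ _).2⟩
  refine (card_le_card hsub).trans ?_
  rw [card_product, card_product, ubox_card, Fintype.card_piFinset]
  simp

end Pool.Agent.Lib.AbcE
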