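import Mathlib
import Pool.Agent.Lib.AbcX.Slopes
import Pool.Agent.Lib.AbcD.Bad

/-!
# Triples in a box whose product is divisible by a given number
-/

set_option autoImplicit false

open Finset Filter

namespace Pool.Agent.Lib.AbcE

open Pool.Agent.Lib.AbcG Pool.Agent.Lib.AbcD

theorem det_ge {q1 q2 q3 : ℕ} {t t' : ℕ × ℕ} (i3 : t.1.Coprime t.2)
    (j1 : 0 < t'.1) (j3 : t'.1.Coprime t'.2) (hne : t ≠ t')
    (d1 : q1 ∣ t.1) (d1' : q1 ∣ t'.1) (d2 : q2 ∣ t.2) (d2' : q2 ∣ t'.2)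
    (d3 : q3 ∣ t.1 + t.2) (d3' : q3 ∣ t'.1 + t'.2) :
    ((q1 * q2 * q3 : ℕ) : ℝ) ≤ |(t.1 : ℝ) * t'.2 - (t'.1 : ℝ) * t.2| := by
  have c12 : Nat.Coprime q1 q2 :=
    Nat.Coprime.coprime_dvd_left d1 (Nat.Coprime.coprime_dvd_right d2 i3)
  have c13 : Nat.Coprime q1 q3 := by
    refine Nat.Coprime.coprime_dvd_left d1 (Nat.Coprime.coprime_dvd_right d3 ?_)
    exact (Nat.coprime_self_add_right).mpr i3
  have c23 : Nat.Coprime q2 q3 := by
    refine Nat.Coprime.coprime_dvd_left d2 (Nat.Coprime.coprime_dvd_right d3 ?_)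
    exact (Nat.coprime_add_self_right).mpr i3.symm
  obtain ⟨z, hz⟩ : ∃ z : ℤ, z = (t.1 : ℤ) * t'.2 - (t'.1 : ℤ) * t.2 := ⟨_, rfl⟩
  have z1 : (q1 : ℤ) ∣ z := by
    rw [hz]
    apply dvd_sub
    · exact Dvd.dvd.mul_right (by exact_mod_cast d1) _
    · exact Dvd.dvd.mul_right (by exact_mod_cast d1') _
  have z2 : (q2 : ℤ) ∣ z := by
    rw [hz]
    apply dvd_sub
    · exact Dvd.dvd.mul_left (by exact_mod_cast d2') _
    · exact Dvd.dvd.mul_left (by exact_mod_cast d2) _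
  have z3 : (q3 : ℤ) ∣ z := by
    have e : z = (t.1 : ℤ) * ((t'.1 + t'.2 : ℕ) : ℤ) - (t'.1 : ℤ) * ((t.1 + t.2 : ℕ) : ℤ) := by
      rw [hz]
      push_cast
      ring
    rw [e]
    apply dvd_sub
    · exact Dvd.dvd.mul_left (by exact_mod_cast d3') _
    · exact Dvd.dvd.mul_left (by exact_mod_cast d3) _
  have hdv : q1 * q2 * q3 ∣ z.natAbs := by
    have n1 : q1 ∣ z.natAbs := Int.natCast_dvd.mp z1
    have n2 : q2 ∣ z.natAbs := Int.natCast_dvd.mp z2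
    have n3 : q3 ∣ z.natAbs := Int.natCast_dvd.mp z3
    exact Nat.Coprime.mul_dvd_of_dvd_of_dvd (Nat.Coprime.mul_left c13 c23)
      (Nat.Coprime.mul_dvd_of_dvd_of_dvd c12 n1 n2) n3
  have hz0 : z ≠ 0 := by
    intro h0
    apply hne
    have h1 : t.1 * t'.2 = t'.1 * t.2 := by
      have : (t.1 : ℤ) * t'.2 = (t'.1 : ℤ) * t.2 := by linarith
      exact_mod_cast this
    have h2 : t.1 ∣ t'.1 := by
      have : t.1 ∣ t'.1 * t.2 := ⟨t'.2, h1.symm⟩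
      exact Nat.Coprime.dvd_of_dvd_mul_right i3 this
    have h3 : t'.1 ∣ t.1 := by
      have : t'.1 ∣ t.1 * t'.2 := ⟨t.2, h1⟩
      exact Nat.Coprime.dvd_of_dvd_mul_right j3 this
    have h4 : t.1 = t'.1 := Nat.dvd_antisymm h2 h3
    rw [h4] at h1
    have h5 : t'.2 = t.2 := Nat.eq_of_mul_eq_mul_left j1 h1
    exact Prod.ext h4 h5.symm
  have hle : q1 * q2 * q3 ≤ z.natAbs := Nat.le_of_dvd (Int.natAbs_pos.mpr hz0) hdv
  have e : |(t.1 : ℝ) * t'.2 - (t'.1 : ℝ) * t.2| = (z.natAbs : ℝ) := by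
    rw [Nat.cast_natAbs, hz]
    push_cast
    rfl
  rw [e]
  exact_mod_cast hle

theorem gcd_three {d : ℕ} {t : ℕ × ℕ} (h3 : t.1.Coprime t.2) (hd : d ∣ Nn t) :
    d.gcd t.1 * d.gcd t.2 * d.gcd (t.1 + t.2) = d := by
  have c13 : Nat.Coprime t.1 (t.1 + t.2) := (Nat.coprime_self_add_right).mpr h3
  have c23 : Nat.Coprime t.2 (t.1 + t.2) := (Nat.coprime_add_self_right).mpr h3.symm
  rw [← Nat.Coprime.gcd_mul d h3, ← Nat.Coprime.gcd_mul d (Nat.Coprime.mul_left c13 c23)]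
  exact Nat.gcd_eq_left hd

theorem div_count (d Z : ℕ) (hd : 1 ≤ d) (S : Finset (ℕ × ℕ))
    (hS : ∀ t ∈ S, 0 < t.1 ∧ 0 < t.2 ∧ t.1.Coprime t.2 ∧ t.1 + t.2 ≤ Z ∧ d ∣ Nn t) :
    (S.card : ℝ) ≤ (d.divisors.card : ℝ) ^ 3 * (Nat.clog 2 Z + 1) * (1 + 4 * (Z : ℝ) ^ 2 / d) := by
  classical
  obtain ⟨φ, hφ⟩ : ∃ φ : ℕ × ℕ → (ℕ × ℕ × ℕ) × ℕ, φ = fun t =>
      ((d.gcd t.1, d.gcd t.2, d.gcd (t.1 + t.2)), Nat.clog 2 t.1) := ⟨_, rfl⟩
  obtain ⟨I, hI⟩ : ∃ I, I = (d.divisors ×ˢ (d.divisors ×ˢ d.divisors)) ×ˢ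
      range (Nat.clog 2 Z + 1) := ⟨_, rfl⟩
  have hmap : ∀ t ∈ S, φ t ∈ I := by
    intro t ht
    obtain ⟨a1, a2, a3, a4, a5⟩ := hS t ht
    have hg : ∀ m, d.gcd m ∈ d.divisors := fun m =>
      Nat.mem_divisors.2 ⟨Nat.gcd_dvd_left _ _, by omega⟩
    rw [hI, hφ, mem_product, mem_product, mem_product, mem_range, Nat.lt_succ_iff]
    exact ⟨⟨hg _, hg _, hg _⟩, Nat.clog_mono_right 2 (by omega)⟩
  have hfib : ∀ c ∈ I, (((S.filter (fun t => φ t = c)).card : ℕ) : ℝ) ≤ 1 + 4 * (Z : ℝ) ^ 2 / d := by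
    intro c hc
    rcases (S.filter (fun t => φ t = c)).eq_empty_or_nonempty with he | ⟨t0, ht0⟩
    · rw [he, card_empty, Nat.cast_zero]
      positivity
    have key : ∀ t ∈ S.filter (fun t => φ t = c), 0 < t.1 ∧ t.1.Coprime t.2 ∧
        t.1 + t.2 ≤ Z ∧ c.1.1 ∣ t.1 ∧ c.1.2.1 ∣ t.2 ∧ c.1.2.2 ∣ t.1 + t.2 ∧
        2 ^ c.2 < 2 * t.1 ∧ t.1 ≤ 2 ^ c.2 ∧ c.1.1 * c.1.2.1 * c.1.2.2 = d := by
      intro t ht
      rw [mem_filter] at ht
      obtain ⟨a1, a2, a3, a4, a5⟩ := hS t ht.1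
      rw [← ht.2, hφ]
      refine ⟨a1, a3, a4, Nat.gcd_dvd_right _ _, Nat.gcd_dvd_right _ _, Nat.gcd_dvd_right _ _,
        ?_, Nat.le_pow_clog (by norm_num) _, gcd_three a3 a5⟩
      show 2 ^ Nat.clog 2 t.1 < 2 * t.1
      rcases Nat.lt_or_ge 1 t.1 with h | h
      · have h1 := Nat.pow_pred_clog_lt_self (b := 2) (by norm_num) h
        have h2 : 0 < Nat.clog 2 t.1 := Nat.clog_pos (by norm_num) h
        have h3 : Nat.clog 2 t.1 = (Nat.clog 2 t.1).pred + 1 := by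
          rw [Nat.pred_eq_sub_one]
          omega
        rw [h3, pow_succ]
        omega
      · have h1 : t.1 = 1 := by omega
        rw [h1]
        simp
    obtain ⟨b1, b2, b3, b4, b5, b6, b7, b8, b9⟩ := key t0 ht0
    have h := Pool.Agent.Lib.AbcX.slopes_card (S.filter (fun t => φ t = c)) (2 ^ c.2) Z d hd
      (fun t ht => by
        obtain ⟨c1, c2, c3, c4, c5, c6, c7, c8, c9⟩ := key t ht
        exact ⟨c7, c8, by omega⟩)
      (fun t ht t' ht' hne => by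
        obtain ⟨c1, c2, c3, c4, c5, c6, c7, c8, c9⟩ := key t ht
        obtain ⟨e1, e2, e3, e4, e5, e6, e7, e8, e9⟩ := key t' ht'
        have := det_ge c2 e1 e2 hne c4 e4 c5 e5 c6 e6
        rw [c9] at this
        exact this)
    refine h.trans ?_
    have h2 : ((2 ^ c.2 : ℕ) : ℝ) ≤ 2 * Z := by
      have : 2 ^ c.2 ≤ 2 * Z := by omega
      exact_mod_cast this
    have h3 : 2 * ((2 ^ c.2 : ℕ) : ℝ) * Z ≤ 4 * (Z : ℝ) ^ 2 := by
      have : (0 : ℝ) ≤ Z := Nat.cast_nonneg _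
      nlinarith
    have h4 : 2 * ((2 ^ c.2 : ℕ) : ℝ) * Z / d ≤ 4 * (Z : ℝ) ^ 2 / d :=
      div_le_div_of_nonneg_right h3 (Nat.cast_nonneg _)
    linarith
  have hsum : (S.card : ℝ) = ∑ c ∈ I, (((S.filter (fun t => φ t = c)).card : ℕ) : ℝ) := by
    rw [← Nat.cast_sum]
    norm_cast
    exact Finset.card_eq_sum_card_fiberwise hmap
  rw [hsum]
  refine (sum_le_sum hfib).trans ?_
  rw [sum_const, nsmul_eq_mul]
  apply le_of_eq
  rw [hI, card_product, card_product, card_product, card_range]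
  push_cast
  ring

end Pool.Agent.Lib.AbcE
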