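import Mathlib
import Pool.Agent.Lib.AbcD.Bad

/-!
# Sums over all triples of powers of the radical
-/

set_option autoImplicit false

open Finset Filter

namespace Pool.Agent.Lib.AbcE

open Pool.Agent.Lib.AbcG Pool.Agent.Lib.AbcD

/-- The number of triples of radical at most `Y`. -/
theorem count_le : ∃ C : ℝ, 0 < C ∧ ∀ (Y : ℕ) (T : Finset (ℕ × ℕ)), 1 ≤ Y → (∀ t ∈ T, InF Y t) →
    (T.card : ℝ) ≤ C * (Y : ℝ) ^ (2 / 3 : ℝ) := by
  obtain ⟨κ, hκ, hev⟩ := asym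
  obtain ⟨Y0, hY0⟩ := eventually_atTop.1 hev
  obtain ⟨M, hM⟩ : ∃ M : ℝ, M = ((F_finite Y0).toFinset.card : ℝ) := ⟨_, rfl⟩
  have hM0 : 0 ≤ M := by rw [hM]; exact Nat.cast_nonneg _
  have hC : 0 < Cabc := Cabc_pos
  refine ⟨Cabc + 1 + M, by positivity, ?_⟩
  intro Y T hY hT
  have hy1 : (1 : ℝ) ≤ Y := by exact_mod_cast hY
  have hp : (1 : ℝ) ≤ (Y : ℝ) ^ (2 / 3 : ℝ) := Real.one_le_rpow hy1 (by norm_num)
  rcases Nat.le_total Y0 Y with h | h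
  · have h1 := hY0 Y h (F_finite Y).toFinset (fun t => by
      rw [Set.Finite.mem_toFinset]; rfl)
    have h2 : (T.card : ℝ) ≤ ((F_finite Y).toFinset.card : ℝ) := by
      have : T ⊆ (F_finite Y).toFinset := by
        intro t ht
        rw [Set.Finite.mem_toFinset]
        exact hT t ht
      exact_mod_cast card_le_card this
    have h3 := (abs_le.1 h1).2
    have h4 : (Y : ℝ) ^ (2 / 3 - κ) ≤ (Y : ℝ) ^ (2 / 3 : ℝ) :=
      Real.rpow_le_rpow_of_exponent_le hy1 (by linarith)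
    nlinarith
  · have h2 : (T.card : ℝ) ≤ M := by
      have : T ⊆ (F_finite Y0).toFinset := by
        intro t ht
        rw [Set.Finite.mem_toFinset]
        obtain ⟨a1, a2, a3, a4⟩ := hT t ht
        exact ⟨a1, a2, a3, a4.trans h⟩
      rw [hM]
      exact_mod_cast card_le_card this
    nlinarith

/-- The tail of the sum of `rad ^ (-s)`. -/
theorem tail_sum (s : ℝ) (hs : 2 / 3 < s) : ∃ B : ℝ, 0 < B ∧ ∀ (D : ℝ) (T : Finset (ℕ × ℕ)),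
    1 ≤ D → (∀ t ∈ T, 0 < t.1 ∧ 0 < t.2 ∧ t.1.Coprime t.2 ∧ D < rad (Nn t)) →
    ∑ t ∈ T, (rad (Nn t) : ℝ) ^ (-s) ≤ B * D ^ (2 / 3 - s) := by
  classical
  obtain ⟨C, hC, hcount⟩ := count_le
  obtain ⟨ρ, hρ⟩ : ∃ ρ : ℝ, ρ = (2 : ℝ) ^ (2 / 3 - s) := ⟨_, rfl⟩
  have hρ0 : 0 < ρ := by rw [hρ]; positivity
  have hρ1 : ρ < 1 := by
    rw [hρ]
    exact Real.rpow_lt_one_of_one_lt_of_neg (by norm_num) (by linarith)
  have h1ρ : 0 < 1 - ρ := by linarith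
  obtain ⟨A, hA⟩ : ∃ A : ℝ, A = (4 : ℝ) ^ (s - 2 / 3) := ⟨_, rfl⟩
  have hA0 : 0 < A := by rw [hA]; positivity
  refine ⟨C * (2 : ℝ) ^ (2 / 3 : ℝ) * (A / (1 - ρ)), by positivity, ?_⟩
  intro D T hD hT
  have hD0 : 0 < D := by linarith
  obtain ⟨k0, hk0⟩ : ∃ k0 : ℕ, k0 = Nat.log 2 ⌊D⌋₊ := ⟨_, rfl⟩
  obtain ⟨K, hK⟩ : ∃ K : ℕ, ∀ t ∈ T, Nat.log 2 (rad (Nn t)) < K :=
    ⟨T.sup (fun t => Nat.log 2 (rad (Nn t))) + 1, fun t ht =>
      Nat.lt_succ_of_le (Finset.le_sup (f := fun t => Nat.log 2 (rad (Nn t))) ht)⟩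
  have hfl : 1 ≤ ⌊D⌋₊ := Nat.le_floor (by exact_mod_cast hD)
  have hmap : ∀ t ∈ T, Nat.log 2 (rad (Nn t)) ∈ Ico k0 K := by
    intro t ht
    rw [mem_Ico]
    refine ⟨?_, hK t ht⟩
    rw [hk0]
    apply Nat.log_mono_right
    have h1 : (⌊D⌋₊ : ℝ) ≤ D := Nat.floor_le hD0.le
    have h2 : ((⌊D⌋₊ : ℕ) : ℝ) ≤ rad (Nn t) := h1.trans (hT t ht).2.2.2.le
    exact_mod_cast h2
  rw [← Finset.sum_fiberwise_of_maps_to hmap]
  have hfib : ∀ k ∈ Ico k0 K, ∑ t ∈ T with Nat.log 2 (rad (Nn t)) = k,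
      (rad (Nn t) : ℝ) ^ (-s) ≤ C * (2 : ℝ) ^ (2 / 3 : ℝ) * ρ ^ k := by
    intro k hk
    have h1 : ∀ t ∈ T.filter (fun t => Nat.log 2 (rad (Nn t)) = k),
        (rad (Nn t) : ℝ) ^ (-s) ≤ ((2 : ℝ) ^ k) ^ (-s) := by
      intro t ht
      rw [mem_filter] at ht
      apply Real.rpow_le_rpow_of_nonpos (by positivity) _ (by linarith)
      have h2 : 2 ^ k ≤ rad (Nn t) := by
        rw [← ht.2]
        exact Nat.pow_log_le_self 2 (rad_pos _).ne'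
      exact_mod_cast h2
    refine (sum_le_sum h1).trans ?_
    rw [sum_const, nsmul_eq_mul]
    have h2 := hcount (2 ^ (k + 1)) (T.filter (fun t => Nat.log 2 (rad (Nn t)) = k))
      (Nat.one_le_two_pow) (by
        intro t ht
        rw [mem_filter] at ht
        obtain ⟨a1, a2, a3, a4⟩ := hT t ht.1
        refine ⟨a1, a2, a3, ?_⟩
        have := Nat.lt_pow_succ_log_self (b := 2) (by norm_num) (rad (Nn t))
        rw [ht.2] at this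
        exact this.le)
    calc ((T.filter (fun t => Nat.log 2 (rad (Nn t)) = k)).card : ℝ) * ((2 : ℝ) ^ k) ^ (-s) ≤
          (C * ((2 ^ (k + 1) : ℕ) : ℝ) ^ (2 / 3 : ℝ)) * ((2 : ℝ) ^ k) ^ (-s) :=
          mul_le_mul_of_nonneg_right h2 (by positivity)
      _ = C * (2 : ℝ) ^ (2 / 3 : ℝ) * ρ ^ k := by
        rw [hρ]
        push_cast
        rw [pow_succ, Real.mul_rpow (by positivity) (by positivity), ← Real.rpow_natCast 2 k,
          ← Real.rpow_mul (by norm_num), ← Real.rpow_mul (by norm_num),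
          ← Real.rpow_natCast ((2 : ℝ) ^ (2 / 3 - s)) k, ← Real.rpow_mul (by norm_num)]
        have e : (2 / 3 - s) * (k : ℝ) = (k : ℝ) * (2 / 3) + (k : ℝ) * (-s) := by ring
        rw [e, Real.rpow_add (by norm_num)]
        ring
  refine (sum_le_sum hfib).trans ?_
  rw [← Finset.mul_sum]
  have h3 : ∑ k ∈ Ico k0 K, ρ ^ k ≤ ρ ^ k0 / (1 - ρ) := geom_sum_Ico_le_of_lt_one hρ0.le hρ1
  have h4 : ρ ^ k0 ≤ A * D ^ (2 / 3 - s) := by
    have h5 : D / 4 ≤ (2 : ℝ) ^ k0 := by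
      have h6 : ⌊D⌋₊ < 2 ^ (k0 + 1) := by
        rw [hk0]
        exact Nat.lt_pow_succ_log_self (by norm_num) _
      have h7 : ((⌊D⌋₊ : ℕ) : ℝ) < 2 ^ (k0 + 1) := by exact_mod_cast h6
      have h8 : D < (⌊D⌋₊ : ℝ) + 1 := Nat.lt_floor_add_one D
      have h9 : (1 : ℝ) ≤ (⌊D⌋₊ : ℝ) := by exact_mod_cast hfl
      rw [pow_succ] at h7
      linarith
    have h6 : ρ ^ k0 = ((2 : ℝ) ^ k0) ^ (2 / 3 - s) := by
      rw [hρ, ← Real.rpow_natCast, ← Real.rpow_mul (by norm_num), ← Real.rpow_natCast 2 k0,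
        ← Real.rpow_mul (by norm_num), mul_comm]
    rw [h6]
    refine (Real.rpow_le_rpow_of_nonpos (by positivity) h5 (by linarith)).trans (le_of_eq ?_)
    rw [Real.div_rpow hD0.le (by norm_num), hA]
    have e : s - 2 / 3 = -(2 / 3 - s) := by ring
    rw [e, Real.rpow_neg (by norm_num)]
    field_simp
  calc C * (2 : ℝ) ^ (2 / 3 : ℝ) * ∑ k ∈ Ico k0 K, ρ ^ k ≤
        C * (2 : ℝ) ^ (2 / 3 : ℝ) * (ρ ^ k0 / (1 - ρ)) :=
        mul_le_mul_of_nonneg_left h3 (by positivity)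
    _ ≤ C * (2 : ℝ) ^ (2 / 3 : ℝ) * ((A * D ^ (2 / 3 - s)) / (1 - ρ)) := by gcongr
    _ = _ := by ring

end Pool.Agent.Lib.AbcE
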