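import Mathlib
import Pool.Agent.Lib.AbcE.Case

/-!
# Pairs of abc-triples whose radicals have a large common divisor: the good pairs
-/

set_option autoImplicit false

open Finset Filter

namespace Pool.Agent.Lib.AbcE

open Pool.Agent.Lib.AbcG Pool.Agent.Lib.AbcD

/-- Two essentially different pairs whose radicals differ by factors at most `Y ^ δ`. -/
def Near (Y : ℕ) (δ : ℝ) (p : (ℕ × ℕ) × (ℕ × ℕ)) : Prop :=
  (rad (Nn p.1) : ℝ) ≤ (Y : ℝ) ^ δ * Nat.gcd (rad (Nn p.1)) (rad (Nn p.2)) ∧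
  (rad (Nn p.2) : ℝ) ≤ (Y : ℝ) ^ δ * Nat.gcd (rad (Nn p.1)) (rad (Nn p.2)) ∧
    p.2 ≠ p.1 ∧ p.2 ≠ p.1.swap

theorem GG_mem {t t' : ℕ × ℕ} (h : PC (mem t)) (h' : PC (mem t')) :
    GG (mem t) (mem t') = Nat.gcd (rad (Nn t)) (rad (Nn t')) := by
  rw [GG_eq h h', rr_mem h, rr_mem h']

/-- The common divisor is almost `Y`. -/
theorem Near.ge {Y : ℕ} (hY : 1 ≤ Y) {p : (ℕ × ℕ) × (ℕ × ℕ)} (h1 : Good Y p.1) (h2 : Good Y p.2)
    (h : Near Y (1 / 10000) p) : (Y : ℝ) ^ (1 - 2 / 10000 : ℝ) ≤ GG (mem p.1) (mem p.2) := by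
  have hy : (0 : ℝ) < Y := by exact_mod_cast hY
  rw [GG_mem h1.pc h2.pc]
  have h3 := h1.2.2.2.2.1.trans h.1
  have h4 : (Y : ℝ) ^ (1 - 1 / 10000 : ℝ) =
      (Y : ℝ) ^ (1 / 10000 : ℝ) * (Y : ℝ) ^ (1 - 2 / 10000 : ℝ) := by
    rw [← Real.rpow_add hy]
    congr 1
    norm_num
  rw [h4] at h3
  exact le_of_mul_le_mul_left h3 (by positivity)

theorem cf_bound {Y : ℕ} (hY : 1 ≤ Y) {m n : Fin 3 → ℕ} (hm : PC m) (hn : PC n)
    (hb : ∀ i, (m i : ℝ) ≤ (Y : ℝ) ^ (1 / 3 + 1 / 10000 : ℝ))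
    (hg : (Y : ℝ) ^ (1 - 2 / 10000 : ℝ) ≤ GG m n) (i : Fin 3) :
    (cf m n i : ℝ) ≤ (Y : ℝ) ^ (5 / 10000 : ℝ) := by
  have hy : (0 : ℝ) < Y := by exact_mod_cast hY
  have e := prod_cf (m := m) hn
  have e' : (cf m n 0 : ℝ) * cf m n 1 * cf m n 2 * GG m n = m 0 * m 1 * m 2 := by exact_mod_cast e
  have p0 : (1 : ℝ) ≤ cf m n 0 := by exact_mod_cast cf_pos hm hn 0
  have p1 : (1 : ℝ) ≤ cf m n 1 := by exact_mod_cast cf_pos hm hn 1
  have p2 : (1 : ℝ) ≤ cf m n 2 := by exact_mod_cast cf_pos hm hn 2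
  have b0 := hb 0
  have b1 := hb 1
  have b2 := hb 2
  have hb : (m 0 : ℝ) * m 1 * m 2 ≤ (Y : ℝ) ^ (1 + 3 / 10000 : ℝ) := by
    calc (m 0 : ℝ) * m 1 * m 2 ≤ (Y : ℝ) ^ (1 / 3 + 1 / 10000 : ℝ) *
          (Y : ℝ) ^ (1 / 3 + 1 / 10000 : ℝ) * (Y : ℝ) ^ (1 / 3 + 1 / 10000 : ℝ) := by gcongr
      _ = (Y : ℝ) ^ (1 + 3 / 10000 : ℝ) := by
        rw [← Real.rpow_add hy, ← Real.rpow_add hy]
        congr 1
        ring
  have hprod : (cf m n 0 : ℝ) * cf m n 1 * cf m n 2 ≤ (Y : ℝ) ^ (5 / 10000 : ℝ) := by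
    have h1 : (cf m n 0 : ℝ) * cf m n 1 * cf m n 2 * (Y : ℝ) ^ (1 - 2 / 10000 : ℝ) ≤
        (Y : ℝ) ^ (5 / 10000 : ℝ) * (Y : ℝ) ^ (1 - 2 / 10000 : ℝ) := by
      rw [← Real.rpow_add hy]
      calc (cf m n 0 : ℝ) * cf m n 1 * cf m n 2 * (Y : ℝ) ^ (1 - 2 / 10000 : ℝ) ≤
            (cf m n 0 : ℝ) * cf m n 1 * cf m n 2 * GG m n := by gcongr
        _ = m 0 * m 1 * m 2 := e'
        _ ≤ (Y : ℝ) ^ (1 + 3 / 10000 : ℝ) := hb
        _ = (Y : ℝ) ^ (5 / 10000 + (1 - 2 / 10000) : ℝ) := by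
          congr 1
          ring
    exact le_of_mul_le_mul_right h1 (by positivity)
  have q01 : (1 : ℝ) ≤ (cf m n 0 : ℝ) * cf m n 1 := by nlinarith
  fin_cases i
  · show (cf m n 0 : ℝ) ≤ _
    nlinarith
  · show (cf m n 1 : ℝ) ≤ _
    nlinarith
  · show (cf m n 2 : ℝ) ≤ _
    nlinarith

theorem off_prod2 (m n : Fin 3 → ℕ) :
    (∏ i, off m n i) * (gg m n 0 0 * gg m n 1 1 * gg m n 2 2) = GG m n := by
  rw [Fin.prod_univ_six]
  unfold off GG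
  simp only [Matrix.cons_val_zero, Matrix.cons_val_one, Matrix.cons_val]
  ring

theorem GG_perm {m n : Fin 3 → ℕ} (hm : PC m) (hn : PC n) (σ : Equiv.Perm (Fin 3)) :
    GG m (fun i => n (σ i)) = GG m n := by
  rw [GG_eq hm (PC_perm hn σ), GG_eq hm hn, rr_perm]

theorem GG_symm {m n : Fin 3 → ℕ} (hm : PC m) (hn : PC n) : GG n m = GG m n := by
  rw [GG_eq hm hn, GG_eq hn hm, Nat.gcd_comm]

theorem GG_le {m n : Fin 3 → ℕ} (hm : PC m) (hn : PC n) : GG m n ≤ rr m := by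
  rw [GG_eq hm hn]
  refine Nat.le_of_dvd ?_ (Nat.gcd_dvd_left _ _)
  unfold rr
  exact Nat.mul_pos (Nat.mul_pos (rad_pos _) (rad_pos _)) (rad_pos _)

/-- The entries from the row, column and permutation sums. -/
theorem entries2 {g : Fin 3 → Fin 3 → ℝ} {L : ℝ} (hL : 0 ≤ L)
    (hrow : ∀ i, g i 0 + g i 1 + g i 2 ≤ (1 / 3 + 1 / 10000) * L)
    (hcol : ∀ j, g 0 j + g 1 j + g 2 j ≤ (1 / 3 + 1 / 10000) * L)
    (htot : (1 - 2 / 10000) * L ≤ (g 0 0 + g 0 1 + g 0 2) + (g 1 0 + g 1 1 + g 1 2) +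
      (g 2 0 + g 2 1 + g 2 2))
    (hperm : ∀ σ : Equiv.Perm (Fin 3), g 0 (σ 0) + g 1 (σ 1) + g 2 (σ 2) ≤
      (1 / 3 + 1 / 100) * L) (i j : Fin 3) :
    97 / 1000 * L ≤ g i j ∧ g i j ≤ 59 / 500 * L := by
  have r0 := hrow 0
  have r1 := hrow 1
  have r2 := hrow 2
  have c0 := hcol 0
  have c1 := hcol 1
  have c2 := hcol 2
  have p1 : g 0 0 + g 1 1 + g 2 2 ≤ (1 / 3 + 1 / 100) * L := hperm 1
  have p2 : g 0 1 + g 1 0 + g 2 2 ≤ (1 / 3 + 1 / 100) * L := hperm (Equiv.swap 0 1)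
  have p3 : g 0 2 + g 1 1 + g 2 0 ≤ (1 / 3 + 1 / 100) * L := hperm (Equiv.swap 0 2)
  have p4 : g 0 0 + g 1 2 + g 2 1 ≤ (1 / 3 + 1 / 100) * L := hperm (Equiv.swap 1 2)
  have p5 : g 0 1 + g 1 2 + g 2 0 ≤ (1 / 3 + 1 / 100) * L := hperm (finRotate 3)
  have p6 : g 0 2 + g 1 0 + g 2 1 ≤ (1 / 3 + 1 / 100) * L := hperm (finRotate 3)⁻¹
  fin_cases i <;> fin_cases j <;> constructor <;> simp <;> linarith

theorem caseA_good2 {Y W Z T : ℕ} (hY : 1 ≤ Y) (hW : ∀ u : ℕ, (u : ℝ) ≤ (Y : ℝ) ^ (5 / 10000 : ℝ) → u ≤ W)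
    (hZ : ∀ u : ℕ, (u : ℝ) ≤ (Y : ℝ) ^ (2 / 3 - 1 / 100 : ℝ) → u ≤ Z)
    (hT : ∀ n, 1 ≤ n → n ≤ Z → n.divisors.card ≤ T) (σ : Equiv.Perm (Fin 3))
    (S : Finset ((ℕ × ℕ) × (ℕ × ℕ)))
    (hS : ∀ p ∈ S, Good Y p.1 ∧ Good Y p.2 ∧ Near Y (1 / 10000) p ∧
      (Y : ℝ) ^ (1 / 3 + 1 / 100 : ℝ) < dg σ p) : S.card ≤ W ^ 3 * (W ^ 3 * (T ^ 6 * Z)) := by
  classical
  have hy : (0 : ℝ) < Y := by exact_mod_cast hY
  obtain ⟨ψ, hψ⟩ : ∃ ψ : (ℕ × ℕ) × (ℕ × ℕ) → (Fin 3 → ℕ) × (Fin 3 → ℕ),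
      ψ = fun p => (mem p.1, fun i => mem p.2 (σ i)) := ⟨_, rfl⟩
  have hinj : Function.Injective ψ := by
    intro p q h
    rw [hψ] at h
    simp only [Prod.mk.injEq] at h
    obtain ⟨h1, h2⟩ := h
    apply Prod.ext (mem_inj h1)
    apply mem_inj
    funext i
    have := congrFun h2 (σ⁻¹ i)
    simpa using this
  rw [← card_image_of_injective S hinj]
  have hs : ∀ i, (sg i).natAbs = 1 := by decide
  apply caseA2 (s := sg) (s' := fun i => sg (σ i)) hs (fun i => hs (σ i)) W Z T _ _ hT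
  intro q hq
  obtain ⟨p, hp, rfl⟩ := mem_image.1 hq
  obtain ⟨g1, g2, g3, g6⟩ := hS p hp
  obtain ⟨-, -, g4, g5⟩ := g3
  have hge := (hS p hp).2.2.1.ge hY g1 g2
  have c1 := g1.pc
  have c2 := g2.pc
  have c3 : PC (fun i => mem p.2 (σ i)) := PC_perm c2 σ
  have hG1 : GG (mem p.1) (fun i => mem p.2 (σ i)) = GG (mem p.1) (mem p.2) := GG_perm c1 c2 σ
  rw [hψ]
  refine ⟨⟨c1, c3, mem_rel _, Rel_perm (mem_rel _) σ, ?_, ?_, ?_⟩, ?_⟩
  · intro h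
    rcases mem_degenerate g1.1 g1.2.1 g2.1 g2.2.1 h with h' | h'
    · exact g4 h'
    · exact g5 h'
  · intro i
    exact hW _ (cf_bound hY c1 c3 g1.mem_le (by rw [hG1]; exact hge) i)
  · intro i
    exact hW _ (cf_bound hY c3 c1 (fun i => g2.mem_le (σ i))
      (by rw [GG_symm c1 c3, hG1]; exact hge) i)
  · apply hZ
    have h1 := off_prod2 (mem p.1) (fun i => mem p.2 (σ i))
    have h2 : gg (mem p.1) (fun i => mem p.2 (σ i)) 0 0 * gg (mem p.1) (fun i => mem p.2 (σ i)) 1 1 *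
        gg (mem p.1) (fun i => mem p.2 (σ i)) 2 2 = dg σ p := rfl
    rw [h2] at h1
    have h3 : ((∏ i, off (mem p.1) (fun i => mem p.2 (σ i)) i : ℕ) : ℝ) * (dg σ p : ℝ) ≤ Y := by
      have h4 : ((∏ i, off (mem p.1) (fun i => mem p.2 (σ i)) i : ℕ) * dg σ p) ≤ Y := by
        rw [h1]
        refine (GG_le c1 c3).trans ?_
        rw [rr_mem c1]
        exact g1.2.2.2.1
      exact_mod_cast h4
    obtain ⟨O, hO⟩ : ∃ O : ℕ, O = ∏ i, off (mem p.1) (fun i => mem p.2 (σ i)) i := ⟨_, rfl⟩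
    rw [← hO] at h3
    show ((∏ i, off (mem p.1) (fun i => mem p.2 (σ i)) i : ℕ) : ℝ) ≤ _
    rw [← hO]
    have hp0 : (0 : ℝ) < (Y : ℝ) ^ (1 / 3 + 1 / 100 : ℝ) := by positivity
    have h5 : (O : ℝ) * (Y : ℝ) ^ (1 / 3 + 1 / 100 : ℝ) ≤
        (Y : ℝ) ^ (2 / 3 - 1 / 100 : ℝ) * (Y : ℝ) ^ (1 / 3 + 1 / 100 : ℝ) := by
      rw [← Real.rpow_add hy]
      have e : (2 / 3 - 1 / 100 + (1 / 3 + 1 / 100) : ℝ) = 1 := by norm_num
      rw [e, Real.rpow_one]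
      refine le_trans ?_ h3
      gcongr
    exact le_of_mul_le_mul_right h5 hp0

theorem log_gg_sum2 {Y : ℕ} (hY : 1 ≤ Y) {m n : Fin 3 → ℕ} (hm : ∀ i, 0 < m i) (hn : PC n)
    (hb : ∀ i, (m i : ℝ) ≤ (Y : ℝ) ^ (1 / 3 + 1 / 10000 : ℝ)) (i : Fin 3) :
    Real.log (gg m n i 0) + Real.log (gg m n i 1) + Real.log (gg m n i 2) ≤
      (1 / 3 + 1 / 10000) * Real.log Y := by
  have hy : (0 : ℝ) < Y := by exact_mod_cast hY
  have p : ∀ i j, (0 : ℝ) < gg m n i j := fun i j => by exact_mod_cast gg_pos m n i j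
  have h1 : ((gg m n i 0 * gg m n i 1 * gg m n i 2 : ℕ) : ℝ) ≤ m i := by
    exact_mod_cast Nat.le_of_dvd (hm i) ((gg_row_dvd hn i).trans (rad_dvd _))
  push_cast at h1
  rw [← Real.log_mul (p i 0).ne' (p i 1).ne', ← Real.log_mul (mul_pos (p i 0) (p i 1)).ne'
    (p i 2).ne', ← Real.log_rpow hy]
  apply Real.log_le_log
  · exact mul_pos (mul_pos (p i 0) (p i 1)) (p i 2)
  · exact h1.trans (hb i)

theorem caseB_good2 {Y W G H T : ℕ} (hY : 1 ≤ Y)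
    (hW : ∀ u : ℕ, (u : ℝ) ≤ (Y : ℝ) ^ (5 / 10000 : ℝ) → u ≤ W)
    (hG : ∀ u : ℕ, (u : ℝ) ≤ (Y : ℝ) ^ (59 / 500 : ℝ) → u ≤ G)
    (hH : ∀ u : ℕ, (Y : ℝ) ^ (97 / 1000 : ℝ) ≤ u → H ≤ u)
    (hH6 : W ^ 4 < H ^ 6) (hGH : G * W ^ 4 < H ^ 3)
    (hT : ∀ n, 1 ≤ n → n ≤ W ^ 4 * G ^ 6 → n.divisors.card ≤ T)
    (S : Finset ((ℕ × ℕ) × (ℕ × ℕ)))
    (hS : ∀ p ∈ S, Good Y p.1 ∧ Good Y p.2 ∧ Near Y (1 / 10000) p ∧
      ∀ σ, (dg σ p : ℝ) ≤ (Y : ℝ) ^ (1 / 3 + 1 / 100 : ℝ)) :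
    S.card ≤ 2 * T * (W ^ 3 * (W ^ 3 * G ^ 5)) := by
  classical
  have hy : (0 : ℝ) < Y := by exact_mod_cast hY
  have hL : 0 ≤ Real.log Y := Real.log_natCast_nonneg Y
  obtain ⟨ψ, hψ⟩ : ∃ ψ : (ℕ × ℕ) × (ℕ × ℕ) → (Fin 3 → ℕ) × (Fin 3 → ℕ),
      ψ = fun p => (mem p.1, mem p.2) := ⟨_, rfl⟩
  have hinj : Function.Injective ψ := by
    intro p q h
    rw [hψ] at h
    simp only [Prod.mk.injEq] at h
    exact Prod.ext (mem_inj h.1) (mem_inj h.2)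
  rw [← card_image_of_injective S hinj]
  apply caseB2 W G H T hH6 hGH hT
  intro q hq
  obtain ⟨p, hp, rfl⟩ := mem_image.1 hq
  obtain ⟨g1, g2, g3, g6⟩ := hS p hp
  obtain ⟨-, -, g4, g5⟩ := g3
  have hge := (hS p hp).2.2.1.ge hY g1 g2
  have c1 := g1.pc
  have c2 := g2.pc
  rw [hψ]
  refine ⟨⟨c1, c2, mem_rel _, mem_rel _, ?_, ?_, ?_⟩, ?_⟩
  · intro h
    exact g4 (mem_inj h).symm
  · intro i
    exact hW _ (cf_bound hY c1 c2 g1.mem_le hge i)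
  · intro i
    exact hW _ (cf_bound hY c2 c1 g2.mem_le (by rw [GG_symm c1 c2]; exact hge) i)
  · have pos : ∀ i j, (0 : ℝ) < gg (mem p.1) (mem p.2) i j :=
      fun i j => by exact_mod_cast gg_pos _ _ i j
    have hrow := log_gg_sum2 hY c1.1 c2 g1.mem_le
    have hcol : ∀ j, Real.log (gg (mem p.1) (mem p.2) 0 j) +
        Real.log (gg (mem p.1) (mem p.2) 1 j) + Real.log (gg (mem p.1) (mem p.2) 2 j) ≤
        (1 / 3 + 1 / 10000) * Real.log Y := by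
      intro j
      have := log_gg_sum2 hY c2.1 c1 g2.mem_le j
      rw [gg_symm (mem p.2) (mem p.1), gg_symm (mem p.2) (mem p.1),
        gg_symm (mem p.2) (mem p.1)] at this
      exact this
    have htot : (1 - 2 / 10000) * Real.log Y ≤
        (Real.log (gg (mem p.1) (mem p.2) 0 0) + Real.log (gg (mem p.1) (mem p.2) 0 1) +
          Real.log (gg (mem p.1) (mem p.2) 0 2)) + (Real.log (gg (mem p.1) (mem p.2) 1 0) +
          Real.log (gg (mem p.1) (mem p.2) 1 1) + Real.log (gg (mem p.1) (mem p.2) 1 2)) +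
        (Real.log (gg (mem p.1) (mem p.2) 2 0) + Real.log (gg (mem p.1) (mem p.2) 2 1) +
          Real.log (gg (mem p.1) (mem p.2) 2 2)) := by
      have e2 : (GG (mem p.1) (mem p.2) : ℝ) = ((gg (mem p.1) (mem p.2) 0 0 : ℝ) *
          gg (mem p.1) (mem p.2) 0 1 * gg (mem p.1) (mem p.2) 0 2) *
          ((gg (mem p.1) (mem p.2) 1 0 : ℝ) *
          gg (mem p.1) (mem p.2) 1 1 * gg (mem p.1) (mem p.2) 1 2) *
          ((gg (mem p.1) (mem p.2) 2 0 : ℝ) *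
          gg (mem p.1) (mem p.2) 2 1 * gg (mem p.1) (mem p.2) 2 2) := by
        unfold GG
        push_cast
        ring
      have q : ∀ i, ((gg (mem p.1) (mem p.2) i 0 : ℝ) *
          gg (mem p.1) (mem p.2) i 1 * gg (mem p.1) (mem p.2) i 2) ≠ 0 :=
        fun i => (mul_pos (mul_pos (pos i 0) (pos i 1)) (pos i 2)).ne'
      have e3 : ∀ i, Real.log ((gg (mem p.1) (mem p.2) i 0 : ℝ) *
          gg (mem p.1) (mem p.2) i 1 * gg (mem p.1) (mem p.2) i 2) =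
          Real.log (gg (mem p.1) (mem p.2) i 0) + Real.log (gg (mem p.1) (mem p.2) i 1) +
          Real.log (gg (mem p.1) (mem p.2) i 2) := by
        intro i
        rw [Real.log_mul (mul_pos (pos i 0) (pos i 1)).ne' (pos i 2).ne',
          Real.log_mul (pos i 0).ne' (pos i 1).ne']
      rw [← e3, ← e3, ← e3, ← Real.log_mul (q 0) (q 1), ← Real.log_mul (mul_ne_zero (q 0) (q 1))
        (q 2), ← e2, ← Real.log_rpow hy]
      exact Real.log_le_log (by positivity) hge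
    have hperm : ∀ σ : Equiv.Perm (Fin 3), Real.log (gg (mem p.1) (mem p.2) 0 (σ 0)) +
        Real.log (gg (mem p.1) (mem p.2) 1 (σ 1)) + Real.log (gg (mem p.1) (mem p.2) 2 (σ 2)) ≤
        (1 / 3 + 1 / 100) * Real.log Y := by
      intro σ
      rw [← Real.log_mul (pos _ _).ne' (pos _ _).ne',
        ← Real.log_mul (mul_pos (pos _ _) (pos _ _)).ne' (pos _ _).ne', ← Real.log_rpow hy]
      apply Real.log_le_log
      · exact mul_pos (mul_pos (pos _ _) (pos _ _)) (pos _ _)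
      · have := g6 σ
        unfold dg at this
        push_cast at this
        exact this
    intro i j
    obtain ⟨k1, k2⟩ := entries2 (g := fun i j => Real.log (gg (mem p.1) (mem p.2) i j)) hL
      hrow hcol htot hperm i j
    constructor
    · apply hH
      rw [← Real.log_le_log_iff (by positivity) (pos i j), Real.log_rpow hy]
      exact k1
    · apply hG
      rw [← Real.log_le_log_iff (pos i j) (by positivity), Real.log_rpow hy]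
      exact k2

end Pool.Agent.Lib.AbcE
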