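import Mathlib
import Pool.Agent.Lib.AbcE.GoodMain

/-!
# The radicals of essentially different abc-triples almost never have a large common divisor
-/

set_option autoImplicit false

open Finset Filter

namespace Pool.Agent.Lib.AbcE

open Pool.Agent.Lib.AbcG Pool.Agent.Lib.AbcD

/-- Few triples have a radical which almost divides `r`. -/
theorem partners2 (ε : ℝ) (hε : 0 < ε) : ∃ K : ℝ, 1 ≤ K ∧ ∀ (Y r : ℕ) (η : ℝ)
    (T : Finset (ℕ × ℕ)), 1 ≤ Y → 1 ≤ r → r ≤ Y →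
    (∀ t ∈ T, InF Y t ∧ (rad (Nn t) : ℝ) ≤ (Y : ℝ) ^ η * Nat.gcd r (rad (Nn t))) →
    (T.card : ℝ) ≤ K * (Y : ℝ) ^ (ε + η) := by
  classical
  obtain ⟨K, hK, hpart⟩ := partners (ε / 2) (by positivity)
  obtain ⟨Cd, hCd, hdiv⟩ := Pool.Agent.Lib.P5632c9.card_divisors_le (ε / 2) (by positivity)
  refine ⟨K * Cd, by nlinarith, ?_⟩
  intro Y r η T hY hr hrY hT
  have hy1 : (1 : ℝ) ≤ Y := by exact_mod_cast hY
  have hy : (0 : ℝ) < Y := by linarith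
  obtain ⟨φ, hφ⟩ : ∃ φ : ℕ × ℕ → ℕ × ℕ, φ = fun t => (Nat.gcd r (rad (Nn t)),
      rad (Nn t) / Nat.gcd r (rad (Nn t))) := ⟨_, rfl⟩
  have hφr : ∀ t, (φ t).1 * (φ t).2 = rad (Nn t) := by
    intro t
    rw [hφ]
    exact Nat.mul_div_cancel' (Nat.gcd_dvd_right _ _)
  have hfib : ∀ c ∈ T.image φ, (((T.filter (fun t => φ t = c)).card : ℕ) : ℝ) ≤
      K * (Y : ℝ) ^ (ε / 2) := by
    intro c hc
    obtain ⟨t0, ht0, rfl⟩ := mem_image.1 hc
    refine (hpart (rad (Nn t0)) _ (rad_pos _) ?_).trans ?_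
    · intro t ht
      rw [mem_filter] at ht
      obtain ⟨b1, b2, b3, b4⟩ := (hT t ht.1).1
      refine ⟨b1, b2, b3, ?_⟩
      rw [← hφr t, ← hφr t0, ht.2]
    · have h1 : (rad (Nn t0) : ℝ) ≤ Y := by exact_mod_cast (hT t0 ht0).1.2.2.2
      have h2 : (rad (Nn t0) : ℝ) ^ (ε / 2) ≤ (Y : ℝ) ^ (ε / 2) :=
        Real.rpow_le_rpow (Nat.cast_nonneg _) h1 (by positivity)
      exact mul_le_mul_of_nonneg_left h2 (by linarith)
  have hsum : (T.card : ℝ) = ∑ c ∈ T.image φ, (((T.filter (fun t => φ t = c)).card : ℕ) : ℝ) := by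
    rw [← Nat.cast_sum]
    norm_cast
    apply Finset.card_eq_sum_card_fiberwise
    intro p hp
    exact Finset.mem_coe.2 (mem_image_of_mem _ hp)
  have himg : T.image φ ⊆ r.divisors ×ˢ Icc 1 ⌊(Y : ℝ) ^ η⌋₊ := by
    intro c hc
    obtain ⟨t, ht, rfl⟩ := mem_image.1 hc
    have h1 := (hT t ht).2
    have h2 : 0 < Nat.gcd r (rad (Nn t)) := Nat.gcd_pos_of_pos_left _ hr
    have h2' : (0 : ℝ) < Nat.gcd r (rad (Nn t)) := by exact_mod_cast h2
    rw [mem_product, Nat.mem_divisors, mem_Icc, hφ]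
    refine ⟨⟨Nat.gcd_dvd_left _ _, by omega⟩, ?_, ?_⟩
    · exact Nat.div_pos (Nat.le_of_dvd (rad_pos _) (Nat.gcd_dvd_right _ _)) h2
    · apply Nat.le_floor
      show (((rad (Nn t) / Nat.gcd r (rad (Nn t)) : ℕ) : ℝ)) ≤ _
      rw [Nat.cast_div (Nat.gcd_dvd_right _ _) h2'.ne', div_le_iff₀ h2']
      exact h1
  have hcard : ((T.image φ).card : ℝ) ≤ Cd * (Y : ℝ) ^ (ε / 2) * (Y : ℝ) ^ η := by
    have h1 : ((T.image φ).card : ℝ) ≤ (r.divisors.card : ℝ) * (⌊(Y : ℝ) ^ η⌋₊ : ℝ) := by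
      have := card_le_card himg
      rw [card_product, Nat.card_Icc, Nat.add_sub_cancel] at this
      exact_mod_cast this
    have h2 : (r.divisors.card : ℝ) ≤ Cd * (Y : ℝ) ^ (ε / 2) := by
      refine (hdiv r (by omega)).trans ?_
      have : (r : ℝ) ^ (ε / 2) ≤ (Y : ℝ) ^ (ε / 2) :=
        Real.rpow_le_rpow (Nat.cast_nonneg _) (by exact_mod_cast hrY) (by positivity)
      exact mul_le_mul_of_nonneg_left this (by linarith)
    have h3 : (⌊(Y : ℝ) ^ η⌋₊ : ℝ) ≤ (Y : ℝ) ^ η := Nat.floor_le (by positivity)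
    exact h1.trans (mul_le_mul h2 h3 (Nat.cast_nonneg _) (by positivity))
  rw [hsum]
  refine (sum_le_sum hfib).trans ?_
  rw [sum_const, nsmul_eq_mul]
  calc ((T.image φ).card : ℝ) * (K * (Y : ℝ) ^ (ε / 2)) ≤
        (Cd * (Y : ℝ) ^ (ε / 2) * (Y : ℝ) ^ η) * (K * (Y : ℝ) ^ (ε / 2)) := by gcongr
    _ = K * Cd * ((Y : ℝ) ^ (ε / 2) * (Y : ℝ) ^ η * (Y : ℝ) ^ (ε / 2)) := by ring
    _ = K * Cd * (Y : ℝ) ^ (ε + η) := by
      rw [← Real.rpow_add hy, ← Real.rpow_add hy]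
      congr 2
      ring

theorem Near.mono {Y : ℕ} (hY : 1 ≤ Y) {δ δ' : ℝ} (h : δ ≤ δ') {p : (ℕ × ℕ) × (ℕ × ℕ)}
    (hp : Near Y δ p) : Near Y δ' p := by
  have hy1 : (1 : ℝ) ≤ Y := by exact_mod_cast hY
  have h1 : (Y : ℝ) ^ δ ≤ (Y : ℝ) ^ δ' := Real.rpow_le_rpow_of_exponent_le hy1 h
  obtain ⟨a1, a2, a3, a4⟩ := hp
  exact ⟨a1.trans (mul_le_mul_of_nonneg_right h1 (Nat.cast_nonneg _)),
    a2.trans (mul_le_mul_of_nonneg_right h1 (Nat.cast_nonneg _)), a3, a4⟩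

/-- Few pairs of essentially different triples have radicals which differ by small factors. -/
theorem near_few : ∃ κ : ℝ, 0 < κ ∧ κ ≤ 1 / 3 ∧ ∀ᶠ Y : ℕ in atTop,
    ∀ S : Finset ((ℕ × ℕ) × (ℕ × ℕ)),
    (∀ p ∈ S, InF Y p.1 ∧ InF Y p.2 ∧ Near Y (κ / 4) p) →
      (S.card : ℝ) ≤ (Y : ℝ) ^ (2 / 3 - κ) := by
  classical
  obtain ⟨κ, hκ, hκ2, hbad⟩ := bad_few
  obtain ⟨K, hK, hpart⟩ := partners2 (κ / 4) (by positivity)
  refine ⟨κ / 2, by positivity, by linarith, ?_⟩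
  have hlarge : ∀ᶠ Y : ℕ in atTop, 1 + 4 * K ≤ (Y : ℝ) ^ (κ / 8) := by
    have h1 : Tendsto (fun Y : ℕ => (Y : ℝ) ^ (κ / 8)) atTop atTop :=
      (tendsto_rpow_atTop (by positivity)).comp tendsto_natCast_atTop_atTop
    exact h1.eventually (eventually_ge_atTop _)
  filter_upwards [hbad, good_pairs2, hlarge, eventually_ge_atTop 1] with Y hb hg hl hY1 S hS
  have hy1 : (1 : ℝ) ≤ Y := by exact_mod_cast hY1
  have hy : (0 : ℝ) < Y := by linarith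
  have eη : κ / 2 / 4 = κ / 8 := by ring
  rw [eη] at hS
  -- the bad parts
  have key : ∀ (f g : (ℕ × ℕ) × (ℕ × ℕ) → ℕ × ℕ),
      (∀ p ∈ S, InF Y (f p) ∧ InF Y (g p) ∧ (rad (Nn (g p)) : ℝ) ≤
        (Y : ℝ) ^ (κ / 8) * Nat.gcd (rad (Nn (f p))) (rad (Nn (g p)))) →
      (∀ p q, f p = f q → g p = g q → p = q) →
      ((S.filter (fun p => ¬ Good Y (f p))).card : ℝ) ≤ 2 * K * (Y : ℝ) ^ (2 / 3 - 5 * κ / 8) := by
    intro f g hfg hinj
    obtain ⟨B, hB⟩ : ∃ B : Finset (ℕ × ℕ), B = (S.filter (fun p => ¬ Good Y (f p))).image f :=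
      ⟨_, rfl⟩
    have hBc : (B.card : ℝ) ≤ 2 * (Y : ℝ) ^ (2 / 3 - κ) := by
      apply hb
      intro t ht
      rw [hB] at ht
      obtain ⟨p, hp, rfl⟩ := mem_image.1 ht
      rw [mem_filter] at hp
      exact ⟨(hfg p hp.1).1, hp.2⟩
    have hfib : ∀ t ∈ B, ((((S.filter (fun p => ¬ Good Y (f p))).filter
        (fun p => f p = t)).card : ℕ) : ℝ) ≤ K * (Y : ℝ) ^ (κ / 4 + κ / 8) := by
      intro t ht
      rw [hB] at ht
      obtain ⟨p0, hp0, rfl⟩ := mem_image.1 ht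
      rw [mem_filter] at hp0
      obtain ⟨Q, hQ⟩ : ∃ Q, Q = (S.filter (fun p => ¬ Good Y (f p))).filter
        (fun p => f p = f p0) := ⟨_, rfl⟩
      rw [← hQ]
      have hQi : Set.InjOn g (Q : Set _) := by
        intro p hp q hq h
        rw [Finset.mem_coe, hQ, mem_filter] at hp hq
        exact hinj p q (hp.2.trans hq.2.symm) h
      rw [← card_image_of_injOn hQi]
      refine hpart Y (rad (Nn (f p0))) (κ / 8) (Q.image g) hY1 (rad_pos _)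
        (hfg p0 hp0.1).1.2.2.2 ?_
      intro t ht
      obtain ⟨p, hp, rfl⟩ := mem_image.1 ht
      rw [hQ, mem_filter, mem_filter] at hp
      obtain ⟨a1, a2, a3⟩ := hfg p hp.1.1
      rw [hp.2] at a3
      exact ⟨a2, a3⟩
    have hsum : ((S.filter (fun p => ¬ Good Y (f p))).card : ℝ) =
        ∑ t ∈ B, ((((S.filter (fun p => ¬ Good Y (f p))).filter
        (fun p => f p = t)).card : ℕ) : ℝ) := by
      rw [← Nat.cast_sum]
      norm_cast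
      apply Finset.card_eq_sum_card_fiberwise
      intro p hp
      rw [hB]
      exact Finset.mem_coe.2 (mem_image_of_mem _ hp)
    rw [hsum]
    refine (sum_le_sum hfib).trans ?_
    rw [sum_const, nsmul_eq_mul]
    calc (B.card : ℝ) * (K * (Y : ℝ) ^ (κ / 4 + κ / 8)) ≤
          (2 * (Y : ℝ) ^ (2 / 3 - κ)) * (K * (Y : ℝ) ^ (κ / 4 + κ / 8)) := by gcongr
      _ = 2 * K * ((Y : ℝ) ^ (2 / 3 - κ) * (Y : ℝ) ^ (κ / 4 + κ / 8)) := by ring
      _ = 2 * K * (Y : ℝ) ^ (2 / 3 - 5 * κ / 8) := by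
        rw [← Real.rpow_add hy]
        congr 2
        ring
  have k1 := key Prod.fst Prod.snd
    (fun p hp => ⟨(hS p hp).1, (hS p hp).2.1, (hS p hp).2.2.2.1⟩)
    (fun p q h1 h2 => Prod.ext h1 h2)
  have k2 := key Prod.snd Prod.fst
    (fun p hp => ⟨(hS p hp).2.1, (hS p hp).1, by
      rw [Nat.gcd_comm]
      exact (hS p hp).2.2.1⟩)
    (fun p q h1 h2 => Prod.ext h2 h1)
  have k3 := hg (S.filter (fun p => Good Y p.1 ∧ Good Y p.2)) (by
    intro p hp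
    rw [mem_filter] at hp
    exact ⟨hp.2.1, hp.2.2, (hS p hp.1).2.2.mono hY1 (by linarith)⟩)
  have hcover : S ⊆ S.filter (fun p => Good Y p.1 ∧ Good Y p.2) ∪
      (S.filter (fun p => ¬ Good Y p.1) ∪ S.filter (fun p => ¬ Good Y p.2)) := by
    intro p hp
    rw [mem_union, mem_union, mem_filter, mem_filter, mem_filter]
    tauto
  have hc : (S.card : ℝ) ≤ (S.filter (fun p => Good Y p.1 ∧ Good Y p.2)).card +
      ((S.filter (fun p => ¬ Good Y p.1)).card + (S.filter (fun p => ¬ Good Y p.2)).card) := by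
    have h1 := card_le_card hcover
    have h2 := card_union_le (S.filter (fun p => Good Y p.1 ∧ Good Y p.2))
      (S.filter (fun p => ¬ Good Y p.1) ∪ S.filter (fun p => ¬ Good Y p.2))
    have h3 := card_union_le (S.filter (fun p => ¬ Good Y p.1)) (S.filter (fun p => ¬ Good Y p.2))
    exact_mod_cast h1.trans (h2.trans (Nat.add_le_add_left h3 _))
  have m1 : (Y : ℝ) ^ (2 / 3 - 5 / 1000 : ℝ) ≤ (Y : ℝ) ^ (2 / 3 - 5 * κ / 8) :=
    Real.rpow_le_rpow_of_exponent_le hy1 (by linarith)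
  have hp0 : 0 ≤ (Y : ℝ) ^ (2 / 3 - 5 * κ / 8) := by positivity
  calc (S.card : ℝ) ≤ (1 + 4 * K) * (Y : ℝ) ^ (2 / 3 - 5 * κ / 8) := by linarith
    _ ≤ (Y : ℝ) ^ (κ / 8) * (Y : ℝ) ^ (2 / 3 - 5 * κ / 8) := mul_le_mul_of_nonneg_right hl hp0
    _ = (Y : ℝ) ^ (2 / 3 - κ / 2) := by
      rw [← Real.rpow_add hy]
      congr 1
      ring

end Pool.Agent.Lib.AbcE
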