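import Mathlib
import Pool.Agent.Lib.AbcG.Tail
import Pool.Agent.Lib.AbcD.Bad

/-!
# Triples whose radical is divisible by a given small number
-/

set_option autoImplicit false

open Finset Filter

namespace Pool.Agent.Lib.AbcE

open Pool.Agent.Lib.AbcG Pool.Agent.Lib.AbcD

theorem two_rpow_third : (2 : ℝ) ^ (-(1 / 3) : ℝ) ≤ 4 / 5 := by
  have h1 : (2 : ℝ) ^ (-(1 / 3) : ℝ) = (1 / 2 : ℝ) ^ (1 / 3 : ℝ) := by
    rw [Real.rpow_neg (by norm_num), one_div (2 : ℝ), Real.inv_rpow (by norm_num)]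
  have h2 : (4 / 5 : ℝ) = ((4 / 5 : ℝ) ^ (3 : ℝ)) ^ (1 / 3 : ℝ) := by
    rw [← Real.rpow_mul (by norm_num)]
    norm_num
  rw [h1, h2]
  exact Real.rpow_le_rpow (by norm_num) (by norm_num) (by norm_num)

/-- The sum of `u ^ (-1/3)` over numbers composed of the primes of `s`. -/
theorem sum_smooth (s : Finset ℕ) (hs : ∀ p ∈ s, p.Prime) (U : Finset ℕ)
    (hU : ∀ u ∈ U, u ≠ 0 ∧ u.primeFactors ⊆ s) :
    ∑ u ∈ U, (u : ℝ) ^ (-(1 / 3) : ℝ) ≤ 5 ^ s.card := by
  classical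
  obtain ⟨f, hf⟩ : ∃ f : ℕ →* ℝ, ∀ n : ℕ, f n = (n : ℝ) ^ (-(1 / 3) : ℝ) :=
    ⟨⟨⟨fun n => (n : ℝ) ^ (-(1 / 3) : ℝ), by simp⟩, fun a b => by
      simp only [Nat.cast_mul]
      exact Real.mul_rpow (Nat.cast_nonneg _) (Nat.cast_nonneg _)⟩, fun n => rfl⟩
  have hp1 : ∀ {p : ℕ}, p.Prime → ‖f p‖ < 1 := by
    intro p hp
    rw [hf, Real.norm_of_nonneg (by positivity)]
    exact rpow_lt_one hp (by norm_num)
  obtain ⟨h1, h2⟩ := EulerProduct.summable_and_hasSum_factoredNumbers_prod_filter_prime_geometric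
    (f := f) hp1 s
  have h3 : ∑ u ∈ U, (u : ℝ) ^ (-(1 / 3) : ℝ) =
      ∑ m ∈ U.subtype (· ∈ Nat.factoredNumbers s), f m := by
    rw [Finset.sum_subtype_of_mem (fun m => f m)]
    · exact Finset.sum_congr rfl (fun u _ => (hf u).symm)
    · intro u hu
      exact Nat.mem_factoredNumbers_of_primeFactors_subset (hU u hu).1 (hU u hu).2
  rw [h3]
  have h4 : ∑ m ∈ U.subtype (· ∈ Nat.factoredNumbers s), f m ≤
      ∏ p ∈ s with p.Prime, (1 - f p)⁻¹ :=
    sum_le_hasSum _ (fun m _ => by rw [hf]; positivity) h2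
  refine h4.trans ?_
  rw [Finset.filter_true_of_mem hs, ← Finset.prod_const]
  apply Finset.prod_le_prod
  · intro p hp
    have := hp1 (hs p hp)
    rw [hf, Real.norm_of_nonneg (by positivity)] at this
    rw [hf, inv_nonneg]
    linarith
  · intro p hp
    have h5 : (p : ℝ) ^ (-(1 / 3) : ℝ) ≤ (2 : ℝ) ^ (-(1 / 3) : ℝ) :=
      Real.rpow_le_rpow_of_nonpos (by norm_num) (by exact_mod_cast (hs p hp).two_le) (by norm_num)
    have h6 := two_rpow_third
    rw [hf]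
    refine inv_le_of_inv_le₀ (by norm_num) ?_
    linarith

/-- The part of `w` composed of the primes with the property `P`. -/
def part (P : ℕ → Prop) [DecidablePred P] (w : ℕ) : ℕ :=
  ∏ p ∈ w.primeFactors with P p, p ^ w.factorization p

theorem part_mul (P : ℕ → Prop) [DecidablePred P] {w : ℕ} (hw : w ≠ 0) :
    part P w * part (fun p => ¬ P p) w = w := by
  unfold part
  rw [Finset.prod_filter_mul_prod_filter_not]
  have h := Nat.prod_factorization_pow_eq_self hw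
  rw [Finsupp.prod, Nat.support_factorization] at h
  exact h

theorem part_pos (P : ℕ → Prop) [DecidablePred P] (w : ℕ) : 0 < part P w := by
  unfold part
  apply Finset.prod_pos
  intro p hp
  rw [mem_filter] at hp
  exact pow_pos (Nat.pos_of_mem_primeFactors hp.1) _

theorem part_prime (P : ℕ → Prop) [DecidablePred P] {w p : ℕ} (hp : p.Prime)
    (h : p ∣ part P w) : P p ∧ p ∈ w.primeFactors := by
  unfold part at h
  obtain ⟨q, hq, h2⟩ := (hp.prime.dvd_finsetProd_iff _).1 h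
  rw [mem_filter] at hq
  have h3 := hp.dvd_of_dvd_pow h2
  have h4 := (Nat.prime_dvd_prime_iff_eq hp (Nat.prime_of_mem_primeFactors hq.1)).1 h3
  rw [h4]
  exact ⟨hq.2, hq.1⟩

theorem rad_dvd_rad' {m n : ℕ} (h : m ∣ n) (hn : n ≠ 0) : rad m ∣ rad n := by
  unfold rad
  exact Finset.prod_dvd_prod_of_subset _ _ _ (Nat.primeFactors_mono h hn)

theorem rad_prime_dvd {p n : ℕ} (h : p ∣ rad n) : p ∣ n :=
  h.trans (tail_rad_dvd n)

/-- The modulus. -/
def LL (d w : ℕ) : ℕ :=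
  (d * part (fun p => p ∣ d) w) * (part (fun p => ¬ p ∣ d) w * rad (part (fun p => ¬ p ∣ d) w))

theorem LL_pos {d : ℕ} (hd : 1 ≤ d) (w : ℕ) : 1 ≤ LL d w :=
  Nat.mul_pos (Nat.mul_pos hd (part_pos _ _)) (Nat.mul_pos (part_pos _ _) (tail_rad_pos _))

theorem LL_dvd {d n : ℕ} (hn : 0 < n) (hd : d ∣ rad n) : LL d (wt n) ∣ n := by
  have hw : wt n ≠ 0 := (tail_wt_pos hn).ne'
  have e := tail_rad_mul_wt n
  have hm := part_mul (fun p => p ∣ d) hw
  have d1 : part (fun p => p ∣ d) (wt n) ∣ wt n := ⟨_, hm.symm⟩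
  have d2 : part (fun p => ¬ p ∣ d) (wt n) ∣ wt n := ⟨part (fun p => p ∣ d) (wt n), by
    rw [mul_comm]
    exact hm.symm⟩
  have d3 : wt n ∣ n := ⟨rad n, by rw [mul_comm]; exact e.symm⟩
  unfold LL
  apply Nat.Coprime.mul_dvd_of_dvd_of_dvd
  · apply Nat.Coprime.symm
    rw [Nat.coprime_iff_gcd_eq_one]
    by_contra hg
    obtain ⟨p, hp, hpg⟩ := Nat.exists_prime_and_dvd hg
    have h1 := hpg.trans (Nat.gcd_dvd_left _ _)
    have h2 := hpg.trans (Nat.gcd_dvd_right _ _)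
    have h3 : ¬ p ∣ d := by
      rcases hp.dvd_mul.1 h1 with h | h
      · exact (part_prime _ hp h).1
      · exact (part_prime _ hp (rad_prime_dvd h)).1
    rcases hp.dvd_mul.1 h2 with h | h
    · exact h3 h
    · exact h3 (part_prime _ hp h).1
  · conv_rhs => rw [← e]
    exact Nat.mul_dvd_mul hd d1
  · conv_rhs => rw [← e, mul_comm]
    exact Nat.mul_dvd_mul d2 (rad_dvd_rad' (d2.trans d3) hn.ne')

theorem LL_three {d : ℕ} (hd : 1 ≤ d) (w : ℕ) : (3 : ℝ) ^ (LL d w).primeFactors.card ≤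
    3 ^ d.primeFactors.card * 3 ^ (part (fun p => ¬ p ∣ d) w).primeFactors.card := by
  rw [← pow_add]
  apply pow_le_pow_right₀ (by norm_num)
  refine (card_le_card ?_).trans (card_union_le _ _)
  intro p hp
  have hpp := Nat.prime_of_mem_primeFactors hp
  have hpd := Nat.dvd_of_mem_primeFactors hp
  rw [mem_union, Nat.mem_primeFactors, Nat.mem_primeFactors]
  unfold LL at hpd
  rcases hpp.dvd_mul.1 hpd with h | h
  · left
    rcases hpp.dvd_mul.1 h with h' | h'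
    · exact ⟨hpp, h', by omega⟩
    · exact ⟨hpp, (part_prime _ hpp h').1, by omega⟩
  · right
    refine ⟨hpp, ?_, (part_pos _ _).ne'⟩
    rcases hpp.dvd_mul.1 h with h' | h'
    · exact h'
    · exact rad_prime_dvd h'

theorem small_count : ∃ K : ℝ, 0 < K ∧ ∀ (Y d : ℕ) (V : ℝ), 1 ≤ Y → 1 ≤ V → 1 ≤ d →
    ∀ F : Finset (ℕ × ℕ),
    (∀ t ∈ F, 0 < t.1 ∧ 0 < t.2 ∧ t.1.Coprime t.2 ∧ rad (Nn t) ≤ Y ∧ (wt (Nn t) : ℝ) ≤ V ∧
      d ∣ rad (Nn t)) →
    (F.card : ℝ) ≤ K * (15 ^ d.primeFactors.card / d * (Y : ℝ) ^ (2 / 3 : ℝ) +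
      3 ^ d.primeFactors.card * (V ^ 3 * √(Y * V))) := by
  classical
  obtain ⟨C1, hC1, hfac⟩ := fac_count
  obtain ⟨S1, hS1⟩ : ∃ S1 : ℝ, S1 = ∑' v : ℕ, (3 : ℝ) ^ v.primeFactors.card *
      (v : ℝ) ^ (-(1 / 4) : ℝ) / rad v := ⟨_, rfl⟩
  have hS10 : 0 ≤ S1 := by
    rw [hS1]
    apply tsum_nonneg
    intro v
    positivity
  have hc0 : 0 ≤ c0 := by
    unfold c0
    have h1 : 0 < Real.Gamma (2 / 3) := Real.Gamma_pos_of_pos (by norm_num)
    positivity
  refine ⟨c0 * S1 + C1, by positivity, ?_⟩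
  intro Y d V hY hV hd F hF
  have hYr : (1 : ℝ) ≤ Y := by exact_mod_cast hY
  have hY0 : (0 : ℝ) < Y := by linarith
  have hV0 : 0 < V := by linarith
  have hd0 : (0 : ℝ) < d := by exact_mod_cast hd
  obtain ⟨W, hW⟩ : ∃ W : Finset ℕ, W = Icc 1 ⌊V⌋₊ := ⟨_, rfl⟩
  have hmap : ∀ t ∈ F, wt (Nn t) ∈ W := by
    intro t ht
    obtain ⟨h1, h2, _, _, h5, h6⟩ := hF t ht
    have hN : 0 < Nn t := by
      unfold Nn
      positivity
    rw [hW, mem_Icc]
    exact ⟨tail_wt_pos hN, Nat.le_floor h5⟩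
  have h1 : F.card ≤ ∑ v ∈ W, Ac (LL d v) ((Y : ℝ) * v) := by
    rw [Finset.card_eq_sum_card_fiberwise hmap]
    apply Finset.sum_le_sum
    intro v hv
    unfold Ac
    apply Finset.card_le_card
    intro t ht
    rw [mem_filter] at ht
    obtain ⟨h1, h2, h3, h4, h5, h6⟩ := hF t ht.1
    have hN : 0 < Nn t := by
      unfold Nn
      positivity
    rw [mem_filter, mem_Reg]
    refine ⟨⟨h1, h2, ?_⟩, h3, ?_⟩
    · have h7 := tail_rad_mul_wt (Nn t)
      rw [ht.2] at h7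
      have h8 : ((rad (Nn t) : ℕ) : ℝ) * v = Nn t := by exact_mod_cast h7
      rw [← h8]
      apply mul_le_mul_of_nonneg_right _ (Nat.cast_nonneg _)
      exact_mod_cast h4
    · have h7 := LL_dvd hN h6
      rw [ht.2] at h7
      exact h7
  obtain ⟨gu, hgu⟩ : ∃ gu : ℕ → ℝ, gu = fun u : ℕ => (u : ℝ) ^ (-(1 / 3) : ℝ) := ⟨_, rfl⟩
  obtain ⟨gw, hgw⟩ : ∃ gw : ℕ → ℝ, gw = fun v : ℕ => (3 : ℝ) ^ v.primeFactors.card *
      (v : ℝ) ^ (-(1 / 4) : ℝ) / rad v := ⟨_, rfl⟩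
  have gu0 : ∀ u, 0 ≤ gu u := fun u => by rw [hgu]; positivity
  have gw0 : ∀ u, 0 ≤ gw u := fun u => by rw [hgw]; positivity
  have h2 : ∀ v ∈ W, (Ac (LL d v) ((Y : ℝ) * v) : ℝ) ≤
      c0 * (Y : ℝ) ^ (2 / 3 : ℝ) * (3 ^ d.primeFactors.card / d) *
        (gu (part (fun p => p ∣ d) v) * gw (part (fun p => ¬ p ∣ d) v)) +
      C1 * (3 ^ d.primeFactors.card * (V ^ 2 * √(Y * V))) := by
    intro v hv
    rw [hW, mem_Icc] at hv
    have hv1 : (1 : ℝ) ≤ v := by exact_mod_cast hv.1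
    have hv0 : (0 : ℝ) < v := by linarith
    have hvV : (v : ℝ) ≤ V := (Nat.le_floor_iff hV0.le).1 hv.2
    have hT : 1 ≤ (Y : ℝ) * v := by nlinarith
    have hL : 1 ≤ LL d v := LL_pos hd v
    have h3 := hfac (LL d v) hL ((Y : ℝ) * v) hT
    have h4 := (abs_le.1 h3).2
    obtain ⟨u, hu⟩ : ∃ u, u = part (fun p => p ∣ d) v := ⟨_, rfl⟩
    obtain ⟨x, hx⟩ : ∃ x, x = part (fun p => ¬ p ∣ d) v := ⟨_, rfl⟩
    have hux : u * x = v := by
      rw [hu, hx]
      exact part_mul _ (by omega)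
    have hu0 : (0 : ℝ) < u := by
      rw [hu]
      exact_mod_cast part_pos _ _
    have hx0' : 0 < x := by rw [hx]; exact part_pos _ _
    have hx0 : (0 : ℝ) < x := by exact_mod_cast hx0'
    have hx1 : (1 : ℝ) ≤ x := by exact_mod_cast hx0'
    have hr0 : (0 : ℝ) < rad x := by exact_mod_cast tail_rad_pos x
    have h30 := LL_three hd v
    rw [← hx] at h30
    rw [← hu, ← hx]
    have hLL : ((LL d v : ℕ) : ℝ) = d * u * (x * rad x) := by
      unfold LL
      rw [← hu, ← hx]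
      push_cast
      ring
    have h6 : 6 / Real.pi ^ 2 * psi (LL d v) ≤ 1 := by
      have hpi : 6 / Real.pi ^ 2 ≤ 1 := by
        rw [div_le_one (by positivity)]
        nlinarith [Real.pi_gt_three]
      calc 6 / Real.pi ^ 2 * psi (LL d v) ≤ 1 * 1 := by
            apply mul_le_mul hpi (tail_psi_le_one _) (tail_psi_nonneg _) (by norm_num)
        _ = 1 := by norm_num
    have h60 : 0 ≤ 6 / Real.pi ^ 2 * psi (LL d v) :=
      mul_nonneg (by positivity) (tail_psi_nonneg _)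
    have h5 : c0 * ((Y : ℝ) * v) ^ (2 / 3 : ℝ) *
      (3 ^ (LL d v).primeFactors.card * (6 / Real.pi ^ 2 * psi (LL d v) / ((LL d v : ℕ) : ℝ))) ≤
      c0 * (Y : ℝ) ^ (2 / 3 : ℝ) * (3 ^ d.primeFactors.card / d) * (gu u * gw x) := by
      have h7 : (u : ℝ) ^ (2 / 3 : ℝ) / u = (u : ℝ) ^ (-(1 / 3) : ℝ) := by
        nth_rewrite 2 [← Real.rpow_one (u : ℝ)]
        rw [← Real.rpow_sub hu0]
        norm_num
      have h8 : (x : ℝ) ^ (2 / 3 : ℝ) / x ≤ (x : ℝ) ^ (-(1 / 4) : ℝ) := by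
        nth_rewrite 2 [← Real.rpow_one (x : ℝ)]
        rw [← Real.rpow_sub hx0]
        exact Real.rpow_le_rpow_of_exponent_le hx1 (by norm_num)
      calc c0 * ((Y : ℝ) * v) ^ (2 / 3 : ℝ) *
          (3 ^ (LL d v).primeFactors.card * (6 / Real.pi ^ 2 * psi (LL d v) / ((LL d v : ℕ) : ℝ)))
          ≤ c0 * ((Y : ℝ) * v) ^ (2 / 3 : ℝ) *
          ((3 ^ d.primeFactors.card * 3 ^ x.primeFactors.card) * (1 / ((LL d v : ℕ) : ℝ))) := by
            apply mul_le_mul_of_nonneg_left _ (by positivity)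
            exact mul_le_mul h30 (div_le_div_of_nonneg_right h6 (Nat.cast_nonneg _))
              (div_nonneg h60 (Nat.cast_nonneg _)) (by positivity)
        _ = c0 * (Y : ℝ) ^ (2 / 3 : ℝ) * (3 ^ d.primeFactors.card / d) *
            (((u : ℝ) ^ (2 / 3 : ℝ) / u) * (3 ^ x.primeFactors.card *
            ((x : ℝ) ^ (2 / 3 : ℝ) / x) / rad x)) := by
            rw [Real.mul_rpow hY0.le hv0.le, hLL, ← hux]
            push_cast
            rw [Real.mul_rpow hu0.le hx0.le]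
            field_simp
        _ ≤ c0 * (Y : ℝ) ^ (2 / 3 : ℝ) * (3 ^ d.primeFactors.card / d) * (gu u * gw x) := by
            rw [h7, hgu, hgw]
            simp only
            gcongr
    have h9 : C1 * 3 ^ (LL d v).primeFactors.card * √((Y : ℝ) * v) ≤
        C1 * (3 ^ d.primeFactors.card * (V ^ 2 * √(Y * V))) := by
      have hxv : (x : ℝ) ≤ V := by
        refine le_trans ?_ hvV
        have : x ≤ v := Nat.le_of_dvd (by omega) ⟨u, by rw [← hux, mul_comm]⟩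
        exact_mod_cast this
      have h10 : (3 : ℝ) ^ x.primeFactors.card ≤ V ^ 2 := (tail_three_pow_le hx0').trans (by gcongr)
      have h11 : √((Y : ℝ) * v) ≤ √((Y : ℝ) * V) := Real.sqrt_le_sqrt (by gcongr)
      calc C1 * 3 ^ (LL d v).primeFactors.card * √((Y : ℝ) * v) ≤
            C1 * (3 ^ d.primeFactors.card * 3 ^ x.primeFactors.card) * √((Y : ℝ) * V) := by gcongr
        _ ≤ C1 * (3 ^ d.primeFactors.card * V ^ 2) * √((Y : ℝ) * V) := by gcongr
        _ = _ := by ring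
    linarith
  have h3 : (W.card : ℝ) ≤ V := by
    rw [hW, Nat.card_Icc, Nat.add_sub_cancel]
    exact Nat.floor_le hV0.le
  have h5 : ∑ v ∈ W, gu (part (fun p => p ∣ d) v) * gw (part (fun p => ¬ p ∣ d) v) ≤
      5 ^ d.primeFactors.card * S1 := by
    obtain ⟨φ, hφ⟩ : ∃ φ : ℕ → ℕ × ℕ, φ = fun v => (part (fun p => p ∣ d) v,
        part (fun p => ¬ p ∣ d) v) := ⟨_, rfl⟩
    have hinj : Set.InjOn φ (W : Set ℕ) := by
      intro v hv v' hv' h
      rw [hφ] at h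
      simp only [Prod.mk.injEq] at h
      rw [Finset.mem_coe, hW, mem_Icc] at hv hv'
      rw [← part_mul (fun p => p ∣ d) (w := v) (by omega),
        ← part_mul (fun p => p ∣ d) (w := v') (by omega), h.1, h.2]
    have e1 : ∑ v ∈ W, gu (part (fun p => p ∣ d) v) * gw (part (fun p => ¬ p ∣ d) v) =
        ∑ q ∈ W.image φ, gu q.1 * gw q.2 := by
      rw [Finset.sum_image hinj, hφ]
    have e2 : W.image φ ⊆ (W.image (fun v => part (fun p => p ∣ d) v)) ×ˢ
        (W.image (fun v => part (fun p => ¬ p ∣ d) v)) := by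
      intro q hq
      obtain ⟨v, hv, rfl⟩ := mem_image.1 hq
      rw [mem_product, hφ]
      exact ⟨mem_image_of_mem _ hv, mem_image_of_mem _ hv⟩
    rw [e1]
    refine (Finset.sum_le_sum_of_subset_of_nonneg e2
      (fun q _ _ => mul_nonneg (gu0 _) (gw0 _))).trans ?_
    rw [Finset.sum_product]
    have e3 : ∀ u ∈ W.image (fun v => part (fun p => p ∣ d) v),
        ∑ y ∈ W.image (fun v => part (fun p => ¬ p ∣ d) v), gu u * gw y ≤ gu u * S1 := by
      intro u _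
      rw [← Finset.mul_sum]
      apply mul_le_mul_of_nonneg_left _ (gu0 u)
      rw [hS1, hgw]
      apply summable_mid.sum_le_tsum
      intro v _
      positivity
    refine (Finset.sum_le_sum e3).trans ?_
    rw [← Finset.sum_mul]
    apply mul_le_mul_of_nonneg_right _ hS10
    rw [hgu]
    apply sum_smooth
    · intro p hp
      exact Nat.prime_of_mem_primeFactors hp
    · intro u hu
      obtain ⟨v, hv, rfl⟩ := mem_image.1 hu
      refine ⟨(part_pos _ _).ne', ?_⟩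
      intro p hp
      rw [Nat.mem_primeFactors]
      have hpp := Nat.prime_of_mem_primeFactors hp
      exact ⟨hpp, (part_prime _ hpp (Nat.dvd_of_mem_primeFactors hp)).1, by omega⟩
  have e15 : (15 : ℝ) ^ d.primeFactors.card = 3 ^ d.primeFactors.card * 5 ^ d.primeFactors.card := by
    rw [← mul_pow]
    norm_num
  calc (F.card : ℝ) ≤ ((∑ v ∈ W, Ac (LL d v) ((Y : ℝ) * v) : ℕ) : ℝ) := by exact_mod_cast h1
    _ = ∑ v ∈ W, (Ac (LL d v) ((Y : ℝ) * v) : ℝ) := by push_cast; rfl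
    _ ≤ ∑ v ∈ W, (c0 * (Y : ℝ) ^ (2 / 3 : ℝ) * (3 ^ d.primeFactors.card / d) *
        (gu (part (fun p => p ∣ d) v) * gw (part (fun p => ¬ p ∣ d) v)) +
      C1 * (3 ^ d.primeFactors.card * (V ^ 2 * √(Y * V)))) := Finset.sum_le_sum h2
    _ = c0 * (Y : ℝ) ^ (2 / 3 : ℝ) * (3 ^ d.primeFactors.card / d) *
        (∑ v ∈ W, gu (part (fun p => p ∣ d) v) * gw (part (fun p => ¬ p ∣ d) v)) +
        C1 * (W.card * (3 ^ d.primeFactors.card * (V ^ 2 * √(Y * V)))) := by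
        rw [Finset.sum_add_distrib, ← Finset.mul_sum, Finset.sum_const, nsmul_eq_mul]
        ring
    _ ≤ c0 * (Y : ℝ) ^ (2 / 3 : ℝ) * (3 ^ d.primeFactors.card / d) *
        (5 ^ d.primeFactors.card * S1) +
        C1 * (V * (3 ^ d.primeFactors.card * (V ^ 2 * √(Y * V)))) := by
        gcongr
    _ = c0 * S1 * (15 ^ d.primeFactors.card / d * (Y : ℝ) ^ (2 / 3 : ℝ)) +
        C1 * (3 ^ d.primeFactors.card * (V ^ 3 * √(Y * V))) := by
        rw [e15]
        ring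
    _ ≤ (c0 * S1 + C1) * (15 ^ d.primeFactors.card / d * (Y : ℝ) ^ (2 / 3 : ℝ) +
      3 ^ d.primeFactors.card * (V ^ 3 * √(Y * V))) := by
        have e1 : 0 ≤ (15 : ℝ) ^ d.primeFactors.card / d * (Y : ℝ) ^ (2 / 3 : ℝ) := by positivity
        have e2 : 0 ≤ (3 : ℝ) ^ d.primeFactors.card * (V ^ 3 * √(Y * V)) := by positivity
        have e3 : 0 ≤ c0 * S1 := by positivity
        nlinarith [mul_nonneg e3 e2, mul_nonneg hC1.le e1]

end Pool.Agent.Lib.AbcE
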