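import Mathlib
import Pool.Agent.Lib.AbcE.Sm
import Pool.Agent.Lib.AbcE.Div
import Pool.Agent.Lib.AbcE.Dy
import Pool.Agent.Lib.AbcE.Final

/-!
# Almost every abc-triple dominates the unit equation of its own radical
-/

set_option autoImplicit false

open Finset Filter

namespace Pool.Agent.Lib.AbcE

open Pool.Agent.Lib.AbcG Pool.Agent.Lib.AbcD

theorem Good.wt_le {Y : ℕ} (hY : 1 ≤ Y) {t : ℕ × ℕ} (h : Good Y t) :
    (wt (Nn t) : ℝ) ≤ (Y : ℝ) ^ (4 / 10000 : ℝ) := by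
  have hy : (0 : ℝ) < Y := by exact_mod_cast hY
  obtain ⟨h1, h2, h3, h4, h5, h6⟩ := h
  have e : (rad (Nn t) : ℝ) * wt (Nn t) = Nn t := by exact_mod_cast tail_rad_mul_wt (Nn t)
  have b1 : (t.1 : ℝ) ≤ (Y : ℝ) ^ (1 / 3 + 1 / 10000 : ℝ) :=
    (by linarith [(Nat.cast_nonneg t.2 : (0 : ℝ) ≤ t.2)] : (t.1 : ℝ) ≤ t.1 + t.2).trans h6
  have b2 : (t.2 : ℝ) ≤ (Y : ℝ) ^ (1 / 3 + 1 / 10000 : ℝ) :=
    (by linarith [(Nat.cast_nonneg t.1 : (0 : ℝ) ≤ t.1)] : (t.2 : ℝ) ≤ t.1 + t.2).trans h6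
  have hN : (Nn t : ℝ) ≤ (Y : ℝ) ^ (1 + 3 / 10000 : ℝ) := by
    unfold Nn
    push_cast
    calc (t.1 : ℝ) * t.2 * (t.1 + t.2) ≤ (Y : ℝ) ^ (1 / 3 + 1 / 10000 : ℝ) *
          (Y : ℝ) ^ (1 / 3 + 1 / 10000 : ℝ) * (Y : ℝ) ^ (1 / 3 + 1 / 10000 : ℝ) := by gcongr
      _ = (Y : ℝ) ^ (1 + 3 / 10000 : ℝ) := by
        rw [← Real.rpow_add hy, ← Real.rpow_add hy]
        congr 1
        ring
  have h7 : (Y : ℝ) ^ (1 - 1 / 10000 : ℝ) * wt (Nn t) ≤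
      (Y : ℝ) ^ (1 - 1 / 10000 : ℝ) * (Y : ℝ) ^ (4 / 10000 : ℝ) := by
    rw [← Real.rpow_add hy]
    calc (Y : ℝ) ^ (1 - 1 / 10000 : ℝ) * wt (Nn t) ≤ (rad (Nn t) : ℝ) * wt (Nn t) := by gcongr
      _ = Nn t := e
      _ ≤ (Y : ℝ) ^ (1 + 3 / 10000 : ℝ) := hN
      _ = (Y : ℝ) ^ (1 - 1 / 10000 + 4 / 10000 : ℝ) := by
        congr 1
        ring
  exact le_of_mul_le_mul_left h7 (by positivity)

theorem cover_card {S R : Finset (ℕ × ℕ)}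
    (h : ∀ t ∈ S, ∃ t' ∈ R, rad (Nn t') ∣ rad (Nn t)) :
    (S.card : ℝ) ≤ ∑ t' ∈ R, ((S.filter (fun t => rad (Nn t') ∣ rad (Nn t))).card : ℝ) := by
  classical
  have h1 : S ⊆ R.biUnion (fun t' => S.filter (fun t => rad (Nn t') ∣ rad (Nn t))) := by
    intro t ht
    obtain ⟨t', h1, h2⟩ := h t ht
    rw [mem_biUnion]
    exact ⟨t', h1, mem_filter.2 ⟨ht, h2⟩⟩
  exact_mod_cast (card_le_card h1).trans card_biUnion_le

theorem two_pow_le_div (n : ℕ) (hn : n ≠ 0) : 2 ^ n.primeFactors.card ≤ n.divisors.card := by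
  rw [Nat.card_divisors hn, ← Finset.prod_const]
  apply Finset.prod_le_prod'
  intro p hp
  have := (Nat.Prime.factorization_pos_of_dvd (Nat.prime_of_mem_primeFactors hp) hn
    (Nat.dvd_of_mem_primeFactors hp))
  omega

/-- `15 ^ ω(d)` is small. -/
theorem fifteen_le : ∃ C : ℝ, 1 ≤ C ∧ ∀ d : ℕ, 1 ≤ d →
    (15 : ℝ) ^ d.primeFactors.card ≤ C * (d : ℝ) ^ (1 / 8 : ℝ) := by
  obtain ⟨C, hC, hdiv⟩ := Pool.Agent.Lib.P5632c9.card_divisors_le (1 / 32) (by norm_num)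
  refine ⟨C ^ 4, one_le_pow₀ hC, ?_⟩
  intro d hd
  have h1 := hdiv d (by omega)
  have h2 : ((2 : ℝ) ^ d.primeFactors.card) ≤ d.divisors.card := by
    exact_mod_cast two_pow_le_div d (by omega)
  have hd0 : (0 : ℝ) < d := by exact_mod_cast hd
  calc (15 : ℝ) ^ d.primeFactors.card ≤ 16 ^ d.primeFactors.card := by gcongr; norm_num
    _ = ((2 : ℝ) ^ d.primeFactors.card) ^ 4 := by
      rw [← pow_mul, mul_comm, pow_mul]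
      norm_num
    _ ≤ (C * (d : ℝ) ^ (1 / 32 : ℝ)) ^ 4 := by
      gcongr
      exact h2.trans h1
    _ = C ^ 4 * (d : ℝ) ^ (1 / 8 : ℝ) := by
      rw [mul_pow, ← Real.rpow_natCast ((d : ℝ) ^ (1 / 32 : ℝ)) 4, ← Real.rpow_mul hd0.le]
      norm_num

/-- Small common divisors. -/
theorem small_part : ∃ B : ℝ, 0 < B ∧ ∀ᶠ Y : ℕ in atTop, ∀ (D : ℝ) (S : Finset (ℕ × ℕ)), 1 ≤ D →
    (∀ t ∈ S, Good Y t ∧ ∃ t' : ℕ × ℕ, 0 < t'.1 ∧ 0 < t'.2 ∧ t'.1.Coprime t'.2 ∧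
      rad (Nn t') ∣ rad (Nn t) ∧ D < rad (Nn t') ∧ (rad (Nn t') : ℝ) ≤ (Y : ℝ) ^ (1 / 100 : ℝ)) →
    (S.card : ℝ) ≤ B * D ^ (-(5 / 24) : ℝ) * (Y : ℝ) ^ (2 / 3 : ℝ) := by
  classical
  obtain ⟨K, hK, hsc⟩ := small_count
  obtain ⟨C, hC, h15⟩ := fifteen_le
  obtain ⟨B, hB, htail⟩ := tail_sum (7 / 8) (by norm_num)
  refine ⟨K * (C + 1) * B, by positivity, ?_⟩
  filter_upwards [eventually_ge_atTop 1] with Y hY D S hD hS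
  have hy1 : (1 : ℝ) ≤ Y := by exact_mod_cast hY
  have hy : (0 : ℝ) < Y := by linarith
  have hD0 : 0 < D := by linarith
  obtain ⟨V, hV⟩ : ∃ V : ℝ, V = (Y : ℝ) ^ (4 / 10000 : ℝ) := ⟨_, rfl⟩
  have hV1 : 1 ≤ V := by rw [hV]; exact Real.one_le_rpow hy1 (by norm_num)
  obtain ⟨R, hR⟩ : ∃ R : Finset (ℕ × ℕ), R = (F_finite Y).toFinset.filter
      (fun t' => D < rad (Nn t') ∧ (rad (Nn t') : ℝ) ≤ (Y : ℝ) ^ (1 / 100 : ℝ)) := ⟨_, rfl⟩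
  have hRm : ∀ t', t' ∈ R ↔ InF Y t' ∧ D < rad (Nn t') ∧
      (rad (Nn t') : ℝ) ≤ (Y : ℝ) ^ (1 / 100 : ℝ) := by
    intro t'
    rw [hR, mem_filter, Set.Finite.mem_toFinset]
    rfl
  have h1 := cover_card (S := S) (R := R) (by
    intro t ht
    obtain ⟨g, t', a1, a2, a3, a4, a5, a6⟩ := hS t ht
    refine ⟨t', (hRm t').2 ⟨⟨a1, a2, a3, ?_⟩, a5, a6⟩, a4⟩
    exact (Nat.le_of_dvd (rad_pos _) a4).trans g.2.2.2.1)
  have h2 : ∀ t' ∈ R, ((S.filter (fun t => rad (Nn t') ∣ rad (Nn t))).card : ℝ) ≤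
      K * (C + 1) * (Y : ℝ) ^ (2 / 3 : ℝ) * (rad (Nn t') : ℝ) ^ (-(7 / 8) : ℝ) := by
    intro t' ht'
    obtain ⟨b1, b2, b3⟩ := (hRm t').1 ht'
    obtain ⟨d, hd⟩ : ∃ d, d = rad (Nn t') := ⟨_, rfl⟩
    have hd1 : 1 ≤ d := by rw [hd]; exact rad_pos _
    have hd0 : (0 : ℝ) < d := by exact_mod_cast hd1
    have hd1' : (1 : ℝ) ≤ d := by exact_mod_cast hd1
    rw [← hd] at b2 b3 ⊢
    have h3 := hsc Y d V hY hV1 hd1 (S.filter (fun t => d ∣ rad (Nn t))) (by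
      intro t ht
      rw [mem_filter] at ht
      have g := (hS t ht.1).1
      exact ⟨g.1, g.2.1, g.2.2.1, g.2.2.2.1, by rw [hV]; exact Good.wt_le hY g, ht.2⟩)
    refine h3.trans ?_
    have h4 : (15 : ℝ) ^ d.primeFactors.card / d ≤ C * (d : ℝ) ^ (-(7 / 8) : ℝ) := by
      rw [div_le_iff₀ hd0]
      have e : C * (d : ℝ) ^ (-(7 / 8) : ℝ) * d = C * (d : ℝ) ^ (1 / 8 : ℝ) := by
        nth_rewrite 2 [← Real.rpow_one (d : ℝ)]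
        rw [mul_assoc, ← Real.rpow_add hd0]
        norm_num
      rw [e]
      exact h15 d hd1
    have h5 : (3 : ℝ) ^ d.primeFactors.card * (V ^ 3 * √(Y * V)) ≤
        (Y : ℝ) ^ (2 / 3 : ℝ) * (d : ℝ) ^ (-(7 / 8) : ℝ) := by
      have h6 : (3 : ℝ) ^ d.primeFactors.card ≤ (d : ℝ) ^ 2 := tail_three_pow_le hd1
      have h7 : √((Y : ℝ) * V) ≤ (Y : ℝ) ^ (1 / 2 : ℝ) * V := by
        rw [Real.sqrt_le_left (by positivity), mul_pow, ← Real.sqrt_eq_rpow, Real.sq_sqrt hy.le]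
        have : V ≤ V ^ 2 := by nlinarith
        gcongr
      have h8 : (d : ℝ) ^ 2 ≤ (Y : ℝ) ^ (1 / 50 : ℝ) := by
        calc (d : ℝ) ^ 2 ≤ ((Y : ℝ) ^ (1 / 100 : ℝ)) ^ 2 := by gcongr
          _ = (Y : ℝ) ^ (1 / 50 : ℝ) := by
            rw [← Real.rpow_natCast, ← Real.rpow_mul hy.le]
            norm_num
      have h9 : (Y : ℝ) ^ (-(7 / 800) : ℝ) ≤ (d : ℝ) ^ (-(7 / 8) : ℝ) := by
        have e : (Y : ℝ) ^ (-(7 / 800) : ℝ) = ((Y : ℝ) ^ (1 / 100 : ℝ)) ^ (-(7 / 8) : ℝ) := by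
          rw [← Real.rpow_mul hy.le]
          norm_num
        rw [e]
        exact Real.rpow_le_rpow_of_nonpos hd0 b3 (by norm_num)
      have h10 : V ^ 3 * ((Y : ℝ) ^ (1 / 2 : ℝ) * V) = (Y : ℝ) ^ (1 / 2 + 16 / 10000 : ℝ) := by
        have e : V ^ 3 * ((Y : ℝ) ^ (1 / 2 : ℝ) * V) = (Y : ℝ) ^ (1 / 2 : ℝ) * V ^ 4 := by ring
        rw [e, hV, ← Real.rpow_natCast, ← Real.rpow_mul hy.le, ← Real.rpow_add hy]
        norm_num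
      calc (3 : ℝ) ^ d.primeFactors.card * (V ^ 3 * √(Y * V)) ≤
            (Y : ℝ) ^ (1 / 50 : ℝ) * (V ^ 3 * ((Y : ℝ) ^ (1 / 2 : ℝ) * V)) := by
            gcongr
            exact h6.trans h8
        _ = (Y : ℝ) ^ (1 / 50 + (1 / 2 + 16 / 10000) : ℝ) := by
            rw [h10, ← Real.rpow_add hy]
        _ ≤ (Y : ℝ) ^ (2 / 3 + -(7 / 800) : ℝ) :=
            Real.rpow_le_rpow_of_exponent_le hy1 (by norm_num)
        _ = (Y : ℝ) ^ (2 / 3 : ℝ) * (Y : ℝ) ^ (-(7 / 800) : ℝ) := Real.rpow_add hy _ _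
        _ ≤ (Y : ℝ) ^ (2 / 3 : ℝ) * (d : ℝ) ^ (-(7 / 8) : ℝ) := by gcongr
    calc K * (15 ^ d.primeFactors.card / d * (Y : ℝ) ^ (2 / 3 : ℝ) +
          3 ^ d.primeFactors.card * (V ^ 3 * √(Y * V))) ≤
          K * (C * (d : ℝ) ^ (-(7 / 8) : ℝ) * (Y : ℝ) ^ (2 / 3 : ℝ) +
            (Y : ℝ) ^ (2 / 3 : ℝ) * (d : ℝ) ^ (-(7 / 8) : ℝ)) := by gcongr
      _ = _ := by ring
  refine h1.trans ((sum_le_sum h2).trans ?_)
  rw [← Finset.mul_sum]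
  have h3 := htail D R hD (by
    intro t ht
    obtain ⟨b1, b2, b3⟩ := (hRm t).1 ht
    exact ⟨b1.1, b1.2.1, b1.2.2.1, b2⟩)
  have e : (2 / 3 - 7 / 8 : ℝ) = -(5 / 24) := by norm_num
  rw [e] at h3
  calc K * (C + 1) * (Y : ℝ) ^ (2 / 3 : ℝ) * ∑ t ∈ R, (rad (Nn t) : ℝ) ^ (-(7 / 8) : ℝ) ≤
        K * (C + 1) * (Y : ℝ) ^ (2 / 3 : ℝ) * (B * D ^ (-(5 / 24) : ℝ)) := by gcongr
    _ = _ := by ring

/-- Middle common divisors. -/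
theorem mid_part (η : ℝ) (hη : 0 < η) (hη2 : η ≤ 1 / 1000) : ∀ᶠ Y : ℕ in atTop,
    ∀ S : Finset (ℕ × ℕ),
    (∀ t ∈ S, Good Y t ∧ ∃ t' : ℕ × ℕ, 0 < t'.1 ∧ 0 < t'.2 ∧ t'.1.Coprime t'.2 ∧
      rad (Nn t') ∣ rad (Nn t) ∧ (Y : ℝ) ^ (1 / 100 : ℝ) < rad (Nn t') ∧
        (rad (Nn t') : ℝ) ≤ (Y : ℝ) ^ (1 - η)) →
    (S.card : ℝ) ≤ (Y : ℝ) ^ (2 / 3 - η / 4) := by
  classical
  obtain ⟨C, hC, hdiv⟩ := Pool.Agent.Lib.P5632c9.card_divisors_le (η / 16) (by positivity)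
  obtain ⟨C2, hC2, hcount⟩ := count_le
  obtain ⟨B, hB, htail⟩ := tail_sum 1 (by norm_num)
  have hlarge : ∀ᶠ Y : ℕ in atTop, C ^ 4 * 2 * (C2 + 4 * B) ≤ (Y : ℝ) ^ (η / 12) := by
    have h1 : Tendsto (fun Y : ℕ => (Y : ℝ) ^ (η / 12)) atTop atTop :=
      (tendsto_rpow_atTop (by positivity)).comp tendsto_natCast_atTop_atTop
    exact h1.eventually (eventually_ge_atTop _)
  have hlarge2 : ∀ᶠ Y : ℕ in atTop, (2 : ℝ) ≤ (Y : ℝ) ^ (1 / 2 : ℝ) := by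
    have h1 : Tendsto (fun Y : ℕ => (Y : ℝ) ^ (1 / 2 : ℝ)) atTop atTop :=
      (tendsto_rpow_atTop (by positivity)).comp tendsto_natCast_atTop_atTop
    exact h1.eventually (eventually_ge_atTop _)
  filter_upwards [hlarge, hlarge2, eventually_ge_atTop 1] with Y hl hl2 hY S hS
  have hy1 : (1 : ℝ) ≤ Y := by exact_mod_cast hY
  have hy : (0 : ℝ) < Y := by linarith
  obtain ⟨Z, hZ⟩ : ∃ Z : ℕ, Z = ⌊(Y : ℝ) ^ (1 / 3 + 1 / 10000 : ℝ)⌋₊ := ⟨_, rfl⟩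
  have hZ1 : (Z : ℝ) ≤ (Y : ℝ) ^ (1 / 3 + 1 / 10000 : ℝ) := by
    rw [hZ]
    exact Nat.floor_le (by positivity)
  have hZ0 : 1 ≤ Z := by
    rw [hZ]
    apply Nat.le_floor
    rw [Nat.cast_one]
    exact Real.one_le_rpow hy1 (by norm_num)
  have hZY : 2 * Z ≤ Y := by
    have h1 : 2 * (Z : ℝ) ≤ (Y : ℝ) ^ (1 / 2 : ℝ) * (Y : ℝ) ^ (1 / 3 + 1 / 10000 : ℝ) := by gcongr
    rw [← Real.rpow_add hy] at h1
    have h2 : (Y : ℝ) ^ (1 / 2 + (1 / 3 + 1 / 10000) : ℝ) ≤ (Y : ℝ) ^ (1 : ℝ) :=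
      Real.rpow_le_rpow_of_exponent_le hy1 (by norm_num)
    rw [Real.rpow_one] at h2
    exact_mod_cast h1.trans h2
  obtain ⟨E, hE⟩ : ∃ E : ℝ, E = C * (Y : ℝ) ^ (η / 16) := ⟨_, rfl⟩
  have hE0 : 0 < E := by rw [hE]; positivity
  have hclog : ((Nat.clog 2 Z : ℝ) + 1) ≤ E := by
    have h1 : (2 ^ Nat.clog 2 Z).divisors.card = Nat.clog 2 Z + 1 := by
      rw [Nat.divisors_prime_pow Nat.prime_two, card_map, card_range]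
    have h2 := hdiv (2 ^ Nat.clog 2 Z) (by positivity)
    rw [h1] at h2
    have h3 : 2 ^ Nat.clog 2 Z ≤ Y := by
      refine le_trans ?_ hZY
      rcases Nat.lt_or_ge 1 Z with h | h
      · have h1 := Nat.pow_pred_clog_lt_self (b := 2) (by norm_num) h
        have h2 : 0 < Nat.clog 2 Z := Nat.clog_pos (by norm_num) h
        have h3 : Nat.clog 2 Z = (Nat.clog 2 Z).pred + 1 := by
          rw [Nat.pred_eq_sub_one]
          omega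
        rw [h3, pow_succ]
        omega
      · have h1 : Z = 1 := by omega
        rw [h1]
        simp
    have h4 : (((2 ^ Nat.clog 2 Z : ℕ)) : ℝ) ^ (η / 16) ≤ (Y : ℝ) ^ (η / 16) :=
      Real.rpow_le_rpow (Nat.cast_nonneg _) (by exact_mod_cast h3) (by positivity)
    push_cast at h2 h4
    rw [hE]
    exact h2.trans (mul_le_mul_of_nonneg_left h4 (by linarith))
  obtain ⟨R, hR⟩ : ∃ R : Finset (ℕ × ℕ), R = (F_finite Y).toFinset.filter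
      (fun t' => (Y : ℝ) ^ (1 / 100 : ℝ) < rad (Nn t') ∧ (rad (Nn t') : ℝ) ≤ (Y : ℝ) ^ (1 - η)) :=
    ⟨_, rfl⟩
  have hRm : ∀ t', t' ∈ R ↔ InF Y t' ∧ (Y : ℝ) ^ (1 / 100 : ℝ) < rad (Nn t') ∧
      (rad (Nn t') : ℝ) ≤ (Y : ℝ) ^ (1 - η) := by
    intro t'
    rw [hR, mem_filter, Set.Finite.mem_toFinset]
    rfl
  have h1 := cover_card (S := S) (R := R) (by
    intro t ht
    obtain ⟨g, t', a1, a2, a3, a4, a5, a6⟩ := hS t ht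
    refine ⟨t', (hRm t').2 ⟨⟨a1, a2, a3, ?_⟩, a5, a6⟩, a4⟩
    exact (Nat.le_of_dvd (rad_pos _) a4).trans g.2.2.2.1)
  have h2 : ∀ t' ∈ R, ((S.filter (fun t => rad (Nn t') ∣ rad (Nn t))).card : ℝ) ≤
      E ^ 4 * (1 + 4 * (Y : ℝ) ^ (2 / 3 + 2 / 10000 : ℝ) * (rad (Nn t') : ℝ) ^ (-1 : ℝ)) := by
    intro t' ht'
    obtain ⟨b1, b2, b3⟩ := (hRm t').1 ht'
    obtain ⟨d, hd⟩ : ∃ d, d = rad (Nn t') := ⟨_, rfl⟩
    have hd1 : 1 ≤ d := by rw [hd]; exact rad_pos _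
    have hd0 : (0 : ℝ) < d := by exact_mod_cast hd1
    have hdY : d ≤ Y := by rw [hd]; exact b1.2.2.2
    rw [← hd]
    have h3 := div_count d Z hd1 (S.filter (fun t => d ∣ rad (Nn t))) (by
      intro t ht
      rw [mem_filter] at ht
      have g := (hS t ht.1).1
      refine ⟨g.1, g.2.1, g.2.2.1, ?_, ht.2.trans (tail_rad_dvd _)⟩
      rw [hZ]
      apply Nat.le_floor
      push_cast
      exact g.2.2.2.2.2)
    refine h3.trans ?_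
    have h4 : (d.divisors.card : ℝ) ≤ E := by
      refine (hdiv d (by omega)).trans ?_
      rw [hE]
      have : (d : ℝ) ^ (η / 16) ≤ (Y : ℝ) ^ (η / 16) :=
        Real.rpow_le_rpow (Nat.cast_nonneg _) (by exact_mod_cast hdY) (by positivity)
      exact mul_le_mul_of_nonneg_left this (by linarith)
    have h5 : 4 * (Z : ℝ) ^ 2 / d ≤ 4 * (Y : ℝ) ^ (2 / 3 + 2 / 10000 : ℝ) * (d : ℝ) ^ (-1 : ℝ) := by
      rw [Real.rpow_neg_one, ← div_eq_mul_inv]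
      have h6 : (Z : ℝ) ^ 2 ≤ (Y : ℝ) ^ (2 / 3 + 2 / 10000 : ℝ) := by
        calc (Z : ℝ) ^ 2 ≤ ((Y : ℝ) ^ (1 / 3 + 1 / 10000 : ℝ)) ^ 2 := by gcongr
          _ = (Y : ℝ) ^ (2 / 3 + 2 / 10000 : ℝ) := by
            rw [← Real.rpow_natCast, ← Real.rpow_mul hy.le]
            norm_num
      gcongr
    calc (d.divisors.card : ℝ) ^ 3 * (Nat.clog 2 Z + 1) * (1 + 4 * (Z : ℝ) ^ 2 / d) ≤
          E ^ 3 * E * (1 + 4 * (Y : ℝ) ^ (2 / 3 + 2 / 10000 : ℝ) * (d : ℝ) ^ (-1 : ℝ)) := by gcongr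
      _ = _ := by ring
  refine h1.trans ((sum_le_sum h2).trans ?_)
  rw [← Finset.mul_sum, Finset.sum_add_distrib, sum_const, nsmul_eq_mul, mul_one, ← Finset.mul_sum]
  have h3 := htail ((Y : ℝ) ^ (1 / 100 : ℝ)) R (Real.one_le_rpow hy1 (by norm_num)) (by
    intro t ht
    obtain ⟨b1, b2, b3⟩ := (hRm t).1 ht
    exact ⟨b1.1, b1.2.1, b1.2.2.1, b2⟩)
  have hη1 : 0 ≤ 1 - η := by linarith
  have h4 : (R.card : ℝ) ≤ C2 * (Y : ℝ) ^ (2 / 3 * (1 - η)) := by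
    have h5 := hcount ⌊(Y : ℝ) ^ (1 - η)⌋₊ R (Nat.le_floor (by
      rw [Nat.cast_one]
      exact Real.one_le_rpow hy1 hη1)) (by
      intro t ht
      obtain ⟨b1, b2, b3⟩ := (hRm t).1 ht
      exact ⟨b1.1, b1.2.1, b1.2.2.1, Nat.le_floor b3⟩)
    refine h5.trans ?_
    have h6 : ((⌊(Y : ℝ) ^ (1 - η)⌋₊ : ℕ) : ℝ) ^ (2 / 3 : ℝ) ≤ ((Y : ℝ) ^ (1 - η)) ^ (2 / 3 : ℝ) :=
      Real.rpow_le_rpow (Nat.cast_nonneg _) (Nat.floor_le (by positivity)) (by norm_num)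
    rw [← Real.rpow_mul hy.le, mul_comm (1 - η)] at h6
    exact mul_le_mul_of_nonneg_left h6 hC2.le
  have e4 : E ^ 4 = C ^ 4 * (Y : ℝ) ^ (η / 4) := by
    rw [hE, mul_pow, ← Real.rpow_natCast ((Y : ℝ) ^ (η / 16)) 4, ← Real.rpow_mul hy.le]
    congr 2
    push_cast
    ring
  have h5 : (Y : ℝ) ^ (2 / 3 * (1 - η)) ≤ (Y : ℝ) ^ (2 / 3 - 7 * η / 12) :=
    Real.rpow_le_rpow_of_exponent_le hy1 (by linarith)
  have h6 : (Y : ℝ) ^ (2 / 3 + 2 / 10000 : ℝ) * ((Y : ℝ) ^ (1 / 100 : ℝ)) ^ (2 / 3 - 1 : ℝ) ≤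
      (Y : ℝ) ^ (2 / 3 - 7 * η / 12) := by
    rw [← Real.rpow_mul hy.le, ← Real.rpow_add hy]
    apply Real.rpow_le_rpow_of_exponent_le hy1
    linarith
  obtain ⟨X, hX⟩ : ∃ X : ℝ, X = (Y : ℝ) ^ (2 / 3 - 7 * η / 12) := ⟨_, rfl⟩
  rw [← hX] at h5 h6
  have hX0 : 0 < X := by rw [hX]; positivity
  calc E ^ 4 * ((R.card : ℝ) + 4 * (Y : ℝ) ^ (2 / 3 + 2 / 10000 : ℝ) *
        ∑ t ∈ R, (rad (Nn t) : ℝ) ^ (-1 : ℝ)) ≤
        E ^ 4 * (C2 * X + 4 * (Y : ℝ) ^ (2 / 3 + 2 / 10000 : ℝ) *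
          (B * ((Y : ℝ) ^ (1 / 100 : ℝ)) ^ (2 / 3 - 1 : ℝ))) := by
        gcongr
        exact h4.trans (mul_le_mul_of_nonneg_left h5 hC2.le)
    _ = E ^ 4 * (C2 * X + 4 * B * ((Y : ℝ) ^ (2 / 3 + 2 / 10000 : ℝ) *
          ((Y : ℝ) ^ (1 / 100 : ℝ)) ^ (2 / 3 - 1 : ℝ))) := by ring
    _ ≤ E ^ 4 * (C2 * X + 4 * B * X) := by gcongr
    _ = (C ^ 4 * (C2 + 4 * B)) * ((Y : ℝ) ^ (η / 4) * X) := by
        rw [e4]
        ring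
    _ ≤ (Y : ℝ) ^ (η / 12) * ((Y : ℝ) ^ (η / 4) * X) := by
        apply mul_le_mul_of_nonneg_right _ (by positivity)
        refine le_trans ?_ hl
        have : 0 ≤ C ^ 4 * (C2 + 4 * B) := by positivity
        nlinarith
    _ = (Y : ℝ) ^ (2 / 3 - η / 4) := by
        rw [hX, ← Real.rpow_add hy, ← Real.rpow_add hy]
        congr 1
        ring

/-- Another triple composed of the primes of `t`, with radical more than `D`. -/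
def Sub (D : ℝ) (t : ℕ × ℕ) : Prop := ∃ t' : ℕ × ℕ, 0 < t'.1 ∧ 0 < t'.2 ∧ t'.1.Coprime t'.2 ∧
  rad (Nn t') ∣ rad (Nn t) ∧ t' ≠ t ∧ t' ≠ t.swap ∧ D < rad (Nn t')

/-- Almost every triple dominates the unit equation of its radical. -/
theorem supp_few : ∃ B δ : ℝ, 0 < B ∧ 0 < δ ∧ ∀ᶠ Y : ℕ in atTop, ∀ (D : ℝ) (S : Finset (ℕ × ℕ)),
    1 ≤ D → (∀ t ∈ S, InF Y t ∧ Sub D t) →
      (S.card : ℝ) ≤ B * D ^ (-δ) * (Y : ℝ) ^ (2 / 3 : ℝ) := by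
  classical
  obtain ⟨κ1, hκ1, hκ1', hnear⟩ := near_few
  obtain ⟨κ2, hκ2, hκ2', hbad⟩ := bad_few
  obtain ⟨B, hB, hsmall⟩ := small_part
  obtain ⟨η, hη⟩ : ∃ η : ℝ, η = min (κ1 / 4) (1 / 1000) := ⟨_, rfl⟩
  have hη0 : 0 < η := by rw [hη]; exact lt_min (by positivity) (by norm_num)
  have hη1 : η ≤ κ1 / 4 := by rw [hη]; exact min_le_left _ _
  have hη2 : η ≤ 1 / 1000 := by rw [hη]; exact min_le_right _ _
  obtain ⟨δ, hδ⟩ : ∃ δ : ℝ, δ = min (η / 4) κ2 := ⟨_, rfl⟩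
  have hδ0 : 0 < δ := by rw [hδ]; exact lt_min (by positivity) hκ2
  have hδ1 : δ ≤ η / 4 := by rw [hδ]; exact min_le_left _ _
  have hδ2 : δ ≤ κ2 := by rw [hδ]; exact min_le_right _ _
  refine ⟨B + 4, δ, by positivity, hδ0, ?_⟩
  filter_upwards [hnear, hbad, hsmall, mid_part η hη0 hη2, eventually_ge_atTop 1]
    with Y h1 h2 h3 h4 hY D S hD hS
  have hy1 : (1 : ℝ) ≤ Y := by exact_mod_cast hY
  have hy : (0 : ℝ) < Y := by linarith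
  have hD0 : 0 < D := by linarith
  have hYp : 0 < (Y : ℝ) ^ (2 / 3 : ℝ) := by positivity
  rcases lt_or_ge (Y : ℝ) D with hDY | hDY
  · have : S = ∅ := by
      rw [eq_empty_iff_forall_notMem]
      intro t ht
      obtain ⟨a1, t', b1, b2, b3, b4, b5, b6, b7⟩ := hS t ht
      have : (rad (Nn t') : ℝ) ≤ Y := by
        exact_mod_cast (Nat.le_of_dvd (rad_pos _) b4).trans a1.2.2.2
      linarith
    rw [this, card_empty, Nat.cast_zero]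
    positivity
  -- the error term
  have hT : ∀ κ : ℝ, δ ≤ κ → (Y : ℝ) ^ (2 / 3 - κ) ≤ D ^ (-δ) * (Y : ℝ) ^ (2 / 3 : ℝ) := by
    intro κ hκ
    have e1 : (Y : ℝ) ^ (2 / 3 - κ) ≤ (Y : ℝ) ^ (2 / 3 - δ) :=
      Real.rpow_le_rpow_of_exponent_le hy1 (by linarith)
    have e2 : (Y : ℝ) ^ (2 / 3 - δ) = (Y : ℝ) ^ (-δ) * (Y : ℝ) ^ (2 / 3 : ℝ) := by
      rw [← Real.rpow_add hy]
      congr 1
      ring
    have e3 : (Y : ℝ) ^ (-δ) ≤ D ^ (-δ) :=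
      Real.rpow_le_rpow_of_nonpos hD0 hDY (by linarith)
    rw [e2] at e1
    exact e1.trans (mul_le_mul_of_nonneg_right e3 hYp.le)
  -- the parts
  have hch : ∀ t : ℕ × ℕ, ∃ t' : ℕ × ℕ, t ∈ S → 0 < t'.1 ∧ 0 < t'.2 ∧ t'.1.Coprime t'.2 ∧
      rad (Nn t') ∣ rad (Nn t) ∧ t' ≠ t ∧ t' ≠ t.swap ∧ D < rad (Nn t') := by
    intro t
    by_cases ht : t ∈ S
    · obtain ⟨a1, t', b⟩ := hS t ht
      exact ⟨t', fun _ => b⟩
    · exact ⟨t, fun h => absurd h ht⟩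
  choose g hg using hch
  have p0 := h2 (S.filter (fun t => ¬ Good Y t)) (by
    intro t ht
    rw [mem_filter] at ht
    exact ⟨(hS t ht.1).1, ht.2⟩)
  have p1 : ((S.filter (fun t => (Y : ℝ) ^ (1 - η) < rad (Nn (g t)))).card : ℝ) ≤
      (Y : ℝ) ^ (2 / 3 - κ1) := by
    obtain ⟨Q, hQ⟩ : ∃ Q, Q = S.filter (fun t => (Y : ℝ) ^ (1 - η) < rad (Nn (g t))) := ⟨_, rfl⟩
    rw [← hQ]
    have hinj : Set.InjOn (fun t => (t, g t)) (Q : Set (ℕ × ℕ)) := by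
      intro t _ t' _ h
      simp only [Prod.mk.injEq] at h
      exact h.1
    rw [← card_image_of_injOn hinj]
    apply h1
    intro p hp
    obtain ⟨t, ht, rfl⟩ := mem_image.1 hp
    rw [hQ, mem_filter] at ht
    obtain ⟨b1, b2, b3, b4, b5, b6, b7⟩ := hg t ht.1
    have a1 := (hS t ht.1).1
    have hle : rad (Nn (g t)) ≤ Y := (Nat.le_of_dvd (rad_pos _) b4).trans a1.2.2.2
    have hgcd : Nat.gcd (rad (Nn t)) (rad (Nn (g t))) = rad (Nn (g t)) := Nat.gcd_eq_right b4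
    have hone : 1 ≤ (Y : ℝ) ^ η := Real.one_le_rpow hy1 hη0.le
    have hmul : (Y : ℝ) ^ η * (Y : ℝ) ^ (1 - η) = Y := by
      rw [← Real.rpow_add hy]
      have : η + (1 - η) = 1 := by ring
      rw [this, Real.rpow_one]
    refine ⟨a1, ⟨b1, b2, b3, hle⟩, Near.mono hY hη1 ⟨?_, ?_, b5, b6⟩⟩
    · simp only
      rw [hgcd]
      calc (rad (Nn t) : ℝ) ≤ Y := by exact_mod_cast a1.2.2.2
        _ = (Y : ℝ) ^ η * (Y : ℝ) ^ (1 - η) := hmul.symm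
        _ ≤ (Y : ℝ) ^ η * rad (Nn (g t)) := by
          have := ht.2.le
          gcongr
    · simp only
      rw [hgcd]
      exact le_mul_of_one_le_left (Nat.cast_nonneg _) hone
  have p2 := h4 (S.filter (fun t => Good Y t ∧ (Y : ℝ) ^ (1 / 100 : ℝ) < rad (Nn (g t)) ∧
      (rad (Nn (g t)) : ℝ) ≤ (Y : ℝ) ^ (1 - η))) (by
    intro t ht
    rw [mem_filter] at ht
    obtain ⟨b1, b2, b3, b4, b5, b6, b7⟩ := hg t ht.1
    exact ⟨ht.2.1, g t, b1, b2, b3, b4, ht.2.2.1, ht.2.2.2⟩)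
  have p3 := h3 D (S.filter (fun t => Good Y t ∧
      (rad (Nn (g t)) : ℝ) ≤ (Y : ℝ) ^ (1 / 100 : ℝ))) hD (by
    intro t ht
    rw [mem_filter] at ht
    obtain ⟨b1, b2, b3, b4, b5, b6, b7⟩ := hg t ht.1
    exact ⟨ht.2.1, g t, b1, b2, b3, b4, b7, ht.2.2⟩)
  obtain ⟨S0, hS0⟩ : ∃ S0, S0 = S.filter (fun t => ¬ Good Y t) := ⟨_, rfl⟩
  obtain ⟨S1, hS1⟩ : ∃ S1, S1 = S.filter (fun t => (Y : ℝ) ^ (1 - η) < rad (Nn (g t))) := ⟨_, rfl⟩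
  obtain ⟨S2, hS2⟩ : ∃ S2, S2 = S.filter (fun t => Good Y t ∧
    (Y : ℝ) ^ (1 / 100 : ℝ) < rad (Nn (g t)) ∧ (rad (Nn (g t)) : ℝ) ≤ (Y : ℝ) ^ (1 - η)) :=
    ⟨_, rfl⟩
  obtain ⟨S3, hS3⟩ : ∃ S3, S3 = S.filter (fun t => Good Y t ∧
    (rad (Nn (g t)) : ℝ) ≤ (Y : ℝ) ^ (1 / 100 : ℝ)) := ⟨_, rfl⟩
  rw [← hS0] at p0
  rw [← hS1] at p1
  rw [← hS2] at p2
  rw [← hS3] at p3
  have hcover : S ⊆ (S0 ∪ S1) ∪ (S2 ∪ S3) := by
    intro t ht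
    rw [mem_union, mem_union, mem_union, hS0, hS1, hS2, hS3, mem_filter, mem_filter, mem_filter,
      mem_filter]
    by_cases c0 : Good Y t
    · by_cases c1 : (Y : ℝ) ^ (1 - η) < rad (Nn (g t))
      · exact Or.inl (Or.inr ⟨ht, c1⟩)
      · by_cases c2 : (Y : ℝ) ^ (1 / 100 : ℝ) < rad (Nn (g t))
        · exact Or.inr (Or.inl ⟨ht, c0, c2, not_lt.1 c1⟩)
        · exact Or.inr (Or.inr ⟨ht, c0, not_lt.1 c2⟩)
    · exact Or.inl (Or.inl ⟨ht, c0⟩)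
  have hc : (S.card : ℝ) ≤ ((S0.card : ℝ) + S1.card) + (S2.card + S3.card) := by
    have k1 := card_le_card hcover
    have k2 := card_union_le (S0 ∪ S1) (S2 ∪ S3)
    have k3 := card_union_le S0 S1
    have k4 := card_union_le S2 S3
    exact_mod_cast k1.trans (k2.trans (Nat.add_le_add k3 k4))
  have q0 := hT κ2 hδ2
  have q1 := hT κ1 (by linarith)
  have q2 := hT (η / 4) hδ1
  have q3 : D ^ (-(5 / 24) : ℝ) ≤ D ^ (-δ) :=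
    Real.rpow_le_rpow_of_exponent_le hD (by linarith)
  obtain ⟨X, hX⟩ : ∃ X : ℝ, X = D ^ (-δ) * (Y : ℝ) ^ (2 / 3 : ℝ) := ⟨_, rfl⟩
  rw [← hX] at q0 q1 q2
  have q4 : B * D ^ (-(5 / 24) : ℝ) * (Y : ℝ) ^ (2 / 3 : ℝ) ≤ B * X := by
    rw [hX, mul_assoc]
    gcongr
  have hfin : (B + 4) * D ^ (-δ) * (Y : ℝ) ^ (2 / 3 : ℝ) = (B + 4) * X := by
    rw [hX]
    ring
  rw [hfin]
  linarith

end Pool.Agent.Lib.AbcE
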