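import Mathlib
import Pool.Agent.Lib.AbcE.Supp
import Pool.Agent.Lib.AbcU.Tail
import Pool.Agent.Lib.AbcU.Moment

/-!
# Almost every abc-triple dominates the unit equation of its radical: sharp exponents
-/

set_option autoImplicit false

open Finset Filter

namespace Pool.Agent.Lib.AbcE

open Pool.Agent.Lib.AbcG Pool.Agent.Lib.AbcD

/-- `15 ^ ω(d)` is small. -/
theorem fifteen_le' (ε : ℝ) (hε : 0 < ε) : ∃ C : ℝ, 1 ≤ C ∧ ∀ d : ℕ, 1 ≤ d →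
    (15 : ℝ) ^ d.primeFactors.card ≤ C * (d : ℝ) ^ ε := by
  obtain ⟨C, hC, hdiv⟩ := Pool.Agent.Lib.P5632c9.card_divisors_le (ε / 4) (by positivity)
  refine ⟨C ^ 4, one_le_pow₀ hC, ?_⟩
  intro d hd
  have h1 := hdiv d (by omega)
  have h2 : ((2 : ℝ) ^ d.primeFactors.card) ≤ d.divisors.card := by
    exact_mod_cast two_pow_le_div d (by omega)
  have hd0 : (0 : ℝ) < d := by exact_mod_cast hd
  calc (15 : ℝ) ^ d.primeFactors.card ≤ 16 ^ d.primeFactors.card := by gcongr; norm_num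
    _ = ((2 : ℝ) ^ d.primeFactors.card) ^ 4 := by
      rw [← pow_mul, mul_comm, pow_mul]
      norm_num
    _ ≤ (C * (d : ℝ) ^ (ε / 4)) ^ 4 := by
      gcongr
      exact h2.trans h1
    _ = C ^ 4 * (d : ℝ) ^ ε := by
      rw [mul_pow, ← Real.rpow_natCast ((d : ℝ) ^ (ε / 4)) 4, ← Real.rpow_mul hd0.le]
      congr 2
      push_cast
      ring

/-- Small common divisors: the number of good triples whose radical is divisible by the radical of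
a member of `R`. -/
theorem small_gen (s : ℝ) (hs0 : 0 < s) (hs : s < 1) : ∃ K : ℝ, 0 < K ∧ ∀ᶠ Y : ℕ in atTop,
    ∀ R S : Finset (ℕ × ℕ), (∀ t' ∈ R, (rad (Nn t') : ℝ) ≤ (Y : ℝ) ^ (1 / 100 : ℝ)) →
    (∀ t ∈ S, Good Y t ∧ ∃ t' ∈ R, rad (Nn t') ∣ rad (Nn t)) →
    (S.card : ℝ) ≤ K * (Y : ℝ) ^ (2 / 3 : ℝ) * ∑ t' ∈ R, (rad (Nn t') : ℝ) ^ (-s) := by
  classical
  obtain ⟨K, hK, hsc⟩ := small_count
  obtain ⟨C, hC, h15⟩ := fifteen_le' (1 - s) (by linarith)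
  refine ⟨K * (C + 1), by positivity, ?_⟩
  filter_upwards [eventually_ge_atTop 1] with Y hY R S hR hS
  have hy1 : (1 : ℝ) ≤ Y := by exact_mod_cast hY
  have hy : (0 : ℝ) < Y := by linarith
  obtain ⟨V, hV⟩ : ∃ V : ℝ, V = (Y : ℝ) ^ (4 / 10000 : ℝ) := ⟨_, rfl⟩
  have hV1 : 1 ≤ V := by rw [hV]; exact Real.one_le_rpow hy1 (by norm_num)
  have h1 := cover_card (S := S) (R := R) (fun t ht => (hS t ht).2)
  have h2 : ∀ t' ∈ R, ((S.filter (fun t => rad (Nn t') ∣ rad (Nn t))).card : ℝ) ≤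
      K * (C + 1) * (Y : ℝ) ^ (2 / 3 : ℝ) * (rad (Nn t') : ℝ) ^ (-s) := by
    intro t' ht'
    have b3 := hR t' ht'
    obtain ⟨d, hd⟩ : ∃ d, d = rad (Nn t') := ⟨_, rfl⟩
    have hd1 : 1 ≤ d := by rw [hd]; exact rad_pos _
    have hd0 : (0 : ℝ) < d := by exact_mod_cast hd1
    have hd1' : (1 : ℝ) ≤ d := by exact_mod_cast hd1
    rw [← hd] at b3 ⊢
    have h3 := hsc Y d V hY hV1 hd1 (S.filter (fun t => d ∣ rad (Nn t))) (by
      intro t ht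
      rw [mem_filter] at ht
      have g := (hS t ht.1).1
      exact ⟨g.1, g.2.1, g.2.2.1, g.2.2.2.1, by rw [hV]; exact Good.wt_le hY g, ht.2⟩)
    refine h3.trans ?_
    have h4 : (15 : ℝ) ^ d.primeFactors.card / d ≤ C * (d : ℝ) ^ (-s) := by
      rw [div_le_iff₀ hd0]
      have e : C * (d : ℝ) ^ (-s) * d = C * (d : ℝ) ^ (1 - s) := by
        nth_rewrite 2 [← Real.rpow_one (d : ℝ)]
        rw [mul_assoc, ← Real.rpow_add hd0]
        congr 2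
        ring
      rw [e]
      exact h15 d hd1
    have h5 : (3 : ℝ) ^ d.primeFactors.card * (V ^ 3 * √(Y * V)) ≤
        (Y : ℝ) ^ (2 / 3 : ℝ) * (d : ℝ) ^ (-s) := by
      have h6 : (3 : ℝ) ^ d.primeFactors.card ≤ (d : ℝ) ^ 2 := tail_three_pow_le hd1
      have h7 : √((Y : ℝ) * V) ≤ (Y : ℝ) ^ (1 / 2 : ℝ) * V := by
        rw [Real.sqrt_le_left (by positivity), mul_pow, ← Real.sqrt_eq_rpow, Real.sq_sqrt hy.le]
        have : V ≤ V ^ 2 := by nlinarith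
        gcongr
      have h8 : (d : ℝ) ^ 2 ≤ (Y : ℝ) ^ (1 / 50 : ℝ) := by
        calc (d : ℝ) ^ 2 ≤ ((Y : ℝ) ^ (1 / 100 : ℝ)) ^ 2 := by gcongr
          _ = (Y : ℝ) ^ (1 / 50 : ℝ) := by
            rw [← Real.rpow_natCast, ← Real.rpow_mul hy.le]
            norm_num
      have h9 : (Y : ℝ) ^ (-(1 / 100) : ℝ) ≤ (d : ℝ) ^ (-s) := by
        have e : (Y : ℝ) ^ (-(1 / 100) : ℝ) = ((Y : ℝ) ^ (1 / 100 : ℝ)) ^ (-1 : ℝ) := by
          rw [← Real.rpow_mul hy.le]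
          norm_num
        rw [e]
        refine (Real.rpow_le_rpow_of_nonpos hd0 b3 (by norm_num)).trans ?_
        exact Real.rpow_le_rpow_of_exponent_le hd1' (by linarith)
      have h10 : V ^ 3 * ((Y : ℝ) ^ (1 / 2 : ℝ) * V) = (Y : ℝ) ^ (1 / 2 + 16 / 10000 : ℝ) := by
        have e : V ^ 3 * ((Y : ℝ) ^ (1 / 2 : ℝ) * V) = (Y : ℝ) ^ (1 / 2 : ℝ) * V ^ 4 := by ring
        rw [e, hV, ← Real.rpow_natCast, ← Real.rpow_mul hy.le, ← Real.rpow_add hy]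
        norm_num
      calc (3 : ℝ) ^ d.primeFactors.card * (V ^ 3 * √(Y * V)) ≤
            (Y : ℝ) ^ (1 / 50 : ℝ) * (V ^ 3 * ((Y : ℝ) ^ (1 / 2 : ℝ) * V)) := by
            gcongr
            exact h6.trans h8
        _ = (Y : ℝ) ^ (1 / 50 + (1 / 2 + 16 / 10000) : ℝ) := by
            rw [h10, ← Real.rpow_add hy]
        _ ≤ (Y : ℝ) ^ (2 / 3 + -(1 / 100) : ℝ) :=
            Real.rpow_le_rpow_of_exponent_le hy1 (by norm_num)
        _ = (Y : ℝ) ^ (2 / 3 : ℝ) * (Y : ℝ) ^ (-(1 / 100) : ℝ) := Real.rpow_add hy _ _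
        _ ≤ (Y : ℝ) ^ (2 / 3 : ℝ) * (d : ℝ) ^ (-s) := by gcongr
    calc K * (15 ^ d.primeFactors.card / d * (Y : ℝ) ^ (2 / 3 : ℝ) +
          3 ^ d.primeFactors.card * (V ^ 3 * √(Y * V))) ≤
          K * (C * (d : ℝ) ^ (-s) * (Y : ℝ) ^ (2 / 3 : ℝ) +
            (Y : ℝ) ^ (2 / 3 : ℝ) * (d : ℝ) ^ (-s)) := by gcongr
      _ = _ := by ring
  refine h1.trans ((sum_le_sum h2).trans ?_)
  rw [← Finset.mul_sum]

/-- A triple which is not good, or is essentially different from a triple with a large common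
radical. -/
theorem large_few (θ : ℝ) (hθ : 0 < θ) : ∃ κ : ℝ, 0 < κ ∧ ∀ᶠ Y : ℕ in atTop,
    ∀ S : Finset (ℕ × ℕ), (∀ t ∈ S, InF Y t ∧ (¬ Good Y t ∨ Sub ((Y : ℝ) ^ θ) t)) →
      (S.card : ℝ) ≤ (Y : ℝ) ^ (2 / 3 - κ) := by
  classical
  obtain ⟨B, δ, hB, hδ, hsupp⟩ := supp_few
  obtain ⟨κ2, hκ2, hκ2', hbad⟩ := bad_few
  obtain ⟨κ, hκ⟩ : ∃ κ : ℝ, κ = min (θ * δ) κ2 := ⟨_, rfl⟩
  have hκ0 : 0 < κ := by rw [hκ]; exact lt_min (by positivity) hκ2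
  have hκ1 : κ ≤ θ * δ := by rw [hκ]; exact min_le_left _ _
  have hκ2'' : κ ≤ κ2 := by rw [hκ]; exact min_le_right _ _
  refine ⟨κ / 2, by positivity, ?_⟩
  have hlarge : ∀ᶠ Y : ℕ in atTop, B + 2 ≤ (Y : ℝ) ^ (κ / 2) := by
    have h1 : Tendsto (fun Y : ℕ => (Y : ℝ) ^ (κ / 2)) atTop atTop :=
      (tendsto_rpow_atTop (by positivity)).comp tendsto_natCast_atTop_atTop
    exact h1.eventually (eventually_ge_atTop _)
  filter_upwards [hsupp, hbad, hlarge, eventually_ge_atTop 1] with Y h1 h2 hl hY S hS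
  have hy1 : (1 : ℝ) ≤ Y := by exact_mod_cast hY
  have hy : (0 : ℝ) < Y := by linarith
  have p1 := h2 (S.filter (fun t => ¬ Good Y t)) (by
    intro t ht
    rw [mem_filter] at ht
    exact ⟨(hS t ht.1).1, ht.2⟩)
  have p2 := h1 ((Y : ℝ) ^ θ) (S.filter (fun t => ¬ ¬ Good Y t))
    (Real.one_le_rpow hy1 hθ.le) (by
    intro t ht
    rw [mem_filter] at ht
    refine ⟨(hS t ht.1).1, ?_⟩
    rcases (hS t ht.1).2 with h | h
    · exact absurd h ht.2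
    · exact h)
  have hc : (S.card : ℝ) = ((S.filter (fun t => ¬ Good Y t)).card : ℝ) +
      (S.filter (fun t => ¬ ¬ Good Y t)).card := by
    exact_mod_cast (card_filter_add_card_filter_not (s := S) (fun t => ¬ Good Y t)).symm
  have e1 : ((Y : ℝ) ^ θ) ^ (-δ) * (Y : ℝ) ^ (2 / 3 : ℝ) ≤ (Y : ℝ) ^ (2 / 3 - κ) := by
    rw [← Real.rpow_mul hy.le, ← Real.rpow_add hy]
    exact Real.rpow_le_rpow_of_exponent_le hy1 (by linarith)
  have e2 : (Y : ℝ) ^ (2 / 3 - κ2) ≤ (Y : ℝ) ^ (2 / 3 - κ) :=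
    Real.rpow_le_rpow_of_exponent_le hy1 (by linarith)
  have e3 : (Y : ℝ) ^ (2 / 3 - κ / 2) = (Y : ℝ) ^ (κ / 2) * (Y : ℝ) ^ (2 / 3 - κ) := by
    rw [← Real.rpow_add hy]
    congr 1
    ring
  have hp0 : 0 ≤ (Y : ℝ) ^ (2 / 3 - κ) := by positivity
  rw [e3, hc]
  calc ((S.filter (fun t => ¬ Good Y t)).card : ℝ) + (S.filter (fun t => ¬ ¬ Good Y t)).card ≤
        2 * (Y : ℝ) ^ (2 / 3 - κ2) +
          B * ((Y : ℝ) ^ θ) ^ (-δ) * (Y : ℝ) ^ (2 / 3 : ℝ) := add_le_add p1 p2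
    _ = 2 * (Y : ℝ) ^ (2 / 3 - κ2) +
          B * (((Y : ℝ) ^ θ) ^ (-δ) * (Y : ℝ) ^ (2 / 3 : ℝ)) := by ring
    _ ≤ 2 * (Y : ℝ) ^ (2 / 3 - κ) + B * (Y : ℝ) ^ (2 / 3 - κ) := by gcongr
    _ = (B + 2) * (Y : ℝ) ^ (2 / 3 - κ) := by ring
    _ ≤ _ := mul_le_mul_of_nonneg_right hl hp0

/-- Almost every triple dominates the unit equation of its radical, with the sharp exponent. -/
theorem supp_sharp (ε : ℝ) (hε : 0 < ε) : ∃ κ K : ℝ, 0 < κ ∧ 0 < K ∧ ∀ᶠ Y : ℕ in atTop,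
    ∀ (D : ℝ) (S : Finset (ℕ × ℕ)), 1 ≤ D → D ≤ (Y : ℝ) ^ κ → (∀ t ∈ S, InF Y t ∧ Sub D t) →
      (S.card : ℝ) ≤ K * D ^ (ε - 1 / 3) * (Y : ℝ) ^ (2 / 3 : ℝ) := by
  classical
  obtain ⟨s, hs⟩ : ∃ s : ℝ, s = max (1 - ε) (5 / 6) := ⟨_, rfl⟩
  have hs1 : 1 - ε ≤ s := by rw [hs]; exact le_max_left _ _
  have hs2 : 5 / 6 ≤ s := by rw [hs]; exact le_max_right _ _
  have hs3 : s < 1 := by rw [hs]; exact max_lt (by linarith) (by norm_num)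
  obtain ⟨K, hK, hsmall⟩ := small_gen s (by linarith) hs3
  obtain ⟨B, hB, htail⟩ := tail_sum s (by linarith)
  obtain ⟨κ, hκ, hlf⟩ := large_few (1 / 100) (by norm_num)
  refine ⟨κ, K * B + 1, hκ, by positivity, ?_⟩
  filter_upwards [hsmall, hlf, eventually_ge_atTop 1] with Y h1 h2 hY D S hD hDY hS
  have hy1 : (1 : ℝ) ≤ Y := by exact_mod_cast hY
  have hy : (0 : ℝ) < Y := by linarith
  have hD0 : 0 < D := by linarith
  obtain ⟨P, hP⟩ : ∃ P : ℕ × ℕ → Prop, P = fun t => ¬ Good Y t ∨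
      Sub ((Y : ℝ) ^ (1 / 100 : ℝ)) t := ⟨_, rfl⟩
  have p1 := h2 (S.filter P) (by
    intro t ht
    rw [mem_filter, hP] at ht
    exact ⟨(hS t ht.1).1, ht.2⟩)
  obtain ⟨R, hR⟩ : ∃ R : Finset (ℕ × ℕ), R = (F_finite Y).toFinset.filter
      (fun t' => D < rad (Nn t') ∧ (rad (Nn t') : ℝ) ≤ (Y : ℝ) ^ (1 / 100 : ℝ)) := ⟨_, rfl⟩
  have hRm : ∀ t', t' ∈ R ↔ InF Y t' ∧ D < rad (Nn t') ∧
      (rad (Nn t') : ℝ) ≤ (Y : ℝ) ^ (1 / 100 : ℝ) := by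
    intro t'
    rw [hR, mem_filter, Set.Finite.mem_toFinset]
    rfl
  have p2 := h1 R (S.filter (fun t => ¬ P t)) (fun t' ht' => ((hRm t').1 ht').2.2) (by
    intro t ht
    rw [mem_filter, hP, not_or, not_not] at ht
    obtain ⟨ht1, ht2, ht3⟩ := ht
    obtain ⟨a1, t', b1, b2, b3, b4, b5, b6, b7⟩ := hS t ht1
    refine ⟨ht2, t', (hRm t').2 ⟨⟨b1, b2, b3, ?_⟩, b7, ?_⟩, b4⟩
    · exact (Nat.le_of_dvd (rad_pos _) b4).trans a1.2.2.2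
    · by_contra hcon
      exact ht3 ⟨t', b1, b2, b3, b4, b5, b6, not_le.1 hcon⟩)
  have p3 := htail D R hD (by
    intro t ht
    obtain ⟨b1, b2, b3⟩ := (hRm t).1 ht
    exact ⟨b1.1, b1.2.1, b1.2.2.1, b2⟩)
  have hc : (S.card : ℝ) = ((S.filter P).card : ℝ) + (S.filter (fun t => ¬ P t)).card := by
    exact_mod_cast (card_filter_add_card_filter_not (s := S) P).symm
  have e1 : (Y : ℝ) ^ (2 / 3 - κ) ≤ D ^ (ε - 1 / 3) * (Y : ℝ) ^ (2 / 3 : ℝ) := by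
    have e2 : (Y : ℝ) ^ (2 / 3 - κ) = ((Y : ℝ) ^ κ) ^ (-1 : ℝ) * (Y : ℝ) ^ (2 / 3 : ℝ) := by
      rw [← Real.rpow_mul hy.le, ← Real.rpow_add hy]
      congr 1
      ring
    rw [e2]
    apply mul_le_mul_of_nonneg_right _ (by positivity)
    refine (Real.rpow_le_rpow_of_nonpos hD0 hDY (by norm_num)).trans ?_
    exact Real.rpow_le_rpow_of_exponent_le hD (by linarith)
  have e3 : D ^ (2 / 3 - s) ≤ D ^ (ε - 1 / 3) :=
    Real.rpow_le_rpow_of_exponent_le hD (by linarith)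
  rw [hc]
  calc ((S.filter P).card : ℝ) + (S.filter (fun t => ¬ P t)).card ≤
        D ^ (ε - 1 / 3) * (Y : ℝ) ^ (2 / 3 : ℝ) +
          K * (Y : ℝ) ^ (2 / 3 : ℝ) * (B * D ^ (ε - 1 / 3)) := by
        refine add_le_add (p1.trans e1) (p2.trans ?_)
        apply mul_le_mul_of_nonneg_left _ (by positivity)
        exact p3.trans (mul_le_mul_of_nonneg_left e3 hB.le)
    _ = (K * B + 1) * D ^ (ε - 1 / 3) * (Y : ℝ) ^ (2 / 3 : ℝ) := by ring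

/-- The sum of `rad ^ (-σ)` over the triples which violate a weak inequality. -/
theorem viol_sum (σ : ℝ) (hσ : 1 / 3 < σ) : ∃ M A : ℝ, 1 ≤ M ∧ 0 ≤ A ∧ ∀ T : Finset (ℕ × ℕ),
    (∀ t ∈ T, 0 < t.1 ∧ 0 < t.2 ∧ t.1.Coprime t.2 ∧
      M * Real.log (rad (Nn t)) ≤ Real.log ((t.1 : ℝ) + t.2)) →
    ∑ t ∈ T, (rad (Nn t) : ℝ) ^ (-σ) ≤ A := by
  classical
  obtain ⟨e, he⟩ : ∃ e : {t : ℕ × ℕ // 0 < t.1 ∧ 0 < t.2 ∧ t.1.Coprime t.2} → ℕ × ℕ,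
      e = Subtype.val := ⟨_, rfl⟩
  have hinj : Function.Injective e := by rw [he]; exact Subtype.val_injective
  have hprop : ∀ i, 0 < (e i).1 ∧ 0 < (e i).2 ∧ Nat.Coprime (e i).1 (e i).2 := by
    intro i
    rw [he]
    exact i.2
  obtain ⟨M0, hM0⟩ := Pool.Agent.Lib.AbcU.Dk_viol e hinj hprop 1 σ hσ
  have hD := hM0 (max M0 1) (le_max_left _ _)
  refine ⟨max M0 1, (Pool.Agent.Lib.AbcU.Dk (fun i => Pool.Agent.Lib.Pabc2.rd (e i))
    (Pool.Agent.Lib.AbcU.V e (max M0 1)) 1 σ).toReal, le_max_right _ _, ENNReal.toReal_nonneg, ?_⟩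
  intro T hT
  rw [← ENNReal.ofReal_le_iff_le_toReal hD]
  obtain ⟨φ, hφ⟩ : ∃ φ : {x // x ∈ T} →
      (Fin 1 → {t : ℕ × ℕ // 0 < t.1 ∧ 0 < t.2 ∧ t.1.Coprime t.2}),
      φ = fun x => fun _ => ⟨x.1, (hT x.1 x.2).1, (hT x.1 x.2).2.1, (hT x.1 x.2).2.2.1⟩ := ⟨_, rfl⟩
  have hφi : Function.Injective φ := by
    intro x y h
    rw [hφ] at h
    have h1 := congrFun h 0
    simp only [Subtype.mk.injEq] at h1
    exact Subtype.ext h1
  have hL : ∀ x : {x // x ∈ T}, Pool.Agent.Lib.AbcU.L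
      (fun i => Pool.Agent.Lib.Pabc2.rd (e i)) (φ x) = rad (Nn x.1) := by
    intro x
    have e1 : rad (Nn x.1) = Pool.Agent.Lib.Pabc2.rd (e (φ x 0)) := by
      rw [he, hφ]
      rfl
    rw [e1]
    apply Nat.dvd_antisymm
    · rw [Pool.Agent.Lib.AbcU.L_dvd]
      intro i
      rw [Subsingleton.elim i 0]
    · exact (Pool.Agent.Lib.AbcU.L_dvd (fun i => Pool.Agent.Lib.Pabc2.rd (e i)) (φ x) _).mp
        dvd_rfl 0
  have h1 : ENNReal.ofReal (∑ t ∈ T, (rad (Nn t) : ℝ) ^ (-σ)) =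
      ∑ s ∈ univ.image φ, if ∀ i, s i ∈ Pool.Agent.Lib.AbcU.V e (max M0 1) then ENNReal.ofReal
        ((Pool.Agent.Lib.AbcU.L (fun i => Pool.Agent.Lib.Pabc2.rd (e i)) s : ℝ) ^ (-σ)) else 0 := by
    rw [Finset.sum_image (fun x _ y _ h => hφi h), ENNReal.ofReal_sum_of_nonneg
      (fun t _ => by positivity), ← Finset.sum_coe_sort T
      (fun t => ENNReal.ofReal ((rad (Nn t) : ℝ) ^ (-σ)))]
    apply Finset.sum_congr rfl
    intro x _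
    rw [hL, if_pos]
    intro i
    rw [hφ, he]
    exact (hT x.1 x.2).2.2.2
  rw [h1]
  exact ENNReal.sum_le_tsum _

/-- Almost every triple dominates the unit equation of its radical: all the triples composed of its
primes are low. -/
theorem high_few (m ε : ℝ) (hm : 0 < m) (hε : 0 < ε) : ∃ K : ℝ, 0 < K ∧ ∀ᶠ Y : ℕ in atTop,
    ∀ S : Finset (ℕ × ℕ), (∀ t ∈ S, InF Y t ∧ ∃ t' : ℕ × ℕ, 0 < t'.1 ∧ 0 < t'.2 ∧
      t'.1.Coprime t'.2 ∧ rad (Nn t') ∣ rad (Nn t) ∧ t' ≠ t ∧ t' ≠ t.swap ∧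
      m * Real.log Y ≤ Real.log ((t'.1 : ℝ) + t'.2)) →
      (S.card : ℝ) ≤ K * (Y : ℝ) ^ (2 / 3 : ℝ) * Real.log Y ^ (ε - 1 / 3) := by
  classical
  obtain ⟨δ, hδ⟩ : ∃ δ : ℝ, δ = min (ε / 2) (1 / 12) := ⟨_, rfl⟩
  have hδ0 : 0 < δ := by rw [hδ]; exact lt_min (by positivity) (by norm_num)
  have hδ1 : δ ≤ ε / 2 := by rw [hδ]; exact min_le_left _ _
  have hδ2 : δ ≤ 1 / 12 := by rw [hδ]; exact min_le_right _ _
  obtain ⟨s, hs⟩ : ∃ s : ℝ, s = 1 - δ := ⟨_, rfl⟩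
  obtain ⟨σ, hσ⟩ : ∃ σ : ℝ, σ = 1 / 3 + δ := ⟨_, rfl⟩
  obtain ⟨β, hβ⟩ : ∃ β : ℝ, β = 2 + δ := ⟨_, rfl⟩
  have hβ0 : 0 < β := by linarith
  obtain ⟨M, A, hM, hA, hviol⟩ := viol_sum σ (by linarith)
  obtain ⟨c, hc, hrad⟩ := Pool.Agent.Lib.AbcU.rad_ge
    (Subtype.val : {t : ℕ × ℕ // 0 < t.1 ∧ 0 < t.2 ∧ t.1.Coprime t.2} → ℕ × ℕ) (fun i => i.2) β
    (by linarith)
  obtain ⟨K, hK, hsmall⟩ := small_gen s (by linarith) (by linarith)
  have hM0 : 0 < M := by linarith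
  obtain ⟨θ, hθ⟩ : ∃ θ : ℝ, θ = min (1 / 100) (m / M) := ⟨_, rfl⟩
  have hθ0 : 0 < θ := by rw [hθ]; exact lt_min (by norm_num) (by positivity)
  have hθ1 : θ ≤ 1 / 100 := by rw [hθ]; exact min_le_left _ _
  have hθ2 : θ ≤ m / M := by rw [hθ]; exact min_le_right _ _
  have hθM : M * θ ≤ m := by
    rw [le_div_iff₀ hM0] at hθ2
    linarith
  obtain ⟨κ, hκ, hlf⟩ := large_few θ hθ0
  obtain ⟨Q, hQ⟩ : ∃ Q : ℝ, Q = c ^ (-(s - σ)) * m ^ (-((s - σ) / β)) := ⟨_, rfl⟩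
  have hQ0 : 0 < Q := by rw [hQ]; positivity
  refine ⟨K * (A * Q) + 1, by positivity, ?_⟩
  have hlogt : Tendsto (fun Y : ℕ => Real.log (Y : ℝ)) atTop atTop :=
    Real.tendsto_log_atTop.comp tendsto_natCast_atTop_atTop
  have hlog1 : ∀ᶠ Y : ℕ in atTop, 1 ≤ Real.log Y := hlogt.eventually (eventually_ge_atTop 1)
  have hlog2 : ∀ᶠ Y : ℕ in atTop, Real.log Y ≤ (Y : ℝ) ^ κ := by
    have h1 := (isLittleO_log_rpow_atTop hκ).bound (show (0 : ℝ) < 1 by norm_num)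
    have h2 := tendsto_natCast_atTop_atTop (R := ℝ) |>.eventually h1
    filter_upwards [h2, hlog1, eventually_ge_atTop 1] with Y h3 h4 h5
    rw [one_mul, Real.norm_of_nonneg (by linarith), Real.norm_of_nonneg (by positivity)] at h3
    exact h3
  filter_upwards [hsmall, hlf, hlog1, hlog2, eventually_ge_atTop 1] with Y h1 h2 hl1 hl2 hY S hS
  have hy1 : (1 : ℝ) ≤ Y := by exact_mod_cast hY
  have hy : (0 : ℝ) < Y := by linarith
  have hl0 : 0 < Real.log Y := by linarith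
  obtain ⟨P, hP⟩ : ∃ P : ℕ × ℕ → Prop, P = fun t => ¬ Good Y t ∨ Sub ((Y : ℝ) ^ θ) t := ⟨_, rfl⟩
  have p1 := h2 (S.filter P) (by
    intro t ht
    rw [mem_filter, hP] at ht
    exact ⟨(hS t ht.1).1, ht.2⟩)
  obtain ⟨R, hR⟩ : ∃ R : Finset (ℕ × ℕ), R = (F_finite Y).toFinset.filter
      (fun t' => (rad (Nn t') : ℝ) ≤ (Y : ℝ) ^ θ ∧
        m * Real.log Y ≤ Real.log ((t'.1 : ℝ) + t'.2)) := ⟨_, rfl⟩
  have hRm : ∀ t', t' ∈ R ↔ InF Y t' ∧ (rad (Nn t') : ℝ) ≤ (Y : ℝ) ^ θ ∧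
      m * Real.log Y ≤ Real.log ((t'.1 : ℝ) + t'.2) := by
    intro t'
    rw [hR, mem_filter, Set.Finite.mem_toFinset]
    rfl
  have p2 := h1 R (S.filter (fun t => ¬ P t)) (fun t' ht' => ((hRm t').1 ht').2.1.trans
    (Real.rpow_le_rpow_of_exponent_le hy1 hθ1)) (by
    intro t ht
    rw [mem_filter, hP, not_or, not_not] at ht
    obtain ⟨ht1, ht2, ht3⟩ := ht
    obtain ⟨a1, t', b1, b2, b3, b4, b5, b6, b7⟩ := hS t ht1
    refine ⟨ht2, t', (hRm t').2 ⟨⟨b1, b2, b3, ?_⟩, ?_, b7⟩, b4⟩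
    · exact (Nat.le_of_dvd (rad_pos _) b4).trans a1.2.2.2
    · by_contra hcon
      exact ht3 ⟨t', b1, b2, b3, b4, b5, b6, not_le.1 hcon⟩)
  have p3 := hviol R (by
    intro t ht
    obtain ⟨b1, b2, b3⟩ := (hRm t).1 ht
    refine ⟨b1.1, b1.2.1, b1.2.2.1, ?_⟩
    have hr0 : (0 : ℝ) < rad (Nn t) := by exact_mod_cast rad_pos _
    have h3 : Real.log (rad (Nn t)) ≤ θ * Real.log Y := by
      rw [← Real.log_rpow hy]
      exact Real.log_le_log hr0 b2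
    calc M * Real.log (rad (Nn t)) ≤ M * (θ * Real.log Y) := by gcongr
      _ = (M * θ) * Real.log Y := by ring
      _ ≤ m * Real.log Y := by gcongr
      _ ≤ _ := b3)
  obtain ⟨D, hD⟩ : ∃ D : ℝ, D = c * (m * Real.log Y) ^ (1 / β) := ⟨_, rfl⟩
  have hD0 : 0 < D := by rw [hD]; positivity
  have p4 : ∑ t ∈ R, (rad (Nn t) : ℝ) ^ (-s) ≤ A * D ^ (-(s - σ)) := by
    have h3 : ∀ t ∈ R, (rad (Nn t) : ℝ) ^ (-s) ≤ (rad (Nn t) : ℝ) ^ (-σ) * D ^ (-(s - σ)) := by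
      intro t ht
      obtain ⟨b1, b2, b3⟩ := (hRm t).1 ht
      have hr0 : (0 : ℝ) < rad (Nn t) := by exact_mod_cast rad_pos _
      have h4 := hrad (m * Real.log Y) (by positivity) ⟨t, b1.1, b1.2.1, b1.2.2.1⟩ b3
      have h5 : D ≤ rad (Nn t) := by
        rw [hD]
        exact h4
      have e : (-s) = (-σ) + (-(s - σ)) := by ring
      rw [e, Real.rpow_add hr0]
      apply mul_le_mul_of_nonneg_left _ (by positivity)
      exact Real.rpow_le_rpow_of_nonpos hD0 h5 (by linarith)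
    refine (sum_le_sum h3).trans ?_
    rw [← Finset.sum_mul]
    exact mul_le_mul_of_nonneg_right p3 (by positivity)
  have e1 : D ^ (-(s - σ)) ≤ Q * Real.log Y ^ (ε - 1 / 3) := by
    have e2 : D ^ (-(s - σ)) = Q * Real.log Y ^ (-((s - σ) / β)) := by
      rw [hD, hQ, Real.mul_rpow hc.le (by positivity), ← Real.rpow_mul (by positivity),
        Real.mul_rpow hm.le hl0.le]
      have e3 : 1 / β * -(s - σ) = -((s - σ) / β) := by ring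
      rw [e3, mul_assoc]
    rw [e2]
    apply mul_le_mul_of_nonneg_left _ hQ0.le
    apply Real.rpow_le_rpow_of_exponent_le hl1
    have h3 : 1 / 3 - 2 * δ ≤ (s - σ) / β := by
      rw [le_div_iff₀ hβ0, hs, hσ, hβ]
      nlinarith
    linarith
  have e4 : (Y : ℝ) ^ (2 / 3 - κ) ≤ (Y : ℝ) ^ (2 / 3 : ℝ) * Real.log Y ^ (ε - 1 / 3) := by
    have e5 : (Y : ℝ) ^ (2 / 3 - κ) = (Y : ℝ) ^ (2 / 3 : ℝ) * ((Y : ℝ) ^ κ) ^ (-1 : ℝ) := by
      rw [← Real.rpow_mul hy.le, ← Real.rpow_add hy]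
      congr 1
      ring
    rw [e5]
    apply mul_le_mul_of_nonneg_left _ (by positivity)
    refine (Real.rpow_le_rpow_of_nonpos hl0 hl2 (by norm_num)).trans ?_
    exact Real.rpow_le_rpow_of_exponent_le hl1 (by linarith)
  have hc' : (S.card : ℝ) = ((S.filter P).card : ℝ) + (S.filter (fun t => ¬ P t)).card := by
    exact_mod_cast (card_filter_add_card_filter_not (s := S) P).symm
  rw [hc']
  calc ((S.filter P).card : ℝ) + (S.filter (fun t => ¬ P t)).card ≤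
        (Y : ℝ) ^ (2 / 3 : ℝ) * Real.log Y ^ (ε - 1 / 3) +
          K * (Y : ℝ) ^ (2 / 3 : ℝ) * (A * (Q * Real.log Y ^ (ε - 1 / 3))) := by
        refine add_le_add (p1.trans e4) (p2.trans ?_)
        apply mul_le_mul_of_nonneg_left _ (by positivity)
        exact p4.trans (mul_le_mul_of_nonneg_left e1 hA)
    _ = (K * (A * Q) + 1) * (Y : ℝ) ^ (2 / 3 : ℝ) * Real.log Y ^ (ε - 1 / 3) := by ring

end Pool.Agent.Lib.AbcE
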